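import Pool.Agent.DiracAdd.Count

/-!
Lines of the real plane given by integer triples.
-/

set_option autoImplicit false

namespace Pool.Agent.DiracAdd

/-- The line `a x + b y + c = 0` of the plane, for `v = (a, b, c)`. -/
def ln (v : V) : AffineSubspace ℝ (ℝ × ℝ) where
  carrier := {p | (v.1 : ℝ) * p.1 + (v.2.1 : ℝ) * p.2 + (v.2.2 : ℝ) = 0}
  smul_vsub_vadd_mem' := by
    intro c p1 p2 p3 h1 h2 h3
    simp only [Set.mem_ofPred_eq, vsub_eq_sub, vadd_eq_add, Prod.fst_add, Prod.snd_add,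
      Prod.smul_fst, Prod.smul_snd, Prod.fst_sub, Prod.snd_sub, smul_eq_mul] at *
    linear_combination c * h1 - c * h2 + h3

theorem mem_ln {v : V} {p : ℝ × ℝ} :
    p ∈ ln v ↔ (v.1 : ℝ) * p.1 + (v.2.1 : ℝ) * p.2 + (v.2.2 : ℝ) = 0 := Iff.rfl

/-- third coordinate of the cross product -/
def x3 (u w : V) : Int := u.1 * w.2.1 - u.2.1 * w.1

theorem sq_pos_real {v : V} (h : v.1 ≠ 0 ∨ v.2.1 ≠ 0) :
    0 < (v.1 : ℝ) ^ 2 + (v.2.1 : ℝ) ^ 2 := by
  rcases h with h | h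
  · have : (v.1 : ℝ) ≠ 0 := by exact_mod_cast h
    positivity
  · have : (v.2.1 : ℝ) ≠ 0 := by exact_mod_cast h
    positivity

theorem direction_ln {v : V} (h : v.1 ≠ 0 ∨ v.2.1 ≠ 0) :
    (ln v).direction = Submodule.span ℝ {((-(v.2.1 : ℝ), (v.1 : ℝ)) : ℝ × ℝ)} := by
  have hp := sq_pos_real h
  set D := (v.1 : ℝ) ^ 2 + (v.2.1 : ℝ) ^ 2 with hD
  have hne : D ≠ 0 := hp.ne'
  have hp0 : ((-(v.1 : ℝ) * v.2.2 / D, -(v.2.1 : ℝ) * v.2.2 / D) : ℝ × ℝ) ∈ ln v := by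
    rw [mem_ln]
    simp only
    field_simp
    rw [hD]; ring
  ext d
  rw [AffineSubspace.mem_direction_iff_eq_vsub ⟨_, hp0⟩, Submodule.mem_span_singleton]
  constructor
  · rintro ⟨p, hp1, q, hq1, rfl⟩
    rw [mem_ln] at hp1 hq1
    refine ⟨((v.1 : ℝ) * (p.2 - q.2) - (v.2.1 : ℝ) * (p.1 - q.1)) / D, ?_⟩
    have e : (v.1 : ℝ) * (p.1 - q.1) + (v.2.1 : ℝ) * (p.2 - q.2) = 0 := by
      linear_combination hp1 - hq1
    rw [vsub_eq_sub]
    ext
    · simp only [Prod.smul_mk, smul_eq_mul, Prod.fst_sub]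
      rw [div_mul_eq_mul_div, div_eq_iff hne, hD]
      linear_combination (-(v.1 : ℝ)) * e
    · simp only [Prod.smul_mk, smul_eq_mul, Prod.snd_sub]
      rw [div_mul_eq_mul_div, div_eq_iff hne, hD]
      linear_combination (-(v.2.1 : ℝ)) * e
  · rintro ⟨t, rfl⟩
    refine ⟨_, ?_, _, hp0, (vadd_vsub _ _).symm⟩
    rw [mem_ln] at hp0 ⊢
    simp only [vadd_eq_add, Prod.fst_add, Prod.snd_add, Prod.smul_mk, smul_eq_mul] at hp0 ⊢
    linear_combination hp0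

theorem finrank_ln {v : V} (h : v.1 ≠ 0 ∨ v.2.1 ≠ 0) :
    Module.finrank ℝ (ln v).direction = 1 := by
  rw [direction_ln h]
  apply finrank_span_singleton
  intro h0
  rw [Prod.mk_eq_zero] at h0
  rcases h with h | h
  · apply h; exact_mod_cast h0.2
  · apply h
    have := h0.1
    rw [neg_eq_zero] at this
    exact_mod_cast this

theorem x3_of_parallel {u w : V} (hu : u.1 ≠ 0 ∨ u.2.1 ≠ 0) (hw : w.1 ≠ 0 ∨ w.2.1 ≠ 0)
    (h : AffineSubspace.Parallel (ln w) (ln u)) : x3 u w = 0 := by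
  have h1 := h.direction_eq
  rw [direction_ln hu, direction_ln hw] at h1
  have h2 : ((-(w.2.1 : ℝ), (w.1 : ℝ)) : ℝ × ℝ) ∈
      Submodule.span ℝ {((-(u.2.1 : ℝ), (u.1 : ℝ)) : ℝ × ℝ)} := by
    rw [← h1]; exact Submodule.mem_span_singleton_self _
  rw [Submodule.mem_span_singleton] at h2
  obtain ⟨t, ht⟩ := h2
  simp only [Prod.smul_mk, smul_eq_mul, Prod.mk.injEq] at ht
  have h3 : ((x3 u w : Int) : ℝ) = 0 := by
    unfold x3
    push_cast
    linear_combination (u.1 : ℝ) * ht.1 + (u.2.1 : ℝ) * ht.2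
  exact_mod_cast h3

/-- the intersection point of two lines -/
noncomputable def pt (u w : V) : ℝ × ℝ :=
  (((crs u w).1 : ℝ) / (x3 u w : ℝ), ((crs u w).2.1 : ℝ) / (x3 u w : ℝ))

theorem pt_mem {u w : V} (h : x3 u w ≠ 0) : pt u w ∈ ln u ∧ pt u w ∈ ln w := by
  have h' : ((x3 u w : Int) : ℝ) ≠ 0 := by exact_mod_cast h
  constructor
  · rw [mem_ln]
    simp only [pt]
    field_simp
    simp only [crs, x3]
    push_cast
    ring
  · rw [mem_ln]
    simp only [pt]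
    field_simp
    simp only [crs, x3]
    push_cast
    ring

theorem unique_pt {u w : V} (h : x3 u w ≠ 0) {p q : ℝ × ℝ} (hp : p ∈ ln u) (hp' : p ∈ ln w)
    (hq : q ∈ ln u) (hq' : q ∈ ln w) : p = q := by
  have h' : ((x3 u w : Int) : ℝ) ≠ 0 := by exact_mod_cast h
  rw [mem_ln] at hp hp' hq hq'
  have e1 : ((x3 u w : Int) : ℝ) * (p.1 - q.1) = 0 := by
    unfold x3; push_cast
    linear_combination (w.2.1 : ℝ) * hp - (w.2.1 : ℝ) * hq - (u.2.1 : ℝ) * hp' + (u.2.1 : ℝ) * hq'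
  have e2 : ((x3 u w : Int) : ℝ) * (p.2 - q.2) = 0 := by
    unfold x3; push_cast
    linear_combination (-(w.1 : ℝ)) * hp + (w.1 : ℝ) * hq + (u.1 : ℝ) * hp' - (u.1 : ℝ) * hq'
  ext
  · rcases mul_eq_zero.mp e1 with h1 | h1
    · exact absurd h1 h'
    · linarith
  · rcases mul_eq_zero.mp e2 with h1 | h1
    · exact absurd h1 h'
    · linarith

/-- a common point of two parallel lines forces proportionality -/
theorem crs_of_x3 {u w : V} (h : x3 u w = 0) {p : ℝ × ℝ} (hp : p ∈ ln u) (hp' : p ∈ ln w) :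
    crs u w = 0 := by
  rw [mem_ln] at hp hp'
  have h' : ((x3 u w : Int) : ℝ) = 0 := by exact_mod_cast h
  have h3 : (u.1 : ℝ) * w.2.1 - u.2.1 * w.1 = 0 := by
    have := h'
    unfold x3 at this
    push_cast at this
    exact this
  have e1 : ((u.2.1 * w.2.2 - u.2.2 * w.2.1 : Int) : ℝ) = 0 := by
    push_cast
    linear_combination (u.2.1 : ℝ) * hp' - (w.2.1 : ℝ) * hp + p.1 * h3
  have e2 : ((u.2.2 * w.1 - u.1 * w.2.2 : Int) : ℝ) = 0 := by
    push_cast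
    linear_combination (w.1 : ℝ) * hp - (u.1 : ℝ) * hp' + p.2 * h3
  have e3 : u.2.1 * w.2.2 - u.2.2 * w.2.1 = 0 := by exact_mod_cast e1
  have e4 : u.2.2 * w.1 - u.1 * w.2.2 = 0 := by exact_mod_cast e2
  unfold crs
  rw [e3, e4]
  unfold x3 at h
  rw [h]
  rfl

/-- if the determinant vanishes then the third line passes through the common point -/
theorem mem_of_det {u w w' : V} (h : x3 u w ≠ 0) (hd : det3 u w w' = 0) {p : ℝ × ℝ}
    (hp : p ∈ ln u) (hp' : p ∈ ln w) : p ∈ ln w' := by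
  have h' : ((x3 u w : Int) : ℝ) ≠ 0 := by exact_mod_cast h
  rw [mem_ln] at hp hp' ⊢
  have hd' : ((det3 u w w' : Int) : ℝ) = 0 := by exact_mod_cast hd
  unfold det3 dt crs at hd'
  push_cast at hd'
  have e : ((x3 u w : Int) : ℝ) * ((w'.1 : ℝ) * p.1 + (w'.2.1 : ℝ) * p.2 + (w'.2.2 : ℝ)) = 0 := by
    unfold x3; push_cast
    linear_combination hd' + ((w.2.1 : ℝ) * w'.1 - (w.1 : ℝ) * w'.2.1) * hp -
      ((u.2.1 : ℝ) * w'.1 - (u.1 : ℝ) * w'.2.1) * hp'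
  rcases mul_eq_zero.mp e with h1 | h1
  · exact absurd h1 h'
  · exact h1

end Pool.Agent.DiracAdd
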