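import Pool.Agent.DiracAdd.Combine
import Pool.Agent.DiracAdd.Plane

/-!
The arrangement of 2328 lines.
-/

set_option autoImplicit false

open scoped Classical

namespace Pool.Agent.DiracAdd

/-- the triples that give lines of the affine plane -/
noncomputable def Saff : Finset V := Sfin.erase (0, 0, 1)

theorem mem_Saff {v : V} : v ∈ Saff ↔ v ∈ Slit ∧ v ≠ (0, 0, 1) := by
  unfold Saff Sfin
  rw [Finset.mem_erase, List.mem_toFinset, and_comm]

theorem card_Saff : Saff.card = 2328 := by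
  unfold Saff
  rw [Finset.card_erase_of_mem, card_Sfin]
  exact List.mem_toFinset.mpr e3_mem

/-- the arrangement -/
noncomputable def Arr : Finset (AffineSubspace ℝ (ℝ × ℝ)) := Saff.image ln

theorem dir_ne {v : V} (h : v ∈ Saff) : v.1 ≠ 0 ∨ v.2.1 ≠ 0 :=
  ne_of_mem (mem_Saff.mp h).1 (mem_Saff.mp h).2

theorem exists_mem_ln {v : V} (h : v.1 ≠ 0 ∨ v.2.1 ≠ 0) : ∃ p, p ∈ ln v := by
  have hp := sq_pos_real h
  refine ⟨(-(v.1 : ℝ) * v.2.2 / ((v.1 : ℝ) ^ 2 + (v.2.1 : ℝ) ^ 2),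
    -(v.2.1 : ℝ) * v.2.2 / ((v.1 : ℝ) ^ 2 + (v.2.1 : ℝ) ^ 2)), ?_⟩
  rw [mem_ln]
  simp only
  field_simp
  ring

theorem ln_injOn : Set.InjOn ln (Saff : Set V) := by
  intro v hv w hw h
  have hv' := Finset.mem_coe.mp hv
  have hw' := Finset.mem_coe.mp hw
  obtain ⟨p, hp⟩ := exists_mem_ln (dir_ne hv')
  have hx : x3 v w = 0 := x3_of_parallel (dir_ne hv') (dir_ne hw') (by rw [h])
  exact eq_of_crs (mem_Saff.mp hv').1 (mem_Saff.mp hw').1 (crs_of_x3 hx hp (h ▸ hp))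

theorem card_Arr : Arr.card = 2328 := by
  unfold Arr
  rw [Finset.card_image_of_injOn ln_injOn, card_Saff]

theorem mem_Arr {l : AffineSubspace ℝ (ℝ × ℝ)} : l ∈ Arr ↔ ∃ v ∈ Saff, ln v = l := by
  unfold Arr; rw [Finset.mem_image]

/-- points of a line on other lines of the arrangement -/
def Vx (l : AffineSubspace ℝ (ℝ × ℝ)) : Set (ℝ × ℝ) := {p | p ∈ l ∧ ∃ m ∈ Arr, m ≠ l ∧ p ∈ m}

theorem x3_ne {u w : V} (hu : u ∈ Saff) (hw : w ∈ Saff) (hne : ln w ≠ ln u) {p : ℝ × ℝ}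
    (hp : p ∈ ln u) (hp' : p ∈ ln w) : x3 u w ≠ 0 := by
  intro h
  apply hne
  rw [eq_of_crs (mem_Saff.mp hu).1 (mem_Saff.mp hw).1 (crs_of_x3 h hp hp')]

theorem crs_ne_of_x3 {u w : V} (h : x3 u w ≠ 0) : crs u w ≠ 0 := by
  intro h0
  apply h
  have := congrArg (fun v : V => v.2.2) h0
  exact this

theorem Vx_finite_card {u : V} (hu : u ∈ Saff) :
    (Vx (ln u)).Finite ∧ (Vx (ln u)).ncard ≤ 1155 := by
  obtain ⟨f, T, hT, h1, h2⟩ := good_all (mem_inS (mem_Saff.mp hu).1)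
  -- the class of the point at infinity
  have hE : InS ((0, 0, 1) : V) := mem_inS e3_mem
  have hcE : crs u (0, 0, 1) ≠ 0 := by
    intro h0
    have hd := dir_ne hu
    obtain ⟨a, b, c⟩ := u
    simp only [crs, Prod.mk_eq_zero] at h0
    simp only at hd
    rcases hd with h | h
    · apply h; linarith [h0.2.1]
    · apply h; linarith [h0.1]
  have hchoice : ∀ p : ℝ × ℝ, ∃ w : V, p ∈ Vx (ln u) →
      w ∈ Saff ∧ ln w ≠ ln u ∧ p ∈ ln u ∧ p ∈ ln w := by
    intro p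
    by_cases hp : p ∈ Vx (ln u)
    · obtain ⟨hpu, m, hm, hne, hpm⟩ := hp
      obtain ⟨w, hw, rfl⟩ := mem_Arr.mp hm
      exact ⟨w, fun _ => ⟨hw, hne, hpu, hpm⟩⟩
    · exact ⟨u, fun h => absurd h hp⟩
  choose W hW using hchoice
  have hmaps : ∀ p ∈ Vx (ln u), f (W p) ∈ (T.erase (f (0, 0, 1)) : Finset ℕ) := by
    intro p hp
    obtain ⟨hw, hne, hpu, hpw⟩ := hW p hp
    have hx := x3_ne hu hw hne hpu hpw
    rw [Finset.mem_erase]
    refine ⟨?_, h1 _ (mem_inS (mem_Saff.mp hw).1) (crs_ne_of_x3 hx)⟩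
    intro he
    have hd := h2 _ _ (mem_inS (mem_Saff.mp hw).1) hE (crs_ne_of_x3 hx) hcE he
    apply hx
    unfold det3 dt crs at hd
    unfold x3
    simpa using hd
  have hinj : Set.InjOn (fun p => f (W p)) (Vx (ln u)) := by
    intro p hp q hq he
    obtain ⟨hw, hne, hpu, hpw⟩ := hW p hp
    obtain ⟨hw', hne', hqu, hqw⟩ := hW q hq
    have hx := x3_ne hu hw hne hpu hpw
    have hx' := x3_ne hu hw' hne' hqu hqw
    have hd := h2 _ _ (mem_inS (mem_Saff.mp hw).1) (mem_inS (mem_Saff.mp hw').1)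
      (crs_ne_of_x3 hx) (crs_ne_of_x3 hx') he
    exact unique_pt hx' hpu (mem_of_det hx hd hpu hpw) hqu hqw
  have hfin : (Vx (ln u)).Finite := by
    apply Set.Finite.of_finite_image _ hinj
    apply Set.Finite.subset (Finset.finite_toSet (T.erase (f (0, 0, 1))))
    rintro _ ⟨p, hp, rfl⟩
    exact Finset.mem_coe.mpr (hmaps p hp)
  refine ⟨hfin, ?_⟩
  have h3 := Set.ncard_le_ncard_of_injOn (s := Vx (ln u))
    (t := ((T.erase (f (0, 0, 1)) : Finset ℕ) : Set ℕ)) (fun p => f (W p))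
    (fun p hp => Finset.mem_coe.mpr (hmaps p hp)) hinj (Finset.finite_toSet _)
  rw [Set.ncard_coe_finset, Finset.card_erase_of_mem (h1 _ hE hcE)] at h3
  omega

theorem e1_Saff : ((1, 0, 0) : V) ∈ Saff := mem_Saff.mpr ⟨e1_mem, by simp⟩
theorem e2_Saff : ((0, 1, 0) : V) ∈ Saff := mem_Saff.mpr ⟨e2_mem, by simp⟩
theorem e13_Saff : ((1, 0, 1) : V) ∈ Saff := mem_Saff.mpr ⟨e13_mem, by simp⟩

theorem parallel_card {l : AffineSubspace ℝ (ℝ × ℝ)} (hl : l ∈ Arr) :
    ({m : AffineSubspace ℝ (ℝ × ℝ) | m ∈ Arr ∧ AffineSubspace.Parallel m l}).ncard ≤ 1155 := by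
  obtain ⟨u, hu, rfl⟩ := mem_Arr.mp hl
  have ht : ∃ t ∈ Saff, x3 t u ≠ 0 := by
    rcases dir_ne hu with h | h
    · refine ⟨(0, 1, 0), e2_Saff, ?_⟩
      simpa [x3] using h
    · refine ⟨(1, 0, 0), e1_Saff, ?_⟩
      simpa [x3] using h
  obtain ⟨t, htS, htx⟩ := ht
  have hrep : ∀ m : AffineSubspace ℝ (ℝ × ℝ), ∃ w : V, m ∈ Arr → w ∈ Saff ∧ ln w = m := by
    intro m
    by_cases hm : m ∈ Arr
    · obtain ⟨w, hw, e⟩ := mem_Arr.mp hm
      exact ⟨w, fun _ => ⟨hw, e⟩⟩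
    · exact ⟨t, fun h => absurd h hm⟩
  choose R hR using hrep
  have key : ∀ m, (m ∈ Arr ∧ AffineSubspace.Parallel m (ln u)) →
      R m ∈ Saff ∧ ln (R m) = m ∧ x3 u (R m) = 0 ∧ x3 t (R m) ≠ 0 := by
    rintro m ⟨hm, hp⟩
    obtain ⟨h1, h2⟩ := hR m hm
    have h3 : x3 u (R m) = 0 := x3_of_parallel (dir_ne hu) (dir_ne h1) (by rw [h2]; exact hp)
    refine ⟨h1, h2, h3, ?_⟩
    intro h4
    have h5 := dir_ne h1
    obtain ⟨a, b, c⟩ := u
    obtain ⟨a1, b1, c1⟩ := t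
    generalize R m = r at *
    obtain ⟨a2, b2, c2⟩ := r
    simp only [x3] at *
    -- `(a2,b2)` is proportional to both `(a,b)` and `(a1,b1)`
    rcases h5 with h5 | h5
    · apply htx
      have : a2 * (a1 * b - b1 * a) = 0 := by
        linear_combination a * h4 - a1 * h3
      rcases mul_eq_zero.mp this with h | h
      · exact absurd h h5
      · exact h
    · apply htx
      have : b2 * (a1 * b - b1 * a) = 0 := by
        linear_combination b * h4 - b1 * h3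
      rcases mul_eq_zero.mp this with h | h
      · exact absurd h h5
      · exact h
  have hVt := Vx_finite_card htS
  refine le_trans (Set.ncard_le_ncard_of_injOn (fun m => pt t (R m)) ?_ ?_ hVt.1) hVt.2
  · intro m hm
    obtain ⟨h1, h2, h3, h4⟩ := key m hm
    obtain ⟨h5, h6⟩ := pt_mem h4
    refine ⟨h5, ln (R m), mem_Arr.mpr ⟨_, h1, rfl⟩, ?_, h6⟩
    intro h7
    have := ln_injOn (Finset.mem_coe.mpr h1) (Finset.mem_coe.mpr htS) h7
    rw [this] at h4
    exact h4 (by unfold x3; ring)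
  · intro m hm m' hm' he
    obtain ⟨h1, h2, h3, h4⟩ := key m hm
    obtain ⟨h1', h2', h3', h4'⟩ := key m' hm'
    obtain ⟨h5, h6⟩ := pt_mem h4
    obtain ⟨h5', h6'⟩ := pt_mem h4'
    simp only at he
    rw [← he] at h6'
    by_contra hne
    have h7 : ln (R m') ≠ ln (R m) := by rw [h2, h2']; exact fun h => hne h.symm
    have h8 := x3_ne h1 h1' h7 h6 h6'
    apply h8
    have hd := dir_ne hu
    obtain ⟨a, b, c⟩ := u
    generalize R m = r at *
    generalize R m' = r' at *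
    obtain ⟨a2, b2, c2⟩ := r
    obtain ⟨a3, b3, c3⟩ := r'
    simp only [x3] at h3 h3' hd ⊢
    rcases hd with hd | hd
    · have : a * (a2 * b3 - b2 * a3) = 0 := by
        linear_combination a2 * h3' - a3 * h3
      rcases mul_eq_zero.mp this with h | h
      · exact absurd h hd
      · exact h
    · have : b * (a2 * b3 - b2 * a3) = 0 := by
        linear_combination b2 * h3' - b3 * h3
      rcases mul_eq_zero.mp this with h | h
      · exact absurd h hd
      · exact h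

theorem point_card (p : ℝ × ℝ) :
    ({l : AffineSubspace ℝ (ℝ × ℝ) | l ∈ Arr ∧ p ∈ l}).ncard ≤ 1156 := by
  have ht : ∃ t ∈ Saff, p ∉ ln t := by
    by_cases h : p ∈ ln (1, 0, 0)
    · refine ⟨(1, 0, 1), e13_Saff, ?_⟩
      intro h'
      rw [mem_ln] at h h'
      simp only [Int.cast_one, Int.cast_zero, one_mul, zero_mul, add_zero] at h h'
      rw [h] at h'
      simp at h'
    · exact ⟨(1, 0, 0), e1_Saff, h⟩
  obtain ⟨t, htS, htp⟩ := ht
  have hrep : ∀ m : AffineSubspace ℝ (ℝ × ℝ), ∃ w : V, m ∈ Arr → w ∈ Saff ∧ ln w = m := by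
    intro m
    by_cases hm : m ∈ Arr
    · obtain ⟨w, hw, e⟩ := mem_Arr.mp hm
      exact ⟨w, fun _ => ⟨hw, e⟩⟩
    · exact ⟨t, fun h => absurd h hm⟩
  choose R hR using hrep
  set A : Set (AffineSubspace ℝ (ℝ × ℝ)) := {l | l ∈ Arr ∧ p ∈ l} with hA
  set B : Set (AffineSubspace ℝ (ℝ × ℝ)) := {l | (l ∈ Arr ∧ p ∈ l) ∧ x3 t (R l) ≠ 0} with hB
  set C : Set (AffineSubspace ℝ (ℝ × ℝ)) := {l | (l ∈ Arr ∧ p ∈ l) ∧ x3 t (R l) = 0} with hC
  have hAfin : A.Finite := by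
    apply Set.Finite.subset (Finset.finite_toSet Arr)
    intro l hl
    exact Finset.mem_coe.mpr hl.1
  have hAB : A ⊆ C ∪ B := by
    intro l hl
    by_cases h : x3 t (R l) = 0
    · exact Or.inl ⟨hl, h⟩
    · exact Or.inr ⟨hl, h⟩
  have hBfin : B.Finite := hAfin.subset (fun l hl => hl.1)
  have hCfin : C.Finite := hAfin.subset (fun l hl => hl.1)
  have hCc : C.ncard ≤ 1 := by
    rw [Set.ncard_le_one hCfin]
    rintro l ⟨⟨hl, hpl⟩, hxl⟩ m ⟨⟨hm, hpm⟩, hxm⟩
    obtain ⟨h1, h2⟩ := hR l hl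
    obtain ⟨h1', h2'⟩ := hR m hm
    by_contra hne
    have h7 : ln (R m) ≠ ln (R l) := by rw [h2, h2']; exact fun h => hne h.symm
    have h8 := x3_ne h1 h1' h7 (by rw [h2]; exact hpl) (by rw [h2']; exact hpm)
    apply h8
    have hd := dir_ne htS
    obtain ⟨a, b, c⟩ := t
    generalize R l = r at *
    generalize R m = r' at *
    obtain ⟨a2, b2, c2⟩ := r
    obtain ⟨a3, b3, c3⟩ := r'
    simp only [x3] at hxl hxm hd ⊢
    rcases hd with hd | hd
    · have : a * (a2 * b3 - b2 * a3) = 0 := by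
        linear_combination a2 * hxm - a3 * hxl
      rcases mul_eq_zero.mp this with h | h
      · exact absurd h hd
      · exact h
    · have : b * (a2 * b3 - b2 * a3) = 0 := by
        linear_combination b2 * hxm - b3 * hxl
      rcases mul_eq_zero.mp this with h | h
      · exact absurd h hd
      · exact h
  have hVt := Vx_finite_card htS
  have hBc : B.ncard ≤ 1155 := by
    refine le_trans (Set.ncard_le_ncard_of_injOn (fun m => pt t (R m)) ?_ ?_ hVt.1) hVt.2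
    · rintro m ⟨⟨hm, hpm⟩, hx⟩
      obtain ⟨h1, h2⟩ := hR m hm
      obtain ⟨h5, h6⟩ := pt_mem hx
      refine ⟨h5, ln (R m), mem_Arr.mpr ⟨_, h1, rfl⟩, ?_, h6⟩
      intro h7
      have := ln_injOn (Finset.mem_coe.mpr h1) (Finset.mem_coe.mpr htS) h7
      rw [this] at hx
      exact hx (by unfold x3; ring)
    · rintro l ⟨⟨hl, hpl⟩, hxl⟩ m ⟨⟨hm, hpm⟩, hxm⟩ he
      obtain ⟨h1, h2⟩ := hR l hl
      obtain ⟨h1', h2'⟩ := hR m hm
      simp only at he
      obtain ⟨h5, h6⟩ := pt_mem hxl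
      obtain ⟨h5', h6'⟩ := pt_mem hxm
      rw [← he] at h6'
      by_contra hne
      have h7 : ln (R m) ≠ ln (R l) := by rw [h2, h2']; exact fun h => hne h.symm
      have h8 := x3_ne h1 h1' h7 h6 h6'
      have h9 := unique_pt h8 (by rw [h2]; exact hpl) (by rw [h2']; exact hpm) h6 h6'
      apply htp
      rw [h9]
      exact h5
  calc A.ncard ≤ (C ∪ B).ncard := Set.ncard_le_ncard hAB (hCfin.union hBfin)
    _ ≤ C.ncard + B.ncard := Set.ncard_union_le _ _
    _ ≤ 1156 := by omega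

/-- all intersection points -/
def Vall : Set (ℝ × ℝ) := {p | ∃ l ∈ Arr, ∃ m ∈ Arr, l ≠ m ∧ p ∈ l ∧ p ∈ m}

theorem Vall_card : 2 * Vall.ncard ≤ 2328 * 1155 := by
  have hsub : Vall ⊆ ⋃ l ∈ Arr, Vx l := by
    rintro p ⟨l, hl, m, hm, hne, hpl, hpm⟩
    exact Set.mem_biUnion hl ⟨hpl, m, hm, hne.symm, hpm⟩
  have hfinL : ∀ l ∈ Arr, (Vx l).Finite ∧ (Vx l).ncard ≤ 1155 := by
    intro l hl
    obtain ⟨u, hu, rfl⟩ := mem_Arr.mp hl
    exact Vx_finite_card hu
  have hfin : Vall.Finite := by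
    apply Set.Finite.subset _ hsub
    exact Set.Finite.biUnion (Finset.finite_toSet Arr) (fun l hl => (hfinL l hl).1)
  set F : Finset (ℝ × ℝ) := hfin.toFinset with hF
  have hcard : Vall.ncard = F.card := Set.ncard_eq_toFinset_card _ hfin
  rw [hcard]
  have hdc : ∑ l ∈ Arr, (F.filter (fun p => p ∈ l)).card =
      ∑ p ∈ F, (Arr.filter (fun l => p ∈ l)).card :=
    Finset.sum_card_bipartiteAbove_eq_sum_card_bipartiteBelow (fun l p => p ∈ l)
  have h1 : 2 * F.card ≤ ∑ p ∈ F, (Arr.filter (fun l => p ∈ l)).card := by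
    have : 2 * F.card = ∑ p ∈ F, 2 := by simp [mul_comm]
    rw [this]
    apply Finset.sum_le_sum
    intro p hp
    rw [hF, Set.Finite.mem_toFinset] at hp
    obtain ⟨l, hl, m, hm, hne, hpl, hpm⟩ := hp
    have : ({l, m} : Finset _) ⊆ Arr.filter (fun l => p ∈ l) := by
      intro x hx
      rw [Finset.mem_insert, Finset.mem_singleton] at hx
      rcases hx with rfl | rfl
      · exact Finset.mem_filter.mpr ⟨hl, hpl⟩
      · exact Finset.mem_filter.mpr ⟨hm, hpm⟩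
    calc 2 = ({l, m} : Finset _).card := (Finset.card_pair hne).symm
      _ ≤ _ := Finset.card_le_card this
  have h2 : ∑ l ∈ Arr, (F.filter (fun p => p ∈ l)).card ≤ ∑ l ∈ Arr, 1155 := by
    apply Finset.sum_le_sum
    intro l hl
    obtain ⟨hf, hc⟩ := hfinL l hl
    refine le_trans ?_ hc
    rw [← Set.ncard_coe_finset]
    apply Set.ncard_le_ncard _ hf
    intro p hp
    rw [Finset.mem_coe, Finset.mem_filter, hF, Set.Finite.mem_toFinset] at hp
    obtain ⟨⟨l', hl', m', hm', hne, hpl', hpm'⟩, hpl⟩ := hp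
    refine ⟨hpl, ?_⟩
    by_cases h : l' = l
    · exact ⟨m', hm', fun e => hne (h.trans e.symm), hpm'⟩
    · exact ⟨l', hl', h, hpl'⟩
  rw [Finset.sum_const, card_Arr, smul_eq_mul] at h2
  omega

end Pool.Agent.DiracAdd
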