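import Pool.Agent.DiracAdd.Data

set_option autoImplicit false

namespace Pool.Agent.DiracAdd

/-- representatives with bases of their orthogonal lattices, part 1 -/
def tbl1 : List (V × V × V) := [
  ((.ofNat 0, .ofNat 0, .ofNat 1), (.negSucc 0, .ofNat 0, .ofNat 0),
    (.ofNat 0, .negSucc 0, .ofNat 0)),
  ((.ofNat 0, .ofNat 1, .ofNat 1), (.negSucc 0, .ofNat 0, .ofNat 0),
    (.ofNat 0, .negSucc 0, .ofNat 1)),
  ((.ofNat 0, .ofNat 1, .ofNat 2), (.negSucc 0, .ofNat 0, .ofNat 0),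
    (.ofNat 0, .negSucc 1, .ofNat 1)),
  ((.ofNat 0, .ofNat 1, .ofNat 3), (.negSucc 0, .ofNat 0, .ofNat 0),
    (.ofNat 0, .negSucc 2, .ofNat 1)),
  ((.ofNat 0, .ofNat 1, .ofNat 4), (.negSucc 0, .ofNat 0, .ofNat 0),
    (.ofNat 0, .negSucc 3, .ofNat 1)),
  ((.ofNat 0, .ofNat 1, .ofNat 5), (.negSucc 0, .ofNat 0, .ofNat 0),
    (.ofNat 0, .negSucc 4, .ofNat 1)),
  ((.ofNat 0, .ofNat 1, .ofNat 6), (.negSucc 0, .ofNat 0, .ofNat 0),
    (.ofNat 0, .negSucc 5, .ofNat 1)),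
  ((.ofNat 0, .ofNat 1, .ofNat 7), (.negSucc 0, .ofNat 0, .ofNat 0),
    (.ofNat 0, .negSucc 6, .ofNat 1)),
  ((.ofNat 0, .ofNat 1, .ofNat 8), (.negSucc 0, .ofNat 0, .ofNat 0),
    (.ofNat 0, .negSucc 7, .ofNat 1)),
  ((.ofNat 0, .ofNat 2, .ofNat 3), (.negSucc 0, .ofNat 0, .ofNat 0),
    (.ofNat 0, .negSucc 2, .ofNat 2)),
  ((.ofNat 0, .ofNat 2, .ofNat 5), (.negSucc 0, .ofNat 0, .ofNat 0),
    (.ofNat 0, .negSucc 4, .ofNat 2)),
  ((.ofNat 0, .ofNat 2, .ofNat 7), (.negSucc 0, .ofNat 0, .ofNat 0),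
    (.ofNat 0, .negSucc 6, .ofNat 2)),
  ((.ofNat 0, .ofNat 3, .ofNat 4), (.negSucc 0, .ofNat 0, .ofNat 0),
    (.ofNat 0, .negSucc 3, .ofNat 3)),
  ((.ofNat 0, .ofNat 3, .ofNat 5), (.negSucc 0, .ofNat 0, .ofNat 0),
    (.ofNat 0, .negSucc 4, .ofNat 3)),
  ((.ofNat 0, .ofNat 3, .ofNat 7), (.negSucc 0, .ofNat 0, .ofNat 0),
    (.ofNat 0, .negSucc 6, .ofNat 3)),
  ((.ofNat 0, .ofNat 3, .ofNat 8), (.negSucc 0, .ofNat 0, .ofNat 0),
    (.ofNat 0, .negSucc 7, .ofNat 3)),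
  ((.ofNat 0, .ofNat 4, .ofNat 5), (.negSucc 0, .ofNat 0, .ofNat 0),
    (.ofNat 0, .negSucc 4, .ofNat 4)),
  ((.ofNat 0, .ofNat 4, .ofNat 7), (.negSucc 0, .ofNat 0, .ofNat 0),
    (.ofNat 0, .negSucc 6, .ofNat 4)),
  ((.ofNat 0, .ofNat 5, .ofNat 6), (.negSucc 0, .ofNat 0, .ofNat 0),
    (.ofNat 0, .negSucc 5, .ofNat 5))]

set_option maxRecDepth 100000 in
theorem chk1_0 : chk Slit 1156
    ((.ofNat 0, .ofNat 0, .ofNat 1), (.negSucc 0, .ofNat 0, .ofNat 0),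
      (.ofNat 0, .negSucc 0, .ofNat 0)) = true := by decide +kernel

set_option maxRecDepth 100000 in
theorem chk1_1 : chk Slit 1156
    ((.ofNat 0, .ofNat 1, .ofNat 1), (.negSucc 0, .ofNat 0, .ofNat 0),
      (.ofNat 0, .negSucc 0, .ofNat 1)) = true := by decide +kernel

set_option maxRecDepth 100000 in
theorem chk1_2 : chk Slit 1156
    ((.ofNat 0, .ofNat 1, .ofNat 2), (.negSucc 0, .ofNat 0, .ofNat 0),
      (.ofNat 0, .negSucc 1, .ofNat 1)) = true := by decide +kernel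

set_option maxRecDepth 100000 in
theorem chk1_3 : chk Slit 1156
    ((.ofNat 0, .ofNat 1, .ofNat 3), (.negSucc 0, .ofNat 0, .ofNat 0),
      (.ofNat 0, .negSucc 2, .ofNat 1)) = true := by decide +kernel

set_option maxRecDepth 100000 in
theorem chk1_4 : chk Slit 1156
    ((.ofNat 0, .ofNat 1, .ofNat 4), (.negSucc 0, .ofNat 0, .ofNat 0),
      (.ofNat 0, .negSucc 3, .ofNat 1)) = true := by decide +kernel

set_option maxRecDepth 100000 in
theorem chk1_5 : chk Slit 1156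
    ((.ofNat 0, .ofNat 1, .ofNat 5), (.negSucc 0, .ofNat 0, .ofNat 0),
      (.ofNat 0, .negSucc 4, .ofNat 1)) = true := by decide +kernel

set_option maxRecDepth 100000 in
theorem chk1_6 : chk Slit 1156
    ((.ofNat 0, .ofNat 1, .ofNat 6), (.negSucc 0, .ofNat 0, .ofNat 0),
      (.ofNat 0, .negSucc 5, .ofNat 1)) = true := by decide +kernel

set_option maxRecDepth 100000 in
theorem chk1_7 : chk Slit 1156
    ((.ofNat 0, .ofNat 1, .ofNat 7), (.negSucc 0, .ofNat 0, .ofNat 0),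
      (.ofNat 0, .negSucc 6, .ofNat 1)) = true := by decide +kernel

set_option maxRecDepth 100000 in
theorem chk1_8 : chk Slit 1156
    ((.ofNat 0, .ofNat 1, .ofNat 8), (.negSucc 0, .ofNat 0, .ofNat 0),
      (.ofNat 0, .negSucc 7, .ofNat 1)) = true := by decide +kernel

set_option maxRecDepth 100000 in
theorem chk1_9 : chk Slit 1156
    ((.ofNat 0, .ofNat 2, .ofNat 3), (.negSucc 0, .ofNat 0, .ofNat 0),
      (.ofNat 0, .negSucc 2, .ofNat 2)) = true := by decide +kernel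

set_option maxRecDepth 100000 in
theorem chk1_10 : chk Slit 1156
    ((.ofNat 0, .ofNat 2, .ofNat 5), (.negSucc 0, .ofNat 0, .ofNat 0),
      (.ofNat 0, .negSucc 4, .ofNat 2)) = true := by decide +kernel

set_option maxRecDepth 100000 in
theorem chk1_11 : chk Slit 1156
    ((.ofNat 0, .ofNat 2, .ofNat 7), (.negSucc 0, .ofNat 0, .ofNat 0),
      (.ofNat 0, .negSucc 6, .ofNat 2)) = true := by decide +kernel

set_option maxRecDepth 100000 in
theorem chk1_12 : chk Slit 1156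
    ((.ofNat 0, .ofNat 3, .ofNat 4), (.negSucc 0, .ofNat 0, .ofNat 0),
      (.ofNat 0, .negSucc 3, .ofNat 3)) = true := by decide +kernel

set_option maxRecDepth 100000 in
theorem chk1_13 : chk Slit 1156
    ((.ofNat 0, .ofNat 3, .ofNat 5), (.negSucc 0, .ofNat 0, .ofNat 0),
      (.ofNat 0, .negSucc 4, .ofNat 3)) = true := by decide +kernel

set_option maxRecDepth 100000 in
theorem chk1_14 : chk Slit 1156
    ((.ofNat 0, .ofNat 3, .ofNat 7), (.negSucc 0, .ofNat 0, .ofNat 0),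
      (.ofNat 0, .negSucc 6, .ofNat 3)) = true := by decide +kernel

set_option maxRecDepth 100000 in
theorem chk1_15 : chk Slit 1156
    ((.ofNat 0, .ofNat 3, .ofNat 8), (.negSucc 0, .ofNat 0, .ofNat 0),
      (.ofNat 0, .negSucc 7, .ofNat 3)) = true := by decide +kernel

set_option maxRecDepth 100000 in
theorem chk1_16 : chk Slit 1156
    ((.ofNat 0, .ofNat 4, .ofNat 5), (.negSucc 0, .ofNat 0, .ofNat 0),
      (.ofNat 0, .negSucc 4, .ofNat 4)) = true := by decide +kernel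

set_option maxRecDepth 100000 in
theorem chk1_17 : chk Slit 1156
    ((.ofNat 0, .ofNat 4, .ofNat 7), (.negSucc 0, .ofNat 0, .ofNat 0),
      (.ofNat 0, .negSucc 6, .ofNat 4)) = true := by decide +kernel

set_option maxRecDepth 100000 in
theorem chk1_18 : chk Slit 1156
    ((.ofNat 0, .ofNat 5, .ofNat 6), (.negSucc 0, .ofNat 0, .ofNat 0),
      (.ofNat 0, .negSucc 5, .ofNat 5)) = true := by decide +kernel

theorem tbl1_chk : ∀ t ∈ tbl1, chk Slit 1156 t = true := by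
  unfold tbl1
  simp only [List.forall_mem_cons]
  exact ⟨chk1_0, chk1_1, chk1_2, chk1_3, chk1_4, chk1_5, chk1_6, chk1_7, chk1_8, chk1_9, chk1_10, chk1_11, chk1_12, chk1_13, chk1_14, chk1_15, chk1_16, chk1_17, chk1_18, by simp⟩

end Pool.Agent.DiracAdd
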