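import Pool.Agent.DiracAdd.Data

set_option autoImplicit false

namespace Pool.Agent.DiracAdd

/-- representatives with bases of their orthogonal lattices, part 2 -/
def tbl2 : List (V × V × V) := [
  ((.ofNat 0, .ofNat 5, .ofNat 7), (.negSucc 0, .ofNat 0, .ofNat 0),
    (.ofNat 0, .negSucc 6, .ofNat 5)),
  ((.ofNat 1, .ofNat 1, .ofNat 1), (.negSucc 0, .ofNat 0, .ofNat 1),
    (.negSucc 0, .ofNat 1, .ofNat 0)),
  ((.ofNat 1, .ofNat 1, .ofNat 2), (.negSucc 0, .ofNat 1, .ofNat 0),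
    (.negSucc 0, .negSucc 0, .ofNat 1)),
  ((.ofNat 1, .ofNat 1, .ofNat 3), (.negSucc 0, .ofNat 1, .ofNat 0),
    (.negSucc 1, .negSucc 0, .ofNat 1)),
  ((.ofNat 1, .ofNat 1, .ofNat 4), (.negSucc 0, .ofNat 1, .ofNat 0),
    (.negSucc 1, .negSucc 1, .ofNat 1)),
  ((.ofNat 1, .ofNat 1, .ofNat 5), (.negSucc 0, .ofNat 1, .ofNat 0),
    (.negSucc 2, .negSucc 1, .ofNat 1)),
  ((.ofNat 1, .ofNat 1, .ofNat 6), (.negSucc 0, .ofNat 1, .ofNat 0),
    (.negSucc 2, .negSucc 2, .ofNat 1)),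
  ((.ofNat 1, .ofNat 1, .ofNat 7), (.negSucc 0, .ofNat 1, .ofNat 0),
    (.negSucc 3, .negSucc 2, .ofNat 1)),
  ((.ofNat 1, .ofNat 1, .ofNat 8), (.negSucc 0, .ofNat 1, .ofNat 0),
    (.negSucc 3, .negSucc 3, .ofNat 1)),
  ((.ofNat 1, .ofNat 1, .ofNat 9), (.negSucc 0, .ofNat 1, .ofNat 0),
    (.negSucc 4, .negSucc 3, .ofNat 1)),
  ((.ofNat 1, .ofNat 1, .ofNat 11), (.negSucc 0, .ofNat 1, .ofNat 0),
    (.negSucc 5, .negSucc 4, .ofNat 1)),
  ((.ofNat 1, .ofNat 1, .ofNat 13), (.negSucc 0, .ofNat 1, .ofNat 0),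
    (.negSucc 6, .negSucc 5, .ofNat 1)),
  ((.ofNat 1, .ofNat 1, .ofNat 15), (.negSucc 0, .ofNat 1, .ofNat 0),
    (.negSucc 7, .negSucc 6, .ofNat 1)),
  ((.ofNat 1, .ofNat 1, .ofNat 17), (.negSucc 0, .ofNat 1, .ofNat 0),
    (.negSucc 8, .negSucc 7, .ofNat 1)),
  ((.ofNat 1, .ofNat 2, .ofNat 2), (.ofNat 0, .negSucc 0, .ofNat 1),
    (.negSucc 1, .ofNat 0, .ofNat 1)),
  ((.ofNat 1, .ofNat 2, .ofNat 3), (.negSucc 0, .negSucc 0, .ofNat 1),
    (.negSucc 1, .ofNat 1, .ofNat 0)),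
  ((.ofNat 1, .ofNat 2, .ofNat 4), (.negSucc 1, .ofNat 1, .ofNat 0),
    (.ofNat 0, .negSucc 1, .ofNat 1)),
  ((.ofNat 1, .ofNat 2, .ofNat 5), (.negSucc 1, .ofNat 1, .ofNat 0),
    (.negSucc 0, .negSucc 1, .ofNat 1)),
  ((.ofNat 1, .ofNat 2, .ofNat 6), (.negSucc 1, .ofNat 1, .ofNat 0),
    (.negSucc 1, .negSucc 1, .ofNat 1))]

set_option maxRecDepth 100000 in
theorem chk2_0 : chk Slit 1156
    ((.ofNat 0, .ofNat 5, .ofNat 7), (.negSucc 0, .ofNat 0, .ofNat 0),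
      (.ofNat 0, .negSucc 6, .ofNat 5)) = true := by decide +kernel

set_option maxRecDepth 100000 in
theorem chk2_1 : chk Slit 1156
    ((.ofNat 1, .ofNat 1, .ofNat 1), (.negSucc 0, .ofNat 0, .ofNat 1),
      (.negSucc 0, .ofNat 1, .ofNat 0)) = true := by decide +kernel

set_option maxRecDepth 100000 in
theorem chk2_2 : chk Slit 1156
    ((.ofNat 1, .ofNat 1, .ofNat 2), (.negSucc 0, .ofNat 1, .ofNat 0),
      (.negSucc 0, .negSucc 0, .ofNat 1)) = true := by decide +kernel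

set_option maxRecDepth 100000 in
theorem chk2_3 : chk Slit 1156
    ((.ofNat 1, .ofNat 1, .ofNat 3), (.negSucc 0, .ofNat 1, .ofNat 0),
      (.negSucc 1, .negSucc 0, .ofNat 1)) = true := by decide +kernel

set_option maxRecDepth 100000 in
theorem chk2_4 : chk Slit 1156
    ((.ofNat 1, .ofNat 1, .ofNat 4), (.negSucc 0, .ofNat 1, .ofNat 0),
      (.negSucc 1, .negSucc 1, .ofNat 1)) = true := by decide +kernel

set_option maxRecDepth 100000 in
theorem chk2_5 : chk Slit 1156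
    ((.ofNat 1, .ofNat 1, .ofNat 5), (.negSucc 0, .ofNat 1, .ofNat 0),
      (.negSucc 2, .negSucc 1, .ofNat 1)) = true := by decide +kernel

set_option maxRecDepth 100000 in
theorem chk2_6 : chk Slit 1156
    ((.ofNat 1, .ofNat 1, .ofNat 6), (.negSucc 0, .ofNat 1, .ofNat 0),
      (.negSucc 2, .negSucc 2, .ofNat 1)) = true := by decide +kernel

set_option maxRecDepth 100000 in
theorem chk2_7 : chk Slit 1156
    ((.ofNat 1, .ofNat 1, .ofNat 7), (.negSucc 0, .ofNat 1, .ofNat 0),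
      (.negSucc 3, .negSucc 2, .ofNat 1)) = true := by decide +kernel

set_option maxRecDepth 100000 in
theorem chk2_8 : chk Slit 1156
    ((.ofNat 1, .ofNat 1, .ofNat 8), (.negSucc 0, .ofNat 1, .ofNat 0),
      (.negSucc 3, .negSucc 3, .ofNat 1)) = true := by decide +kernel

set_option maxRecDepth 100000 in
theorem chk2_9 : chk Slit 1156
    ((.ofNat 1, .ofNat 1, .ofNat 9), (.negSucc 0, .ofNat 1, .ofNat 0),
      (.negSucc 4, .negSucc 3, .ofNat 1)) = true := by decide +kernel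

set_option maxRecDepth 100000 in
theorem chk2_10 : chk Slit 1156
    ((.ofNat 1, .ofNat 1, .ofNat 11), (.negSucc 0, .ofNat 1, .ofNat 0),
      (.negSucc 5, .negSucc 4, .ofNat 1)) = true := by decide +kernel

set_option maxRecDepth 100000 in
theorem chk2_11 : chk Slit 1156
    ((.ofNat 1, .ofNat 1, .ofNat 13), (.negSucc 0, .ofNat 1, .ofNat 0),
      (.negSucc 6, .negSucc 5, .ofNat 1)) = true := by decide +kernel

set_option maxRecDepth 100000 in
theorem chk2_12 : chk Slit 1156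
    ((.ofNat 1, .ofNat 1, .ofNat 15), (.negSucc 0, .ofNat 1, .ofNat 0),
      (.negSucc 7, .negSucc 6, .ofNat 1)) = true := by decide +kernel

set_option maxRecDepth 100000 in
theorem chk2_13 : chk Slit 1156
    ((.ofNat 1, .ofNat 1, .ofNat 17), (.negSucc 0, .ofNat 1, .ofNat 0),
      (.negSucc 8, .negSucc 7, .ofNat 1)) = true := by decide +kernel

set_option maxRecDepth 100000 in
theorem chk2_14 : chk Slit 1156
    ((.ofNat 1, .ofNat 2, .ofNat 2), (.ofNat 0, .negSucc 0, .ofNat 1),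
      (.negSucc 1, .ofNat 0, .ofNat 1)) = true := by decide +kernel

set_option maxRecDepth 100000 in
theorem chk2_15 : chk Slit 1156
    ((.ofNat 1, .ofNat 2, .ofNat 3), (.negSucc 0, .negSucc 0, .ofNat 1),
      (.negSucc 1, .ofNat 1, .ofNat 0)) = true := by decide +kernel

set_option maxRecDepth 100000 in
theorem chk2_16 : chk Slit 1156
    ((.ofNat 1, .ofNat 2, .ofNat 4), (.negSucc 1, .ofNat 1, .ofNat 0),
      (.ofNat 0, .negSucc 1, .ofNat 1)) = true := by decide +kernel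

set_option maxRecDepth 100000 in
theorem chk2_17 : chk Slit 1156
    ((.ofNat 1, .ofNat 2, .ofNat 5), (.negSucc 1, .ofNat 1, .ofNat 0),
      (.negSucc 0, .negSucc 1, .ofNat 1)) = true := by decide +kernel

set_option maxRecDepth 100000 in
theorem chk2_18 : chk Slit 1156
    ((.ofNat 1, .ofNat 2, .ofNat 6), (.negSucc 1, .ofNat 1, .ofNat 0),
      (.negSucc 1, .negSucc 1, .ofNat 1)) = true := by decide +kernel

theorem tbl2_chk : ∀ t ∈ tbl2, chk Slit 1156 t = true := by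
  unfold tbl2
  simp only [List.forall_mem_cons]
  exact ⟨chk2_0, chk2_1, chk2_2, chk2_3, chk2_4, chk2_5, chk2_6, chk2_7, chk2_8, chk2_9, chk2_10, chk2_11, chk2_12, chk2_13, chk2_14, chk2_15, chk2_16, chk2_17, chk2_18, by simp⟩

end Pool.Agent.DiracAdd
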