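import Pool.Agent.DiracAdd.Data

set_option autoImplicit false

namespace Pool.Agent.DiracAdd

/-- representatives with bases of their orthogonal lattices, part 3 -/
def tbl3 : List (V × V × V) := [
  ((.ofNat 1, .ofNat 2, .ofNat 7), (.negSucc 1, .ofNat 1, .ofNat 0),
    (.negSucc 0, .negSucc 2, .ofNat 1)),
  ((.ofNat 1, .ofNat 2, .ofNat 8), (.negSucc 1, .ofNat 1, .ofNat 0),
    (.negSucc 1, .negSucc 2, .ofNat 1)),
  ((.ofNat 1, .ofNat 3, .ofNat 3), (.ofNat 0, .negSucc 0, .ofNat 1),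
    (.negSucc 2, .ofNat 0, .ofNat 1)),
  ((.ofNat 1, .ofNat 3, .ofNat 4), (.negSucc 0, .negSucc 0, .ofNat 1),
    (.negSucc 1, .ofNat 2, .negSucc 0)),
  ((.ofNat 1, .ofNat 3, .ofNat 5), (.negSucc 1, .negSucc 0, .ofNat 1),
    (.negSucc 0, .ofNat 2, .negSucc 0)),
  ((.ofNat 1, .ofNat 3, .ofNat 6), (.ofNat 0, .negSucc 1, .ofNat 1),
    (.negSucc 2, .ofNat 1, .ofNat 0)),
  ((.ofNat 1, .ofNat 3, .ofNat 7), (.negSucc 0, .negSucc 1, .ofNat 1),
    (.negSucc 2, .ofNat 1, .ofNat 0)),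
  ((.ofNat 1, .ofNat 3, .ofNat 8), (.negSucc 1, .negSucc 1, .ofNat 1),
    (.negSucc 2, .ofNat 1, .ofNat 0)),
  ((.ofNat 1, .ofNat 3, .ofNat 9), (.negSucc 2, .ofNat 1, .ofNat 0),
    (.ofNat 0, .negSucc 2, .ofNat 1)),
  ((.ofNat 1, .ofNat 3, .ofNat 11), (.negSucc 2, .ofNat 1, .ofNat 0),
    (.negSucc 1, .negSucc 2, .ofNat 1)),
  ((.ofNat 1, .ofNat 3, .ofNat 13), (.negSucc 2, .ofNat 1, .ofNat 0),
    (.negSucc 0, .negSucc 3, .ofNat 1)),
  ((.ofNat 1, .ofNat 3, .ofNat 15), (.negSucc 2, .ofNat 1, .ofNat 0),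
    (.negSucc 2, .negSucc 3, .ofNat 1)),
  ((.ofNat 1, .ofNat 3, .ofNat 17), (.negSucc 2, .ofNat 1, .ofNat 0),
    (.negSucc 1, .negSucc 4, .ofNat 1)),
  ((.ofNat 1, .ofNat 4, .ofNat 4), (.ofNat 0, .negSucc 0, .ofNat 1),
    (.negSucc 3, .ofNat 0, .ofNat 1)),
  ((.ofNat 1, .ofNat 4, .ofNat 5), (.negSucc 0, .negSucc 0, .ofNat 1),
    (.negSucc 2, .ofNat 2, .negSucc 0)),
  ((.ofNat 1, .ofNat 4, .ofNat 6), (.negSucc 1, .negSucc 0, .ofNat 1),
    (.negSucc 1, .ofNat 2, .negSucc 0)),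
  ((.ofNat 1, .ofNat 4, .ofNat 7), (.negSucc 0, .ofNat 2, .negSucc 0),
    (.negSucc 2, .negSucc 0, .ofNat 1)),
  ((.ofNat 1, .ofNat 5, .ofNat 5), (.ofNat 0, .negSucc 0, .ofNat 1),
    (.negSucc 4, .ofNat 0, .ofNat 1)),
  ((.ofNat 1, .ofNat 5, .ofNat 6), (.negSucc 0, .negSucc 0, .ofNat 1),
    (.negSucc 3, .ofNat 2, .negSucc 0))]

set_option maxRecDepth 100000 in
theorem chk3_0 : chk Slit 1156
    ((.ofNat 1, .ofNat 2, .ofNat 7), (.negSucc 1, .ofNat 1, .ofNat 0),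
      (.negSucc 0, .negSucc 2, .ofNat 1)) = true := by decide +kernel

set_option maxRecDepth 100000 in
theorem chk3_1 : chk Slit 1156
    ((.ofNat 1, .ofNat 2, .ofNat 8), (.negSucc 1, .ofNat 1, .ofNat 0),
      (.negSucc 1, .negSucc 2, .ofNat 1)) = true := by decide +kernel

set_option maxRecDepth 100000 in
theorem chk3_2 : chk Slit 1156
    ((.ofNat 1, .ofNat 3, .ofNat 3), (.ofNat 0, .negSucc 0, .ofNat 1),
      (.negSucc 2, .ofNat 0, .ofNat 1)) = true := by decide +kernel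

set_option maxRecDepth 100000 in
theorem chk3_3 : chk Slit 1156
    ((.ofNat 1, .ofNat 3, .ofNat 4), (.negSucc 0, .negSucc 0, .ofNat 1),
      (.negSucc 1, .ofNat 2, .negSucc 0)) = true := by decide +kernel

set_option maxRecDepth 100000 in
theorem chk3_4 : chk Slit 1156
    ((.ofNat 1, .ofNat 3, .ofNat 5), (.negSucc 1, .negSucc 0, .ofNat 1),
      (.negSucc 0, .ofNat 2, .negSucc 0)) = true := by decide +kernel

set_option maxRecDepth 100000 in
theorem chk3_5 : chk Slit 1156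
    ((.ofNat 1, .ofNat 3, .ofNat 6), (.ofNat 0, .negSucc 1, .ofNat 1),
      (.negSucc 2, .ofNat 1, .ofNat 0)) = true := by decide +kernel

set_option maxRecDepth 100000 in
theorem chk3_6 : chk Slit 1156
    ((.ofNat 1, .ofNat 3, .ofNat 7), (.negSucc 0, .negSucc 1, .ofNat 1),
      (.negSucc 2, .ofNat 1, .ofNat 0)) = true := by decide +kernel

set_option maxRecDepth 100000 in
theorem chk3_7 : chk Slit 1156
    ((.ofNat 1, .ofNat 3, .ofNat 8), (.negSucc 1, .negSucc 1, .ofNat 1),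
      (.negSucc 2, .ofNat 1, .ofNat 0)) = true := by decide +kernel

set_option maxRecDepth 100000 in
theorem chk3_8 : chk Slit 1156
    ((.ofNat 1, .ofNat 3, .ofNat 9), (.negSucc 2, .ofNat 1, .ofNat 0),
      (.ofNat 0, .negSucc 2, .ofNat 1)) = true := by decide +kernel

set_option maxRecDepth 100000 in
theorem chk3_9 : chk Slit 1156
    ((.ofNat 1, .ofNat 3, .ofNat 11), (.negSucc 2, .ofNat 1, .ofNat 0),
      (.negSucc 1, .negSucc 2, .ofNat 1)) = true := by decide +kernel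

set_option maxRecDepth 100000 in
theorem chk3_10 : chk Slit 1156
    ((.ofNat 1, .ofNat 3, .ofNat 13), (.negSucc 2, .ofNat 1, .ofNat 0),
      (.negSucc 0, .negSucc 3, .ofNat 1)) = true := by decide +kernel

set_option maxRecDepth 100000 in
theorem chk3_11 : chk Slit 1156
    ((.ofNat 1, .ofNat 3, .ofNat 15), (.negSucc 2, .ofNat 1, .ofNat 0),
      (.negSucc 2, .negSucc 3, .ofNat 1)) = true := by decide +kernel

set_option maxRecDepth 100000 in
theorem chk3_12 : chk Slit 1156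
    ((.ofNat 1, .ofNat 3, .ofNat 17), (.negSucc 2, .ofNat 1, .ofNat 0),
      (.negSucc 1, .negSucc 4, .ofNat 1)) = true := by decide +kernel

set_option maxRecDepth 100000 in
theorem chk3_13 : chk Slit 1156
    ((.ofNat 1, .ofNat 4, .ofNat 4), (.ofNat 0, .negSucc 0, .ofNat 1),
      (.negSucc 3, .ofNat 0, .ofNat 1)) = true := by decide +kernel

set_option maxRecDepth 100000 in
theorem chk3_14 : chk Slit 1156
    ((.ofNat 1, .ofNat 4, .ofNat 5), (.negSucc 0, .negSucc 0, .ofNat 1),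
      (.negSucc 2, .ofNat 2, .negSucc 0)) = true := by decide +kernel

set_option maxRecDepth 100000 in
theorem chk3_15 : chk Slit 1156
    ((.ofNat 1, .ofNat 4, .ofNat 6), (.negSucc 1, .negSucc 0, .ofNat 1),
      (.negSucc 1, .ofNat 2, .negSucc 0)) = true := by decide +kernel

set_option maxRecDepth 100000 in
theorem chk3_16 : chk Slit 1156
    ((.ofNat 1, .ofNat 4, .ofNat 7), (.negSucc 0, .ofNat 2, .negSucc 0),
      (.negSucc 2, .negSucc 0, .ofNat 1)) = true := by decide +kernel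

set_option maxRecDepth 100000 in
theorem chk3_17 : chk Slit 1156
    ((.ofNat 1, .ofNat 5, .ofNat 5), (.ofNat 0, .negSucc 0, .ofNat 1),
      (.negSucc 4, .ofNat 0, .ofNat 1)) = true := by decide +kernel

set_option maxRecDepth 100000 in
theorem chk3_18 : chk Slit 1156
    ((.ofNat 1, .ofNat 5, .ofNat 6), (.negSucc 0, .negSucc 0, .ofNat 1),
      (.negSucc 3, .ofNat 2, .negSucc 0)) = true := by decide +kernel

theorem tbl3_chk : ∀ t ∈ tbl3, chk Slit 1156 t = true := by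
  unfold tbl3
  simp only [List.forall_mem_cons]
  exact ⟨chk3_0, chk3_1, chk3_2, chk3_3, chk3_4, chk3_5, chk3_6, chk3_7, chk3_8, chk3_9, chk3_10, chk3_11, chk3_12, chk3_13, chk3_14, chk3_15, chk3_16, chk3_17, chk3_18, by simp⟩

end Pool.Agent.DiracAdd
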