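import Pool.Agent.DiracAdd.Data

set_option autoImplicit false

namespace Pool.Agent.DiracAdd

/-- representatives with bases of their orthogonal lattices, part 4 -/
def tbl4 : List (V × V × V) := [
  ((.ofNat 1, .ofNat 5, .ofNat 7), (.negSucc 1, .negSucc 0, .ofNat 1),
    (.negSucc 2, .ofNat 2, .negSucc 0)),
  ((.ofNat 1, .ofNat 5, .ofNat 9), (.negSucc 0, .ofNat 2, .negSucc 0),
    (.negSucc 3, .negSucc 0, .ofNat 1)),
  ((.ofNat 1, .ofNat 5, .ofNat 11), (.negSucc 0, .negSucc 1, .ofNat 1),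
    (.negSucc 4, .ofNat 1, .ofNat 0)),
  ((.ofNat 1, .ofNat 5, .ofNat 13), (.negSucc 2, .negSucc 1, .ofNat 1),
    (.negSucc 1, .ofNat 3, .negSucc 0)),
  ((.ofNat 1, .ofNat 5, .ofNat 15), (.ofNat 0, .negSucc 2, .ofNat 1),
    (.negSucc 4, .ofNat 1, .ofNat 0)),
  ((.ofNat 1, .ofNat 6, .ofNat 6), (.ofNat 0, .negSucc 0, .ofNat 1),
    (.negSucc 5, .ofNat 0, .ofNat 1)),
  ((.ofNat 1, .ofNat 7, .ofNat 7), (.ofNat 0, .negSucc 0, .ofNat 1),
    (.negSucc 6, .ofNat 0, .ofNat 1)),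
  ((.ofNat 1, .ofNat 7, .ofNat 9), (.negSucc 1, .negSucc 0, .ofNat 1),
    (.negSucc 2, .ofNat 3, .negSucc 1)),
  ((.ofNat 1, .ofNat 7, .ofNat 11), (.negSucc 2, .ofNat 2, .negSucc 0),
    (.negSucc 0, .negSucc 2, .ofNat 2)),
  ((.ofNat 1, .ofNat 7, .ofNat 13), (.negSucc 0, .ofNat 2, .negSucc 0),
    (.negSucc 5, .negSucc 0, .ofNat 1)),
  ((.ofNat 1, .ofNat 7, .ofNat 15), (.negSucc 0, .negSucc 1, .ofNat 1),
    (.negSucc 5, .ofNat 3, .negSucc 0)),
  ((.ofNat 1, .ofNat 9, .ofNat 9), (.ofNat 0, .negSucc 0, .ofNat 1),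
    (.negSucc 8, .ofNat 0, .ofNat 1)),
  ((.ofNat 1, .ofNat 9, .ofNat 11), (.negSucc 1, .negSucc 0, .ofNat 1),
    (.negSucc 2, .ofNat 4, .negSucc 2)),
  ((.ofNat 1, .ofNat 9, .ofNat 13), (.negSucc 0, .ofNat 3, .negSucc 1),
    (.negSucc 3, .negSucc 0, .ofNat 1)),
  ((.ofNat 1, .ofNat 11, .ofNat 11), (.ofNat 0, .negSucc 0, .ofNat 1),
    (.negSucc 10, .ofNat 0, .ofNat 1)),
  ((.ofNat 1, .ofNat 11, .ofNat 13), (.negSucc 1, .negSucc 0, .ofNat 1),
    (.negSucc 4, .ofNat 4, .negSucc 2)),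
  ((.ofNat 2, .ofNat 2, .ofNat 3), (.negSucc 0, .ofNat 1, .ofNat 0),
    (.negSucc 1, .negSucc 0, .ofNat 2)),
  ((.ofNat 2, .ofNat 2, .ofNat 5), (.negSucc 0, .ofNat 1, .ofNat 0),
    (.negSucc 2, .negSucc 1, .ofNat 2)),
  ((.ofNat 2, .ofNat 2, .ofNat 7), (.negSucc 0, .ofNat 1, .ofNat 0),
    (.negSucc 3, .negSucc 2, .ofNat 2))]

set_option maxRecDepth 100000 in
theorem chk4_0 : chk Slit 1156
    ((.ofNat 1, .ofNat 5, .ofNat 7), (.negSucc 1, .negSucc 0, .ofNat 1),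
      (.negSucc 2, .ofNat 2, .negSucc 0)) = true := by decide +kernel

set_option maxRecDepth 100000 in
theorem chk4_1 : chk Slit 1156
    ((.ofNat 1, .ofNat 5, .ofNat 9), (.negSucc 0, .ofNat 2, .negSucc 0),
      (.negSucc 3, .negSucc 0, .ofNat 1)) = true := by decide +kernel

set_option maxRecDepth 100000 in
theorem chk4_2 : chk Slit 1156
    ((.ofNat 1, .ofNat 5, .ofNat 11), (.negSucc 0, .negSucc 1, .ofNat 1),
      (.negSucc 4, .ofNat 1, .ofNat 0)) = true := by decide +kernel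

set_option maxRecDepth 100000 in
theorem chk4_3 : chk Slit 1156
    ((.ofNat 1, .ofNat 5, .ofNat 13), (.negSucc 2, .negSucc 1, .ofNat 1),
      (.negSucc 1, .ofNat 3, .negSucc 0)) = true := by decide +kernel

set_option maxRecDepth 100000 in
theorem chk4_4 : chk Slit 1156
    ((.ofNat 1, .ofNat 5, .ofNat 15), (.ofNat 0, .negSucc 2, .ofNat 1),
      (.negSucc 4, .ofNat 1, .ofNat 0)) = true := by decide +kernel

set_option maxRecDepth 100000 in
theorem chk4_5 : chk Slit 1156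
    ((.ofNat 1, .ofNat 6, .ofNat 6), (.ofNat 0, .negSucc 0, .ofNat 1),
      (.negSucc 5, .ofNat 0, .ofNat 1)) = true := by decide +kernel

set_option maxRecDepth 100000 in
theorem chk4_6 : chk Slit 1156
    ((.ofNat 1, .ofNat 7, .ofNat 7), (.ofNat 0, .negSucc 0, .ofNat 1),
      (.negSucc 6, .ofNat 0, .ofNat 1)) = true := by decide +kernel

set_option maxRecDepth 100000 in
theorem chk4_7 : chk Slit 1156
    ((.ofNat 1, .ofNat 7, .ofNat 9), (.negSucc 1, .negSucc 0, .ofNat 1),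
      (.negSucc 2, .ofNat 3, .negSucc 1)) = true := by decide +kernel

set_option maxRecDepth 100000 in
theorem chk4_8 : chk Slit 1156
    ((.ofNat 1, .ofNat 7, .ofNat 11), (.negSucc 2, .ofNat 2, .negSucc 0),
      (.negSucc 0, .negSucc 2, .ofNat 2)) = true := by decide +kernel

set_option maxRecDepth 100000 in
theorem chk4_9 : chk Slit 1156
    ((.ofNat 1, .ofNat 7, .ofNat 13), (.negSucc 0, .ofNat 2, .negSucc 0),
      (.negSucc 5, .negSucc 0, .ofNat 1)) = true := by decide +kernel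

set_option maxRecDepth 100000 in
theorem chk4_10 : chk Slit 1156
    ((.ofNat 1, .ofNat 7, .ofNat 15), (.negSucc 0, .negSucc 1, .ofNat 1),
      (.negSucc 5, .ofNat 3, .negSucc 0)) = true := by decide +kernel

set_option maxRecDepth 100000 in
theorem chk4_11 : chk Slit 1156
    ((.ofNat 1, .ofNat 9, .ofNat 9), (.ofNat 0, .negSucc 0, .ofNat 1),
      (.negSucc 8, .ofNat 0, .ofNat 1)) = true := by decide +kernel

set_option maxRecDepth 100000 in
theorem chk4_12 : chk Slit 1156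
    ((.ofNat 1, .ofNat 9, .ofNat 11), (.negSucc 1, .negSucc 0, .ofNat 1),
      (.negSucc 2, .ofNat 4, .negSucc 2)) = true := by decide +kernel

set_option maxRecDepth 100000 in
theorem chk4_13 : chk Slit 1156
    ((.ofNat 1, .ofNat 9, .ofNat 13), (.negSucc 0, .ofNat 3, .negSucc 1),
      (.negSucc 3, .negSucc 0, .ofNat 1)) = true := by decide +kernel

set_option maxRecDepth 100000 in
theorem chk4_14 : chk Slit 1156
    ((.ofNat 1, .ofNat 11, .ofNat 11), (.ofNat 0, .negSucc 0, .ofNat 1),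
      (.negSucc 10, .ofNat 0, .ofNat 1)) = true := by decide +kernel

set_option maxRecDepth 100000 in
theorem chk4_15 : chk Slit 1156
    ((.ofNat 1, .ofNat 11, .ofNat 13), (.negSucc 1, .negSucc 0, .ofNat 1),
      (.negSucc 4, .ofNat 4, .negSucc 2)) = true := by decide +kernel

set_option maxRecDepth 100000 in
theorem chk4_16 : chk Slit 1156
    ((.ofNat 2, .ofNat 2, .ofNat 3), (.negSucc 0, .ofNat 1, .ofNat 0),
      (.negSucc 1, .negSucc 0, .ofNat 2)) = true := by decide +kernel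

set_option maxRecDepth 100000 in
theorem chk4_17 : chk Slit 1156
    ((.ofNat 2, .ofNat 2, .ofNat 5), (.negSucc 0, .ofNat 1, .ofNat 0),
      (.negSucc 2, .negSucc 1, .ofNat 2)) = true := by decide +kernel

set_option maxRecDepth 100000 in
theorem chk4_18 : chk Slit 1156
    ((.ofNat 2, .ofNat 2, .ofNat 7), (.negSucc 0, .ofNat 1, .ofNat 0),
      (.negSucc 3, .negSucc 2, .ofNat 2)) = true := by decide +kernel

theorem tbl4_chk : ∀ t ∈ tbl4, chk Slit 1156 t = true := by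
  unfold tbl4
  simp only [List.forall_mem_cons]
  exact ⟨chk4_0, chk4_1, chk4_2, chk4_3, chk4_4, chk4_5, chk4_6, chk4_7, chk4_8, chk4_9, chk4_10, chk4_11, chk4_12, chk4_13, chk4_14, chk4_15, chk4_16, chk4_17, chk4_18, by simp⟩

end Pool.Agent.DiracAdd
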