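import Pool.Agent.DiracAdd.Data

set_option autoImplicit false

namespace Pool.Agent.DiracAdd

/-- representatives with bases of their orthogonal lattices, part 5 -/
def tbl5 : List (V × V × V) := [
  ((.ofNat 2, .ofNat 3, .ofNat 3), (.ofNat 0, .negSucc 0, .ofNat 1),
    (.negSucc 2, .ofNat 1, .ofNat 1)),
  ((.ofNat 2, .ofNat 3, .ofNat 4), (.negSucc 1, .ofNat 0, .ofNat 1),
    (.negSucc 0, .ofNat 2, .negSucc 0)),
  ((.ofNat 2, .ofNat 3, .ofNat 5), (.negSucc 0, .negSucc 0, .ofNat 1),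
    (.negSucc 2, .ofNat 2, .ofNat 0)),
  ((.ofNat 2, .ofNat 3, .ofNat 6), (.ofNat 0, .negSucc 1, .ofNat 1),
    (.negSucc 2, .ofNat 0, .ofNat 1)),
  ((.ofNat 2, .ofNat 3, .ofNat 7), (.negSucc 1, .negSucc 0, .ofNat 1),
    (.negSucc 0, .ofNat 3, .negSucc 0)),
  ((.ofNat 2, .ofNat 4, .ofNat 5), (.negSucc 1, .ofNat 1, .ofNat 0),
    (.negSucc 0, .negSucc 1, .ofNat 2)),
  ((.ofNat 2, .ofNat 4, .ofNat 7), (.negSucc 1, .ofNat 1, .ofNat 0),
    (.negSucc 0, .negSucc 2, .ofNat 2)),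
  ((.ofNat 2, .ofNat 5, .ofNat 5), (.ofNat 0, .negSucc 0, .ofNat 1),
    (.negSucc 4, .ofNat 1, .ofNat 1)),
  ((.ofNat 2, .ofNat 5, .ofNat 6), (.negSucc 1, .ofNat 2, .negSucc 0),
    (.negSucc 0, .negSucc 1, .ofNat 2)),
  ((.ofNat 3, .ofNat 3, .ofNat 4), (.negSucc 0, .ofNat 1, .ofNat 0),
    (.negSucc 1, .negSucc 1, .ofNat 3)),
  ((.ofNat 3, .ofNat 3, .ofNat 5), (.negSucc 0, .ofNat 1, .ofNat 0),
    (.negSucc 2, .negSucc 1, .ofNat 3)),
  ((.ofNat 3, .ofNat 3, .ofNat 7), (.negSucc 0, .ofNat 1, .ofNat 0),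
    (.negSucc 3, .negSucc 2, .ofNat 3)),
  ((.ofNat 3, .ofNat 3, .ofNat 11), (.negSucc 0, .ofNat 1, .ofNat 0),
    (.negSucc 5, .negSucc 4, .ofNat 3)),
  ((.ofNat 3, .ofNat 3, .ofNat 13), (.negSucc 0, .ofNat 1, .ofNat 0),
    (.negSucc 6, .negSucc 5, .ofNat 3)),
  ((.ofNat 3, .ofNat 4, .ofNat 4), (.ofNat 0, .negSucc 0, .ofNat 1),
    (.negSucc 3, .ofNat 1, .ofNat 2)),
  ((.ofNat 3, .ofNat 4, .ofNat 5), (.negSucc 0, .ofNat 2, .negSucc 0),
    (.negSucc 1, .negSucc 0, .ofNat 2)),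
  ((.ofNat 3, .ofNat 4, .ofNat 6), (.negSucc 1, .ofNat 0, .ofNat 1),
    (.ofNat 0, .negSucc 2, .ofNat 2)),
  ((.ofNat 3, .ofNat 4, .ofNat 7), (.negSucc 0, .negSucc 0, .ofNat 1),
    (.negSucc 3, .ofNat 3, .ofNat 0)),
  ((.ofNat 3, .ofNat 5, .ofNat 5), (.ofNat 0, .negSucc 0, .ofNat 1),
    (.negSucc 4, .ofNat 1, .ofNat 2))]

set_option maxRecDepth 100000 in
theorem chk5_0 : chk Slit 1156
    ((.ofNat 2, .ofNat 3, .ofNat 3), (.ofNat 0, .negSucc 0, .ofNat 1),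
      (.negSucc 2, .ofNat 1, .ofNat 1)) = true := by decide +kernel

set_option maxRecDepth 100000 in
theorem chk5_1 : chk Slit 1156
    ((.ofNat 2, .ofNat 3, .ofNat 4), (.negSucc 1, .ofNat 0, .ofNat 1),
      (.negSucc 0, .ofNat 2, .negSucc 0)) = true := by decide +kernel

set_option maxRecDepth 100000 in
theorem chk5_2 : chk Slit 1156
    ((.ofNat 2, .ofNat 3, .ofNat 5), (.negSucc 0, .negSucc 0, .ofNat 1),
      (.negSucc 2, .ofNat 2, .ofNat 0)) = true := by decide +kernel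

set_option maxRecDepth 100000 in
theorem chk5_3 : chk Slit 1156
    ((.ofNat 2, .ofNat 3, .ofNat 6), (.ofNat 0, .negSucc 1, .ofNat 1),
      (.negSucc 2, .ofNat 0, .ofNat 1)) = true := by decide +kernel

set_option maxRecDepth 100000 in
theorem chk5_4 : chk Slit 1156
    ((.ofNat 2, .ofNat 3, .ofNat 7), (.negSucc 1, .negSucc 0, .ofNat 1),
      (.negSucc 0, .ofNat 3, .negSucc 0)) = true := by decide +kernel

set_option maxRecDepth 100000 in
theorem chk5_5 : chk Slit 1156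
    ((.ofNat 2, .ofNat 4, .ofNat 5), (.negSucc 1, .ofNat 1, .ofNat 0),
      (.negSucc 0, .negSucc 1, .ofNat 2)) = true := by decide +kernel

set_option maxRecDepth 100000 in
theorem chk5_6 : chk Slit 1156
    ((.ofNat 2, .ofNat 4, .ofNat 7), (.negSucc 1, .ofNat 1, .ofNat 0),
      (.negSucc 0, .negSucc 2, .ofNat 2)) = true := by decide +kernel

set_option maxRecDepth 100000 in
theorem chk5_7 : chk Slit 1156
    ((.ofNat 2, .ofNat 5, .ofNat 5), (.ofNat 0, .negSucc 0, .ofNat 1),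
      (.negSucc 4, .ofNat 1, .ofNat 1)) = true := by decide +kernel

set_option maxRecDepth 100000 in
theorem chk5_8 : chk Slit 1156
    ((.ofNat 2, .ofNat 5, .ofNat 6), (.negSucc 1, .ofNat 2, .negSucc 0),
      (.negSucc 0, .negSucc 1, .ofNat 2)) = true := by decide +kernel

set_option maxRecDepth 100000 in
theorem chk5_9 : chk Slit 1156
    ((.ofNat 3, .ofNat 3, .ofNat 4), (.negSucc 0, .ofNat 1, .ofNat 0),
      (.negSucc 1, .negSucc 1, .ofNat 3)) = true := by decide +kernel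

set_option maxRecDepth 100000 in
theorem chk5_10 : chk Slit 1156
    ((.ofNat 3, .ofNat 3, .ofNat 5), (.negSucc 0, .ofNat 1, .ofNat 0),
      (.negSucc 2, .negSucc 1, .ofNat 3)) = true := by decide +kernel

set_option maxRecDepth 100000 in
theorem chk5_11 : chk Slit 1156
    ((.ofNat 3, .ofNat 3, .ofNat 7), (.negSucc 0, .ofNat 1, .ofNat 0),
      (.negSucc 3, .negSucc 2, .ofNat 3)) = true := by decide +kernel

set_option maxRecDepth 100000 in
theorem chk5_12 : chk Slit 1156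
    ((.ofNat 3, .ofNat 3, .ofNat 11), (.negSucc 0, .ofNat 1, .ofNat 0),
      (.negSucc 5, .negSucc 4, .ofNat 3)) = true := by decide +kernel

set_option maxRecDepth 100000 in
theorem chk5_13 : chk Slit 1156
    ((.ofNat 3, .ofNat 3, .ofNat 13), (.negSucc 0, .ofNat 1, .ofNat 0),
      (.negSucc 6, .negSucc 5, .ofNat 3)) = true := by decide +kernel

set_option maxRecDepth 100000 in
theorem chk5_14 : chk Slit 1156
    ((.ofNat 3, .ofNat 4, .ofNat 4), (.ofNat 0, .negSucc 0, .ofNat 1),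
      (.negSucc 3, .ofNat 1, .ofNat 2)) = true := by decide +kernel

set_option maxRecDepth 100000 in
theorem chk5_15 : chk Slit 1156
    ((.ofNat 3, .ofNat 4, .ofNat 5), (.negSucc 0, .ofNat 2, .negSucc 0),
      (.negSucc 1, .negSucc 0, .ofNat 2)) = true := by decide +kernel

set_option maxRecDepth 100000 in
theorem chk5_16 : chk Slit 1156
    ((.ofNat 3, .ofNat 4, .ofNat 6), (.negSucc 1, .ofNat 0, .ofNat 1),
      (.ofNat 0, .negSucc 2, .ofNat 2)) = true := by decide +kernel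

set_option maxRecDepth 100000 in
theorem chk5_17 : chk Slit 1156
    ((.ofNat 3, .ofNat 4, .ofNat 7), (.negSucc 0, .negSucc 0, .ofNat 1),
      (.negSucc 3, .ofNat 3, .ofNat 0)) = true := by decide +kernel

set_option maxRecDepth 100000 in
theorem chk5_18 : chk Slit 1156
    ((.ofNat 3, .ofNat 5, .ofNat 5), (.ofNat 0, .negSucc 0, .ofNat 1),
      (.negSucc 4, .ofNat 1, .ofNat 2)) = true := by decide +kernel

theorem tbl5_chk : ∀ t ∈ tbl5, chk Slit 1156 t = true := by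
  unfold tbl5
  simp only [List.forall_mem_cons]
  exact ⟨chk5_0, chk5_1, chk5_2, chk5_3, chk5_4, chk5_5, chk5_6, chk5_7, chk5_8, chk5_9, chk5_10, chk5_11, chk5_12, chk5_13, chk5_14, chk5_15, chk5_16, chk5_17, chk5_18, by simp⟩

end Pool.Agent.DiracAdd
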