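import Pool.Agent.DiracAdd.Data

set_option autoImplicit false

namespace Pool.Agent.DiracAdd

/-- representatives with bases of their orthogonal lattices, part 6 -/
def tbl6 : List (V × V × V) := [
  ((.ofNat 3, .ofNat 5, .ofNat 6), (.negSucc 1, .ofNat 0, .ofNat 1),
    (.negSucc 0, .ofNat 3, .negSucc 1)),
  ((.ofNat 3, .ofNat 5, .ofNat 7), (.negSucc 0, .ofNat 2, .negSucc 0),
    (.negSucc 2, .negSucc 0, .ofNat 2)),
  ((.ofNat 3, .ofNat 5, .ofNat 9), (.negSucc 2, .ofNat 0, .ofNat 1),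
    (.negSucc 1, .ofNat 3, .negSucc 0)),
  ((.ofNat 3, .ofNat 5, .ofNat 11), (.negSucc 1, .negSucc 0, .ofNat 1),
    (.negSucc 2, .ofNat 4, .negSucc 0)),
  ((.ofNat 3, .ofNat 5, .ofNat 13), (.negSucc 0, .negSucc 1, .ofNat 1),
    (.negSucc 4, .ofNat 3, .ofNat 0)),
  ((.ofNat 3, .ofNat 5, .ofNat 15), (.ofNat 0, .negSucc 2, .ofNat 1),
    (.negSucc 4, .ofNat 0, .ofNat 1)),
  ((.ofNat 3, .ofNat 7, .ofNat 7), (.ofNat 0, .negSucc 0, .ofNat 1),
    (.negSucc 6, .ofNat 1, .ofNat 2)),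
  ((.ofNat 3, .ofNat 7, .ofNat 9), (.negSucc 2, .ofNat 0, .ofNat 1),
    (.negSucc 0, .ofNat 3, .negSucc 1)),
  ((.ofNat 3, .ofNat 7, .ofNat 11), (.negSucc 0, .ofNat 2, .negSucc 0),
    (.negSucc 4, .negSucc 0, .ofNat 2)),
  ((.ofNat 3, .ofNat 7, .ofNat 13), (.negSucc 1, .negSucc 0, .ofNat 1),
    (.negSucc 2, .ofNat 5, .negSucc 1)),
  ((.ofNat 3, .ofNat 7, .ofNat 15), (.negSucc 1, .ofNat 3, .negSucc 0),
    (.negSucc 2, .negSucc 2, .ofNat 2)),
  ((.ofNat 3, .ofNat 9, .ofNat 11), (.negSucc 2, .ofNat 1, .ofNat 0),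
    (.negSucc 1, .negSucc 2, .ofNat 3)),
  ((.ofNat 3, .ofNat 9, .ofNat 13), (.negSucc 2, .ofNat 1, .ofNat 0),
    (.negSucc 0, .negSucc 3, .ofNat 3)),
  ((.ofNat 3, .ofNat 11, .ofNat 11), (.ofNat 0, .negSucc 0, .ofNat 1),
    (.negSucc 10, .ofNat 1, .ofNat 2)),
  ((.ofNat 3, .ofNat 11, .ofNat 13), (.negSucc 2, .ofNat 2, .negSucc 0),
    (.negSucc 1, .negSucc 2, .ofNat 3)),
  ((.ofNat 4, .ofNat 4, .ofNat 5), (.negSucc 0, .ofNat 1, .ofNat 0),
    (.negSucc 2, .negSucc 1, .ofNat 4)),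
  ((.ofNat 4, .ofNat 5, .ofNat 5), (.ofNat 0, .negSucc 0, .ofNat 1),
    (.negSucc 4, .ofNat 2, .ofNat 2)),
  ((.ofNat 5, .ofNat 5, .ofNat 7), (.negSucc 0, .ofNat 1, .ofNat 0),
    (.negSucc 3, .negSucc 2, .ofNat 5)),
  ((.ofNat 5, .ofNat 5, .ofNat 9), (.negSucc 0, .ofNat 1, .ofNat 0),
    (.negSucc 4, .negSucc 3, .ofNat 5))]

set_option maxRecDepth 100000 in
theorem chk6_0 : chk Slit 1156
    ((.ofNat 3, .ofNat 5, .ofNat 6), (.negSucc 1, .ofNat 0, .ofNat 1),
      (.negSucc 0, .ofNat 3, .negSucc 1)) = true := by decide +kernel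

set_option maxRecDepth 100000 in
theorem chk6_1 : chk Slit 1156
    ((.ofNat 3, .ofNat 5, .ofNat 7), (.negSucc 0, .ofNat 2, .negSucc 0),
      (.negSucc 2, .negSucc 0, .ofNat 2)) = true := by decide +kernel

set_option maxRecDepth 100000 in
theorem chk6_2 : chk Slit 1156
    ((.ofNat 3, .ofNat 5, .ofNat 9), (.negSucc 2, .ofNat 0, .ofNat 1),
      (.negSucc 1, .ofNat 3, .negSucc 0)) = true := by decide +kernel

set_option maxRecDepth 100000 in
theorem chk6_3 : chk Slit 1156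
    ((.ofNat 3, .ofNat 5, .ofNat 11), (.negSucc 1, .negSucc 0, .ofNat 1),
      (.negSucc 2, .ofNat 4, .negSucc 0)) = true := by decide +kernel

set_option maxRecDepth 100000 in
theorem chk6_4 : chk Slit 1156
    ((.ofNat 3, .ofNat 5, .ofNat 13), (.negSucc 0, .negSucc 1, .ofNat 1),
      (.negSucc 4, .ofNat 3, .ofNat 0)) = true := by decide +kernel

set_option maxRecDepth 100000 in
theorem chk6_5 : chk Slit 1156
    ((.ofNat 3, .ofNat 5, .ofNat 15), (.ofNat 0, .negSucc 2, .ofNat 1),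
      (.negSucc 4, .ofNat 0, .ofNat 1)) = true := by decide +kernel

set_option maxRecDepth 100000 in
theorem chk6_6 : chk Slit 1156
    ((.ofNat 3, .ofNat 7, .ofNat 7), (.ofNat 0, .negSucc 0, .ofNat 1),
      (.negSucc 6, .ofNat 1, .ofNat 2)) = true := by decide +kernel

set_option maxRecDepth 100000 in
theorem chk6_7 : chk Slit 1156
    ((.ofNat 3, .ofNat 7, .ofNat 9), (.negSucc 2, .ofNat 0, .ofNat 1),
      (.negSucc 0, .ofNat 3, .negSucc 1)) = true := by decide +kernel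

set_option maxRecDepth 100000 in
theorem chk6_8 : chk Slit 1156
    ((.ofNat 3, .ofNat 7, .ofNat 11), (.negSucc 0, .ofNat 2, .negSucc 0),
      (.negSucc 4, .negSucc 0, .ofNat 2)) = true := by decide +kernel

set_option maxRecDepth 100000 in
theorem chk6_9 : chk Slit 1156
    ((.ofNat 3, .ofNat 7, .ofNat 13), (.negSucc 1, .negSucc 0, .ofNat 1),
      (.negSucc 2, .ofNat 5, .negSucc 1)) = true := by decide +kernel

set_option maxRecDepth 100000 in
theorem chk6_10 : chk Slit 1156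
    ((.ofNat 3, .ofNat 7, .ofNat 15), (.negSucc 1, .ofNat 3, .negSucc 0),
      (.negSucc 2, .negSucc 2, .ofNat 2)) = true := by decide +kernel

set_option maxRecDepth 100000 in
theorem chk6_11 : chk Slit 1156
    ((.ofNat 3, .ofNat 9, .ofNat 11), (.negSucc 2, .ofNat 1, .ofNat 0),
      (.negSucc 1, .negSucc 2, .ofNat 3)) = true := by decide +kernel

set_option maxRecDepth 100000 in
theorem chk6_12 : chk Slit 1156
    ((.ofNat 3, .ofNat 9, .ofNat 13), (.negSucc 2, .ofNat 1, .ofNat 0),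
      (.negSucc 0, .negSucc 3, .ofNat 3)) = true := by decide +kernel

set_option maxRecDepth 100000 in
theorem chk6_13 : chk Slit 1156
    ((.ofNat 3, .ofNat 11, .ofNat 11), (.ofNat 0, .negSucc 0, .ofNat 1),
      (.negSucc 10, .ofNat 1, .ofNat 2)) = true := by decide +kernel

set_option maxRecDepth 100000 in
theorem chk6_14 : chk Slit 1156
    ((.ofNat 3, .ofNat 11, .ofNat 13), (.negSucc 2, .ofNat 2, .negSucc 0),
      (.negSucc 1, .negSucc 2, .ofNat 3)) = true := by decide +kernel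

set_option maxRecDepth 100000 in
theorem chk6_15 : chk Slit 1156
    ((.ofNat 4, .ofNat 4, .ofNat 5), (.negSucc 0, .ofNat 1, .ofNat 0),
      (.negSucc 2, .negSucc 1, .ofNat 4)) = true := by decide +kernel

set_option maxRecDepth 100000 in
theorem chk6_16 : chk Slit 1156
    ((.ofNat 4, .ofNat 5, .ofNat 5), (.ofNat 0, .negSucc 0, .ofNat 1),
      (.negSucc 4, .ofNat 2, .ofNat 2)) = true := by decide +kernel

set_option maxRecDepth 100000 in
theorem chk6_17 : chk Slit 1156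
    ((.ofNat 5, .ofNat 5, .ofNat 7), (.negSucc 0, .ofNat 1, .ofNat 0),
      (.negSucc 3, .negSucc 2, .ofNat 5)) = true := by decide +kernel

set_option maxRecDepth 100000 in
theorem chk6_18 : chk Slit 1156
    ((.ofNat 5, .ofNat 5, .ofNat 9), (.negSucc 0, .ofNat 1, .ofNat 0),
      (.negSucc 4, .negSucc 3, .ofNat 5)) = true := by decide +kernel

theorem tbl6_chk : ∀ t ∈ tbl6, chk Slit 1156 t = true := by
  unfold tbl6
  simp only [List.forall_mem_cons]
  exact ⟨chk6_0, chk6_1, chk6_2, chk6_3, chk6_4, chk6_5, chk6_6, chk6_7, chk6_8, chk6_9, chk6_10, chk6_11, chk6_12, chk6_13, chk6_14, chk6_15, chk6_16, chk6_17, chk6_18, by simp⟩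

end Pool.Agent.DiracAdd
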