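import Pool.Agent.DiracAdd.Data

set_option autoImplicit false

namespace Pool.Agent.DiracAdd

/-- representatives with bases of their orthogonal lattices, part 7 -/
def tbl7 : List (V × V × V) := [
  ((.ofNat 5, .ofNat 5, .ofNat 11), (.negSucc 0, .ofNat 1, .ofNat 0),
    (.negSucc 5, .negSucc 4, .ofNat 5)),
  ((.ofNat 5, .ofNat 5, .ofNat 13), (.negSucc 0, .ofNat 1, .ofNat 0),
    (.negSucc 6, .negSucc 5, .ofNat 5)),
  ((.ofNat 5, .ofNat 7, .ofNat 7), (.ofNat 0, .negSucc 0, .ofNat 1),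
    (.negSucc 6, .ofNat 2, .ofNat 3)),
  ((.ofNat 5, .ofNat 7, .ofNat 9), (.negSucc 0, .ofNat 2, .negSucc 0),
    (.negSucc 3, .negSucc 0, .ofNat 3)),
  ((.ofNat 5, .ofNat 7, .ofNat 11), (.negSucc 2, .negSucc 0, .ofNat 2),
    (.negSucc 1, .ofNat 3, .negSucc 0)),
  ((.ofNat 5, .ofNat 7, .ofNat 13), (.negSucc 0, .negSucc 2, .ofNat 2),
    (.negSucc 3, .ofNat 1, .ofNat 1)),
  ((.ofNat 5, .ofNat 7, .ofNat 15), (.negSucc 2, .ofNat 0, .ofNat 1),
    (.negSucc 0, .ofNat 5, .negSucc 1)),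
  ((.ofNat 5, .ofNat 9, .ofNat 9), (.ofNat 0, .negSucc 0, .ofNat 1),
    (.negSucc 8, .ofNat 2, .ofNat 3)),
  ((.ofNat 5, .ofNat 9, .ofNat 11), (.negSucc 0, .ofNat 3, .negSucc 1),
    (.negSucc 3, .ofNat 1, .ofNat 1)),
  ((.ofNat 5, .ofNat 9, .ofNat 13), (.negSucc 0, .ofNat 2, .negSucc 0),
    (.negSucc 5, .negSucc 0, .ofNat 3)),
  ((.ofNat 5, .ofNat 11, .ofNat 11), (.ofNat 0, .negSucc 0, .ofNat 1),
    (.negSucc 10, .ofNat 2, .ofNat 3)),
  ((.ofNat 7, .ofNat 7, .ofNat 9), (.negSucc 0, .ofNat 1, .ofNat 0),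
    (.negSucc 4, .negSucc 3, .ofNat 7)),
  ((.ofNat 7, .ofNat 7, .ofNat 11), (.negSucc 0, .ofNat 1, .ofNat 0),
    (.negSucc 5, .negSucc 4, .ofNat 7)),
  ((.ofNat 7, .ofNat 7, .ofNat 13), (.negSucc 0, .ofNat 1, .ofNat 0),
    (.negSucc 6, .negSucc 5, .ofNat 7)),
  ((.ofNat 7, .ofNat 9, .ofNat 9), (.ofNat 0, .negSucc 0, .ofNat 1),
    (.negSucc 8, .ofNat 3, .ofNat 4)),
  ((.ofNat 7, .ofNat 9, .ofNat 11), (.negSucc 0, .ofNat 2, .negSucc 0),
    (.negSucc 4, .negSucc 0, .ofNat 4)),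
  ((.ofNat 7, .ofNat 9, .ofNat 13), (.negSucc 1, .ofNat 3, .negSucc 0),
    (.negSucc 2, .negSucc 1, .ofNat 3)),
  ((.ofNat 7, .ofNat 11, .ofNat 11), (.ofNat 0, .negSucc 0, .ofNat 1),
    (.negSucc 10, .ofNat 3, .ofNat 4)),
  ((.ofNat 9, .ofNat 9, .ofNat 11), (.negSucc 0, .ofNat 1, .ofNat 0),
    (.negSucc 5, .negSucc 4, .ofNat 9))]

set_option maxRecDepth 100000 in
theorem chk7_0 : chk Slit 1156
    ((.ofNat 5, .ofNat 5, .ofNat 11), (.negSucc 0, .ofNat 1, .ofNat 0),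
      (.negSucc 5, .negSucc 4, .ofNat 5)) = true := by decide +kernel

set_option maxRecDepth 100000 in
theorem chk7_1 : chk Slit 1156
    ((.ofNat 5, .ofNat 5, .ofNat 13), (.negSucc 0, .ofNat 1, .ofNat 0),
      (.negSucc 6, .negSucc 5, .ofNat 5)) = true := by decide +kernel

set_option maxRecDepth 100000 in
theorem chk7_2 : chk Slit 1156
    ((.ofNat 5, .ofNat 7, .ofNat 7), (.ofNat 0, .negSucc 0, .ofNat 1),
      (.negSucc 6, .ofNat 2, .ofNat 3)) = true := by decide +kernel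

set_option maxRecDepth 100000 in
theorem chk7_3 : chk Slit 1156
    ((.ofNat 5, .ofNat 7, .ofNat 9), (.negSucc 0, .ofNat 2, .negSucc 0),
      (.negSucc 3, .negSucc 0, .ofNat 3)) = true := by decide +kernel

set_option maxRecDepth 100000 in
theorem chk7_4 : chk Slit 1156
    ((.ofNat 5, .ofNat 7, .ofNat 11), (.negSucc 2, .negSucc 0, .ofNat 2),
      (.negSucc 1, .ofNat 3, .negSucc 0)) = true := by decide +kernel

set_option maxRecDepth 100000 in
theorem chk7_5 : chk Slit 1156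
    ((.ofNat 5, .ofNat 7, .ofNat 13), (.negSucc 0, .negSucc 2, .ofNat 2),
      (.negSucc 3, .ofNat 1, .ofNat 1)) = true := by decide +kernel

set_option maxRecDepth 100000 in
theorem chk7_6 : chk Slit 1156
    ((.ofNat 5, .ofNat 7, .ofNat 15), (.negSucc 2, .ofNat 0, .ofNat 1),
      (.negSucc 0, .ofNat 5, .negSucc 1)) = true := by decide +kernel

set_option maxRecDepth 100000 in
theorem chk7_7 : chk Slit 1156
    ((.ofNat 5, .ofNat 9, .ofNat 9), (.ofNat 0, .negSucc 0, .ofNat 1),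
      (.negSucc 8, .ofNat 2, .ofNat 3)) = true := by decide +kernel

set_option maxRecDepth 100000 in
theorem chk7_8 : chk Slit 1156
    ((.ofNat 5, .ofNat 9, .ofNat 11), (.negSucc 0, .ofNat 3, .negSucc 1),
      (.negSucc 3, .ofNat 1, .ofNat 1)) = true := by decide +kernel

set_option maxRecDepth 100000 in
theorem chk7_9 : chk Slit 1156
    ((.ofNat 5, .ofNat 9, .ofNat 13), (.negSucc 0, .ofNat 2, .negSucc 0),
      (.negSucc 5, .negSucc 0, .ofNat 3)) = true := by decide +kernel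

set_option maxRecDepth 100000 in
theorem chk7_10 : chk Slit 1156
    ((.ofNat 5, .ofNat 11, .ofNat 11), (.ofNat 0, .negSucc 0, .ofNat 1),
      (.negSucc 10, .ofNat 2, .ofNat 3)) = true := by decide +kernel

set_option maxRecDepth 100000 in
theorem chk7_11 : chk Slit 1156
    ((.ofNat 7, .ofNat 7, .ofNat 9), (.negSucc 0, .ofNat 1, .ofNat 0),
      (.negSucc 4, .negSucc 3, .ofNat 7)) = true := by decide +kernel

set_option maxRecDepth 100000 in
theorem chk7_12 : chk Slit 1156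
    ((.ofNat 7, .ofNat 7, .ofNat 11), (.negSucc 0, .ofNat 1, .ofNat 0),
      (.negSucc 5, .negSucc 4, .ofNat 7)) = true := by decide +kernel

set_option maxRecDepth 100000 in
theorem chk7_13 : chk Slit 1156
    ((.ofNat 7, .ofNat 7, .ofNat 13), (.negSucc 0, .ofNat 1, .ofNat 0),
      (.negSucc 6, .negSucc 5, .ofNat 7)) = true := by decide +kernel

set_option maxRecDepth 100000 in
theorem chk7_14 : chk Slit 1156
    ((.ofNat 7, .ofNat 9, .ofNat 9), (.ofNat 0, .negSucc 0, .ofNat 1),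
      (.negSucc 8, .ofNat 3, .ofNat 4)) = true := by decide +kernel

set_option maxRecDepth 100000 in
theorem chk7_15 : chk Slit 1156
    ((.ofNat 7, .ofNat 9, .ofNat 11), (.negSucc 0, .ofNat 2, .negSucc 0),
      (.negSucc 4, .negSucc 0, .ofNat 4)) = true := by decide +kernel

set_option maxRecDepth 100000 in
theorem chk7_16 : chk Slit 1156
    ((.ofNat 7, .ofNat 9, .ofNat 13), (.negSucc 1, .ofNat 3, .negSucc 0),
      (.negSucc 2, .negSucc 1, .ofNat 3)) = true := by decide +kernel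

set_option maxRecDepth 100000 in
theorem chk7_17 : chk Slit 1156
    ((.ofNat 7, .ofNat 11, .ofNat 11), (.ofNat 0, .negSucc 0, .ofNat 1),
      (.negSucc 10, .ofNat 3, .ofNat 4)) = true := by decide +kernel

set_option maxRecDepth 100000 in
theorem chk7_18 : chk Slit 1156
    ((.ofNat 9, .ofNat 9, .ofNat 11), (.negSucc 0, .ofNat 1, .ofNat 0),
      (.negSucc 5, .negSucc 4, .ofNat 9)) = true := by decide +kernel

theorem tbl7_chk : ∀ t ∈ tbl7, chk Slit 1156 t = true := by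
  unfold tbl7
  simp only [List.forall_mem_cons]
  exact ⟨chk7_0, chk7_1, chk7_2, chk7_3, chk7_4, chk7_5, chk7_6, chk7_7, chk7_8, chk7_9, chk7_10, chk7_11, chk7_12, chk7_13, chk7_14, chk7_15, chk7_16, chk7_17, chk7_18, by simp⟩

end Pool.Agent.DiracAdd
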