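import Pool.Agent.DiracAdd.Chk1
import Pool.Agent.DiracAdd.Chk2
import Pool.Agent.DiracAdd.Chk3
import Pool.Agent.DiracAdd.Chk4
import Pool.Agent.DiracAdd.Chk5
import Pool.Agent.DiracAdd.Chk6
import Pool.Agent.DiracAdd.Chk7

/-!
Facts on the 2329 triples that follow from the kernel computations.
-/

set_option autoImplicit false

namespace Pool.Agent.DiracAdd

theorem memb_iff {w : V} {l : List V} : memb w l = true ↔ w ∈ l ∨ ngt w ∈ l := by
  unfold memb
  rw [List.any_eq_true]
  constructor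
  · rintro ⟨x, hx, h⟩
    rw [Bool.or_eq_true, decide_eq_true_eq, decide_eq_true_eq] at h
    rcases h with h | h
    · subst h; exact Or.inl hx
    · subst h; exact Or.inr hx
  · rintro (h | h)
    · exact ⟨w, h, by simp⟩
    · exact ⟨ngt w, h, by simp⟩

theorem clos_of_mem {o : V × List V} (ho : o ∈ orbs) :
    (o.1 ∈ o.2 ∨ ngt o.1 ∈ o.2) ∧ ∀ w ∈ o.2, srt w = o.1 ∧
      (sw1 w ∈ o.2 ∨ ngt (sw1 w) ∈ o.2) ∧ (sw2 w ∈ o.2 ∨ ngt (sw2 w) ∈ o.2) ∧
      (ng w ∈ o.2 ∨ ngt (ng w) ∈ o.2) := by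
  have h := List.all_eq_true.mp orbs_clos o ho
  unfold clos at h
  rw [Bool.and_eq_true, memb_iff, List.all_eq_true] at h
  refine ⟨h.1, fun w hw => ?_⟩
  have h2 := h.2 w hw
  rw [Bool.and_eq_true, Bool.and_eq_true, Bool.and_eq_true, memb_iff, memb_iff, memb_iff,
    decide_eq_true_eq] at h2
  exact h2

theorem ngt_ngt (v : V) : ngt (ngt v) = v := by simp [ngt]

theorem mem_of_rel {o : V × List V} (ho : o ∈ orbs) {w : V} (h : Rel o.1 w) :
    w ∈ o.2 ∨ ngt w ∈ o.2 := by
  have hc := clos_of_mem ho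
  induction h with
  | base => exact hc.1
  | s1 w _ ih =>
    rcases ih with ih | ih
    · exact (hc.2 w ih).2.1
    · have h1 := (hc.2 _ ih).2.1
      have e : sw1 (ngt w) = ngt (sw1 w) := rfl
      rw [e, ngt_ngt] at h1
      exact h1.symm
  | s2 w _ ih =>
    rcases ih with ih | ih
    · exact (hc.2 w ih).2.2.1
    · have h1 := (hc.2 _ ih).2.2.1
      have e : sw2 (ngt w) = ngt (sw2 w) := rfl
      rw [e, ngt_ngt] at h1
      exact h1.symm
  | n1 w _ ih =>
    rcases ih with ih | ih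
    · exact (hc.2 w ih).2.2.2
    · have h1 := (hc.2 _ ih).2.2.2
      have e : ng (ngt w) = ngt (ng w) := rfl
      rw [e, ngt_ngt] at h1
      exact h1.symm

/-- the triples of the list, up to sign, closed under permutations and changes of signs -/
def InS (w : V) : Prop := ∃ o ∈ orbs, Rel o.1 w

theorem inS_mem {w : V} (h : InS w) : w ∈ Slit ∨ ngt w ∈ Slit := by
  obtain ⟨o, ho, hr⟩ := h
  unfold Slit
  rcases mem_of_rel ho hr with h1 | h1
  · exact Or.inl (List.mem_flatMap.mpr ⟨o, ho, h1⟩)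
  · exact Or.inr (List.mem_flatMap.mpr ⟨o, ho, h1⟩)

theorem mem_inS {w : V} (h : w ∈ Slit) : InS w := by
  obtain ⟨o, ho, hw⟩ := List.mem_flatMap.mp h
  refine ⟨o, ho, ?_⟩
  rw [← ((clos_of_mem ho).2 w hw).1]
  exact rel_srt w

theorem Slit_bound : ∀ w ∈ Slit, w.1.natAbs ≤ 17 ∧ w.2.1.natAbs ≤ 17 ∧ w.2.2.natAbs ≤ 17 := by
  intro w hw
  have h := List.all_eq_true.mp Slit_nice w hw
  unfold nice at h
  simp only [Bool.and_eq_true, Nat.ble_eq] at h
  exact h.2.2

set_option maxRecDepth 100000 in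
theorem reps_eq : orbs.map Prod.fst =
    (tbl1 ++ (tbl2 ++ (tbl3 ++ (tbl4 ++ (tbl5 ++ (tbl6 ++ tbl7)))))).map Prod.fst := by
  decide +kernel

theorem chk_of_mem {o : V × List V} (ho : o ∈ orbs) :
    ∃ m n : V, chk Slit 1156 (o.1, m, n) = true := by
  have h1 : o.1 ∈ orbs.map Prod.fst := List.mem_map_of_mem ho
  rw [reps_eq] at h1
  obtain ⟨t, ht, e⟩ := List.mem_map.mp h1
  have h2 : chk Slit 1156 t = true := by
    simp only [List.mem_append] at ht
    rcases ht with h | h | h | h | h | h | h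
    · exact tbl1_chk t h
    · exact tbl2_chk t h
    · exact tbl3_chk t h
    · exact tbl4_chk t h
    · exact tbl5_chk t h
    · exact tbl6_chk t h
    · exact tbl7_chk t h
  refine ⟨t.2.1, t.2.2, ?_⟩
  rw [← e]
  exact h2

theorem good_all {u : V} (h : InS u) : Good InS 1156 u := by
  obtain ⟨o, ho, hr⟩ := h
  obtain ⟨m, n, hc⟩ := chk_of_mem ho
  have h1 : Good InS 1156 o.1 := good_of_chk (fun w hw => inS_mem hw) Slit_bound hc
  refine h1.of_rel ?_ ?_ ?_ hr
  · rintro w ⟨o', ho', hr'⟩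
    exact ⟨o', ho', Rel.s1 _ hr'⟩
  · rintro w ⟨o', ho', hr'⟩
    exact ⟨o', ho', Rel.s2 _ hr'⟩
  · rintro w ⟨o', ho', hr'⟩
    exact ⟨o', ho', Rel.n1 _ hr'⟩

/-- the set of triples -/
def Sfin : Finset V := Slit.toFinset

theorem card_Sfin : Sfin.card = 2329 := by
  have h1 := cnt_eq (Slit.map code) 0 0
  rw [Slit_codes] at h1
  have h2 : (Slit.map code).toFinset.filter (fun k => (0 : ℕ).testBit k = false) =
      Sfin.image code := by
    ext j
    simp only [Nat.zero_testBit, Finset.filter_true, List.mem_toFinset, List.mem_map,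
      Finset.mem_image, Sfin]
  rw [h2] at h1
  have h3 : (Sfin.image code).card ≤ Sfin.card := Finset.card_image_le
  have h4 : Sfin.card ≤ Slit.length := List.toFinset_card_le _
  have h5 : Slit.length = 2329 := by
    set_option maxRecDepth 100000 in decide +kernel
  omega

/-- proportional triples of the list are equal -/
theorem eq_of_crs {v w : V} (hv : v ∈ Slit) (hw : w ∈ Slit) (h : crs v w = 0) : v = w := by
  have key1 : ∀ v w : V, v ∈ Slit → crs v w = 0 → ∃ t : Int,
      w.1 = t * v.1 ∧ w.2.1 = t * v.2.1 ∧ w.2.2 = t * v.2.2 := by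
    intro v w hv h
    have hn := List.all_eq_true.mp Slit_nice v hv
    unfold nice at hn
    simp only [Bool.and_eq_true] at hn
    have hg := Nat.eq_of_beq_eq_true hn.2.1
    obtain ⟨a, b, c⟩ := v
    obtain ⟨a', b', c'⟩ := w
    simp only [crs, Prod.mk_eq_zero] at h
    simp only at hg ⊢
    have e1 : (Int.gcd a b : Int) = a * Int.gcdA a b + b * Int.gcdB a b := Int.gcd_eq_gcd_ab a b
    have e2 : (Int.gcd (Int.gcd a b : Int) c : Int) =
        (Int.gcd a b : Int) * Int.gcdA (Int.gcd a b) c + c * Int.gcdB (Int.gcd a b) c :=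
      Int.gcd_eq_gcd_ab _ _
    have e3 : Int.gcd (Int.gcd a b : Int) c = 1 := by
      unfold Int.gcd
      simpa using hg
    rw [e3] at e2
    set X := Int.gcdA a b
    set Y := Int.gcdB a b
    set Z := Int.gcdA (Int.gcd a b) c
    set W := Int.gcdB (Int.gcd a b) c
    have e4 : a * (X * Z) + b * (Y * Z) + c * W = 1 := by
      have : ((1 : ℕ) : Int) = 1 := rfl
      rw [this, e1] at e2
      linear_combination -e2
    refine ⟨a' * (X * Z) + b' * (Y * Z) + c' * W, ?_, ?_, ?_⟩
    · linear_combination (-a') * e4 - (Y * Z) * h.2.2 + W * h.2.1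
    · linear_combination (-b') * e4 + (X * Z) * h.2.2 - W * h.1
    · linear_combination (-c') * e4 - (X * Z) * h.2.1 + (Y * Z) * h.1
  have pos : ∀ v ∈ Slit, posv v = true := by
    intro v hv
    have hn := List.all_eq_true.mp Slit_nice v hv
    unfold nice at hn
    simp only [Bool.and_eq_true] at hn
    exact hn.1
  obtain ⟨t, t1, t2, t3⟩ := key1 v w hv h
  have h' : crs w v = 0 := by
    have : crs w v = ngt (crs v w) := by
      simp only [crs, ngt, Prod.mk.injEq]
      refine ⟨?_, ?_, ?_⟩ <;> ring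
    rw [this, h]; rfl
  obtain ⟨s, s1, s2, s3⟩ := key1 w v hw h'
  have pv := pos v hv
  have pw := pos w hw
  unfold posv at pv pw
  simp only [Bool.or_eq_true, Bool.and_eq_true, decide_eq_true_eq] at pv pw
  obtain ⟨a, b, c⟩ := v
  obtain ⟨a', b', c'⟩ := w
  simp only at *
  have hst : s * t = 1 := by
    rcases pv with h1 | ⟨h1, h2 | ⟨h2, h3⟩⟩
    · have : a * (s * t - 1) = 0 := by linear_combination (-1) * s1 - s * t1
      rcases mul_eq_zero.mp this with h4 | h4
      · omega
      · linarith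
    · have : b * (s * t - 1) = 0 := by linear_combination (-1) * s2 - s * t2
      rcases mul_eq_zero.mp this with h4 | h4
      · omega
      · linarith
    · have : c * (s * t - 1) = 0 := by linear_combination (-1) * s3 - s * t3
      rcases mul_eq_zero.mp this with h4 | h4
      · omega
      · linarith
  rcases Int.eq_one_or_neg_one_of_mul_eq_one' hst with ⟨_, h5⟩ | ⟨_, h5⟩
  · subst h5
    simp only [Prod.mk.injEq]
    refine ⟨?_, ?_, ?_⟩ <;> linarith
  · exfalso
    subst h5
    omega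

theorem e3_mem : ((0, 0, 1) : V) ∈ Slit := by
  set_option maxRecDepth 100000 in decide +kernel

theorem e1_mem : ((1, 0, 0) : V) ∈ Slit := by
  set_option maxRecDepth 100000 in decide +kernel

theorem e2_mem : ((0, 1, 0) : V) ∈ Slit := by
  set_option maxRecDepth 100000 in decide +kernel

theorem e13_mem : ((1, 0, 1) : V) ∈ Slit := by
  set_option maxRecDepth 100000 in decide +kernel

theorem ne_of_mem {v : V} (hv : v ∈ Slit) (h : v ≠ (0, 0, 1)) : v.1 ≠ 0 ∨ v.2.1 ≠ 0 := by
  by_contra hcon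
  push Not at hcon
  apply h
  apply eq_of_crs hv e3_mem
  obtain ⟨a, b, c⟩ := v
  simp only at hcon
  obtain ⟨rfl, rfl⟩ := hcon
  simp [crs]

end Pool.Agent.DiracAdd
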