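import Mathlib

/-!
Integer triples as lines of the plane: signed permutations, keys of intersection points.
-/

set_option autoImplicit false

namespace Pool.Agent.DiracAdd

/-- An integer triple. -/
abbrev V := Int × Int × Int

/-- cross product -/
def crs (u v : V) : V :=
  (u.2.1 * v.2.2 - u.2.2 * v.2.1, u.2.2 * v.1 - u.1 * v.2.2, u.1 * v.2.1 - u.2.1 * v.1)

/-- scalar product -/
def dt (u v : V) : Int := u.1 * v.1 + u.2.1 * v.2.1 + u.2.2 * v.2.2

/-- opposite triple -/
def ngt (v : V) : V := (-v.1, -v.2.1, -v.2.2)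

/-- swap of the first two entries -/
def sw1 (v : V) : V := (v.2.1, v.1, v.2.2)

/-- swap of the last two entries -/
def sw2 (v : V) : V := (v.1, v.2.2, v.2.1)

/-- change of the sign of the first entry -/
def ng (v : V) : V := (-v.1, v.2.1, v.2.2)

/-- `Rel v w`: the triple `w` arises from `v` by permutations of entries and changes of signs. -/
inductive Rel (v : V) : V → Prop
  | base : Rel v v
  | s1 (w : V) : Rel v w → Rel v (sw1 w)
  | s2 (w : V) : Rel v w → Rel v (sw2 w)
  | n1 (w : V) : Rel v w → Rel v (ng w)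

theorem Rel.flip2 {v : V} {a b c : Int} (h : Rel v (a, b, c)) : Rel v (a, -b, c) := by
  have h1 := Rel.s1 _ (Rel.n1 _ (Rel.s1 _ h))
  simpa [sw1, ng] using h1

theorem Rel.flip1 {v : V} {a b c : Int} (h : Rel v (a, b, c)) : Rel v (-a, b, c) := by
  have h1 := Rel.n1 _ h
  simpa [sw1, ng] using h1

theorem Rel.flip3 {v : V} {a b c : Int} (h : Rel v (a, b, c)) : Rel v (a, b, -c) := by
  have h1 := Rel.s2 _ (Rel.flip2 (Rel.s2 _ h))
  simpa [sw2] using h1

theorem Rel.perm12 {v : V} {a b c : Int} (h : Rel v (a, b, c)) : Rel v (b, a, c) := by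
  simpa [sw1] using Rel.s1 _ h

theorem Rel.perm23 {v : V} {a b c : Int} (h : Rel v (a, b, c)) : Rel v (a, c, b) := by
  simpa [sw2] using Rel.s2 _ h

/-- sorted absolute values -/
def srt (v : V) : V :=
  let a := Int.natAbs v.1
  let b := Int.natAbs v.2.1
  let c := Int.natAbs v.2.2
  cond (Nat.ble a b)
    (cond (Nat.ble b c) (Int.ofNat a, Int.ofNat b, Int.ofNat c)
      (cond (Nat.ble a c) (Int.ofNat a, Int.ofNat c, Int.ofNat b)
        (Int.ofNat c, Int.ofNat a, Int.ofNat b)))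
    (cond (Nat.ble a c) (Int.ofNat b, Int.ofNat a, Int.ofNat c)
      (cond (Nat.ble b c) (Int.ofNat b, Int.ofNat c, Int.ofNat a)
        (Int.ofNat c, Int.ofNat b, Int.ofNat a)))

theorem rel_abs {v : V} {a b c : Int}
    (h : Rel v (Int.ofNat a.natAbs, Int.ofNat b.natAbs, Int.ofNat c.natAbs)) :
    Rel v (a, b, c) := by
  have e : ∀ x : Int, Int.ofNat x.natAbs = x ∨ Int.ofNat x.natAbs = -x := by
    intro x
    rcases Int.natAbs_eq x with hx | hx
    · left; simpa using hx.symm
    · right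
      have : (x.natAbs : Int) = -x := by omega
      simpa using this
  have h1 : Rel v (a, Int.ofNat b.natAbs, Int.ofNat c.natAbs) := by
    rcases e a with ha | ha
    · rwa [ha] at h
    · rw [ha] at h; simpa using h.flip1
  have h2 : Rel v (a, b, Int.ofNat c.natAbs) := by
    rcases e b with ha | ha
    · rwa [ha] at h1
    · rw [ha] at h1; simpa using h1.flip2
  rcases e c with ha | ha
  · rwa [ha] at h2
  · rw [ha] at h2; simpa using h2.flip3

theorem rel_srt (u : V) : Rel (srt u) u := by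
  obtain ⟨x, y, z⟩ := u
  apply rel_abs
  unfold srt
  simp only
  cases h1 : Nat.ble x.natAbs y.natAbs <;> cases h2 : Nat.ble y.natAbs z.natAbs <;>
    cases h3 : Nat.ble x.natAbs z.natAbs <;> simp only [cond_true, cond_false]
  · exact ((Rel.base.perm12).perm23).perm12
  · exact Rel.base.perm12
  · exact (Rel.base.perm23).perm12
  · exact Rel.base.perm12
  · exact (Rel.base.perm12).perm23
  · exact Rel.base.perm23
  · exact Rel.base
  · exact Rel.base

/-! ### determinants -/

theorem crs_sw1 (u w : V) : crs (sw1 u) (sw1 w) = ngt (sw1 (crs u w)) := by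
  simp only [crs, sw1, ngt, Prod.mk.injEq]
  refine ⟨?_, ?_, ?_⟩ <;> ring

theorem crs_sw2 (u w : V) : crs (sw2 u) (sw2 w) = ngt (sw2 (crs u w)) := by
  simp only [crs, sw2, ngt, Prod.mk.injEq]
  refine ⟨?_, ?_, ?_⟩ <;> ring

theorem crs_ng (u w : V) : crs (ng u) (ng w) = ngt (ng (crs u w)) := by
  simp only [crs, ng, ngt, Prod.mk.injEq]
  refine ⟨?_, ?_, ?_⟩ <;> ring

/-- determinant of three triples -/
def det3 (u v w : V) : Int := dt (crs u v) w

theorem det_sw1 (u v w : V) : det3 (sw1 u) (sw1 v) (sw1 w) = -det3 u v w := by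
  simp only [det3, dt, crs, sw1]; ring

theorem det_sw2 (u v w : V) : det3 (sw2 u) (sw2 v) (sw2 w) = -det3 u v w := by
  simp only [det3, dt, crs, sw2]; ring

theorem det_ng (u v w : V) : det3 (ng u) (ng v) (ng w) = -det3 u v w := by
  simp only [det3, dt, crs, ng]; ring

/-- Data for the lines through the triple `u`: a map to numbers with at most `k` values on the
triples of `P` that are not proportional to `u`, equal values forcing concurrency. -/
def Good (P : V → Prop) (k : ℕ) (u : V) : Prop :=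
  ∃ f : V → ℕ, ∃ T : Finset ℕ, T.card ≤ k ∧
    (∀ w, P w → crs u w ≠ 0 → f w ∈ T) ∧
    (∀ w w', P w → P w' → crs u w ≠ 0 → crs u w' ≠ 0 → f w = f w' → det3 u w w' = 0)

theorem sw1_sw1 (v : V) : sw1 (sw1 v) = v := rfl
theorem sw2_sw2 (v : V) : sw2 (sw2 v) = v := rfl
theorem ng_ng (v : V) : ng (ng v) = v := by simp [ng]

theorem ngt_eq_zero {v : V} : ngt v = 0 ↔ v = 0 := by
  obtain ⟨a, b, c⟩ := v
  simp [ngt, Prod.mk_eq_zero]

theorem sw1_eq_zero {v : V} : sw1 v = 0 ↔ v = 0 := by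
  obtain ⟨a, b, c⟩ := v
  simp [sw1, Prod.mk_eq_zero]
  tauto

theorem sw2_eq_zero {v : V} : sw2 v = 0 ↔ v = 0 := by
  obtain ⟨a, b, c⟩ := v
  simp [sw2, Prod.mk_eq_zero]
  tauto

theorem ng_eq_zero {v : V} : ng v = 0 ↔ v = 0 := by
  obtain ⟨a, b, c⟩ := v
  simp [ng, Prod.mk_eq_zero]

theorem Good.map {P : V → Prop} {k : ℕ} {u : V} (h : Good P k u) (g : V → V)
    (gg : ∀ v, g (g v) = v) (hP : ∀ w, P w → P (g w))
    (hc : ∀ w, crs (g u) (g w) = 0 ↔ crs u w = 0)
    (hd : ∀ v w, det3 (g u) (g v) (g w) = -det3 u v w) : Good P k (g u) := by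
  obtain ⟨f, T, hT, h1, h2⟩ := h
  have hc' : ∀ w, crs (g u) w = 0 ↔ crs u (g w) = 0 := by
    intro w
    have := hc (g w)
    rwa [gg] at this
  refine ⟨fun w => f (g w), T, hT, ?_, ?_⟩
  · intro w hw hn
    apply h1 _ (hP _ hw)
    rwa [Ne, ← hc']
  · intro w w' hw hw' hn hn' e
    have h3 := h2 (g w) (g w') (hP _ hw) (hP _ hw') (by rwa [Ne, ← hc']) (by rwa [Ne, ← hc']) e
    have h4 := hd (g w) (g w')
    rw [gg, gg, h3] at h4
    simpa using h4

theorem Good.of_rel {P : V → Prop} {k : ℕ} {v u : V} (h : Good P k v)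
    (p1 : ∀ w, P w → P (sw1 w)) (p2 : ∀ w, P w → P (sw2 w)) (p3 : ∀ w, P w → P (ng w))
    (r : Rel v u) : Good P k u := by
  induction r with
  | base => exact h
  | s1 w _ ih =>
    refine ih.map sw1 sw1_sw1 p1 ?_ ?_
    · intro x
      rw [crs_sw1, ngt_eq_zero, sw1_eq_zero]
    · intro x y
      exact det_sw1 _ _ _
  | s2 w _ ih =>
    refine ih.map sw2 sw2_sw2 p2 ?_ ?_
    · intro x
      rw [crs_sw2, ngt_eq_zero, sw2_eq_zero]
    · intro x y
      exact det_sw2 _ _ _
  | n1 w _ ih =>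
    refine ih.map ng ng_ng p3 ?_ ?_
    · intro x
      rw [crs_ng, ngt_eq_zero, ng_eq_zero]
    · intro x y
      exact det_ng _ _ _

end Pool.Agent.DiracAdd
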