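import Pool.Agent.DiracAdd.Core

/-!
Counting distinct keys with a bit mask.
-/

set_option autoImplicit false

namespace Pool.Agent.DiracAdd

/-- number of distinct members of a list of numbers that are not yet marked in the mask -/
def cnt : List ℕ → ℕ → ℕ → ℕ
  | [], _, c => c
  | k :: l, mask, c =>
    cond (Nat.beq (Nat.land (Nat.shiftRight mask k) 1) 1) (cnt l mask c)
      (cnt l (Nat.lor mask (Nat.shiftLeft 1 k)) (Nat.succ c))

theorem beq_testBit (mask k : ℕ) :
    Nat.beq (Nat.land (Nat.shiftRight mask k) 1) 1 = mask.testBit k := by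
  have h : Nat.land (Nat.shiftRight mask k) 1 = (mask >>> k) &&& 1 := rfl
  rw [h, Nat.and_one_is_mod, Nat.testBit_eq_decide_div_mod_eq, Nat.shiftRight_eq_div_pow]
  rw [Bool.eq_iff_iff]
  simp

theorem testBit_mark (mask k j : ℕ) :
    (Nat.lor mask (Nat.shiftLeft 1 k)).testBit j = (mask.testBit j || decide (j = k)) := by
  have h : Nat.lor mask (Nat.shiftLeft 1 k) = mask ||| (1 <<< k) := rfl
  rw [h, Nat.testBit_or]
  congr 1
  rw [Nat.one_shiftLeft, Nat.testBit_two_pow]
  simp [eq_comm]

theorem cnt_eq (l : List ℕ) : ∀ (mask c : ℕ),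
    cnt l mask c = (l.toFinset.filter (fun k => mask.testBit k = false)).card + c := by
  induction l with
  | nil => intro mask c; simp [cnt]
  | cons k l ih =>
    intro mask c
    unfold cnt
    rw [beq_testBit]
    cases h : mask.testBit k with
    | true =>
      rw [cond_true, ih]
      congr 2
      ext j
      simp only [List.toFinset_cons, Finset.mem_filter, Finset.mem_insert, List.mem_toFinset]
      constructor
      · rintro ⟨h1, h2⟩; exact ⟨Or.inr h1, h2⟩
      · rintro ⟨h1 | h1, h2⟩
        · subst h1; rw [h] at h2; exact absurd h2 (by simp)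
        · exact ⟨h1, h2⟩
    | false =>
      rw [cond_false, ih]
      have e : (k :: l).toFinset.filter (fun j => mask.testBit j = false) =
          insert k (l.toFinset.filter
            (fun j => (Nat.lor mask (Nat.shiftLeft 1 k)).testBit j = false)) := by
        ext j
        simp only [List.toFinset_cons, Finset.mem_filter, Finset.mem_insert, List.mem_toFinset,
          testBit_mark, Bool.or_eq_false_iff, decide_eq_false_iff_not]
        constructor
        · rintro ⟨h1 | h1, h2⟩
          · exact Or.inl h1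
          · by_cases hj : j = k
            · exact Or.inl hj
            · exact Or.inr ⟨h1, h2, hj⟩
        · rintro (h1 | ⟨h1, h2, h3⟩)
          · subst h1; exact ⟨Or.inl rfl, h⟩
          · exact ⟨Or.inr h1, h2⟩
      rw [e, Finset.card_insert_of_notMem]
      · simp only [Nat.succ_eq_add_one]; omega
      · rw [Finset.mem_filter, testBit_mark]; simp

/-- key of a pair of integers: the reduced ratio -/
def key (a b : Int) : ℕ :=
  match b with
  | .ofNat bn =>
    match a with
    | .ofNat an =>
      let g := Nat.gcd an bn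
      Nat.mul 2 (Nat.add (Nat.mul 352 (Nat.div an g)) (Nat.div bn g))
    | .negSucc am =>
      let an := Nat.succ am
      let g := Nat.gcd an bn
      cond (Nat.beq bn 0) (Nat.mul 2 (Nat.add (Nat.mul 352 (Nat.div an g)) (Nat.div bn g)))
        (Nat.succ (Nat.mul 2 (Nat.add (Nat.mul 352 (Nat.div an g)) (Nat.div bn g))))
  | .negSucc bm =>
    let bn := Nat.succ bm
    match a with
    | .ofNat an =>
      let g := Nat.gcd an bn
      cond (Nat.beq an 0) (Nat.mul 2 (Nat.add (Nat.mul 352 (Nat.div an g)) (Nat.div bn g)))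
        (Nat.succ (Nat.mul 2 (Nat.add (Nat.mul 352 (Nat.div an g)) (Nat.div bn g))))
    | .negSucc am =>
      let an := Nat.succ am
      let g := Nat.gcd an bn
      Nat.mul 2 (Nat.add (Nat.mul 352 (Nat.div an g)) (Nat.div bn g))

theorem key_eq (a b : Int) :
    key a b = 2 * (352 * (a.natAbs / Nat.gcd a.natAbs b.natAbs) +
      b.natAbs / Nat.gcd a.natAbs b.natAbs) + (if a * b < 0 then 1 else 0) := by
  have hl : ∀ x y : ℕ, Nat.mul 2 (Nat.add (Nat.mul 352 x) y) = 2 * (352 * x + y) := fun _ _ => rfl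
  cases b with
  | ofNat bn =>
    cases a with
    | ofNat an =>
      have h : ¬ (Int.ofNat an * Int.ofNat bn < 0) := by
        simp only [Int.ofNat_eq_natCast, not_lt]; positivity
      rw [if_neg h]
      rfl
    | negSucc am =>
      simp only [key, Int.natAbs_negSucc, Int.ofNat_eq_natCast, Int.natAbs_natCast]
      cases bn with
      | zero =>
        rw [if_neg (by simp)]
        rfl
      | succ bm =>
        have h : Int.negSucc am * ((bm + 1 : ℕ) : Int) < 0 :=
          mul_neg_of_neg_of_pos (Int.negSucc_lt_zero am) (by positivity)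
        rw [if_pos h]
        rfl
  | negSucc bm =>
    cases a with
    | ofNat an =>
      simp only [key, Int.natAbs_negSucc, Int.ofNat_eq_natCast, Int.natAbs_natCast]
      cases an with
      | zero =>
        rw [if_neg (by simp)]
        rfl
      | succ am =>
        have h : ((am + 1 : ℕ) : Int) * Int.negSucc bm < 0 :=
          mul_neg_of_pos_of_neg (by positivity) (Int.negSucc_lt_zero bm)
        rw [if_pos h]
        rfl
    | negSucc am =>
      have h : ¬ (Int.negSucc am * Int.negSucc bm < 0) := by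
        rw [not_lt]
        exact (mul_pos_of_neg_of_neg (Int.negSucc_lt_zero am) (Int.negSucc_lt_zero bm)).le
      rw [if_neg h]
      rfl

theorem key_neg (a b : Int) : key (-a) (-b) = key a b := by
  rw [key_eq, key_eq, Int.natAbs_neg, Int.natAbs_neg, neg_mul_neg]

theorem key_ne_zero {a b : Int} (h : a ≠ 0 ∨ b ≠ 0) : key a b ≠ 0 := by
  rw [key_eq]
  have hg : 0 < Nat.gcd a.natAbs b.natAbs := by
    rcases h with h | h
    · exact Nat.gcd_pos_of_pos_left _ (Int.natAbs_pos.mpr h)
    · exact Nat.gcd_pos_of_pos_right _ (Int.natAbs_pos.mpr h)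
  rcases h with h | h
  · have : 0 < a.natAbs / Nat.gcd a.natAbs b.natAbs :=
      Nat.div_pos (Nat.le_of_dvd (Int.natAbs_pos.mpr h) (Nat.gcd_dvd_left _ _)) hg
    revert this
    generalize a.natAbs / Nat.gcd a.natAbs b.natAbs = A
    generalize b.natAbs / Nat.gcd a.natAbs b.natAbs = B
    omega
  · have : 0 < b.natAbs / Nat.gcd a.natAbs b.natAbs :=
      Nat.div_pos (Nat.le_of_dvd (Int.natAbs_pos.mpr h) (Nat.gcd_dvd_right _ _)) hg
    revert this
    generalize a.natAbs / Nat.gcd a.natAbs b.natAbs = A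
    generalize b.natAbs / Nat.gcd a.natAbs b.natAbs = B
    omega

theorem key_inj {a b a' b' : Int} (hb : b.natAbs < 352) (hb' : b'.natAbs < 352)
    (h : key a b = key a' b') : a * b' = a' * b := by
  rw [key_eq, key_eq] at h
  set g := Nat.gcd a.natAbs b.natAbs with hg
  set g' := Nat.gcd a'.natAbs b'.natAbs with hg'
  have h1 : b.natAbs / g < 352 := lt_of_le_of_lt (Nat.div_le_self _ _) hb
  have h2 : b'.natAbs / g' < 352 := lt_of_le_of_lt (Nat.div_le_self _ _) hb'
  have hs1 : (if a * b < 0 then 1 else 0 : ℕ) ≤ 1 := by split_ifs <;> simp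
  have hs2 : (if a' * b' < 0 then 1 else 0 : ℕ) ≤ 1 := by split_ifs <;> simp
  have e0 : ∀ A B A' B' s s' : ℕ, B < 352 → B' < 352 → s ≤ 1 → s' ≤ 1 →
      2 * (352 * A + B) + s = 2 * (352 * A' + B') + s' → A = A' ∧ B = B' ∧ s = s' := by
    intro A B A' B' s s' k1 k2 k3 k4 k5
    omega
  obtain ⟨e1, e2, e3⟩ := e0 _ _ _ _ _ _ h1 h2 hs1 hs2 h
  have ea : a.natAbs = g * (a.natAbs / g) := (Nat.mul_div_cancel' (Nat.gcd_dvd_left _ _)).symm
  have eb : b.natAbs = g * (b.natAbs / g) := (Nat.mul_div_cancel' (Nat.gcd_dvd_right _ _)).symm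
  have ea' : a'.natAbs = g' * (a'.natAbs / g') :=
    (Nat.mul_div_cancel' (Nat.gcd_dvd_left _ _)).symm
  have eb' : b'.natAbs = g' * (b'.natAbs / g') :=
    (Nat.mul_div_cancel' (Nat.gcd_dvd_right _ _)).symm
  have e4 : (a * b').natAbs = (a' * b).natAbs := by
    rw [Int.natAbs_mul, Int.natAbs_mul, ea, eb', ea', eb, e1, e2]
    ring
  have e5 : 0 ≤ (a * b') * (a' * b) := by
    have : (a * b') * (a' * b) = (a * b) * (a' * b') := by ring
    rw [this]
    by_cases h3 : a * b < 0
    · have h4 : a' * b' < 0 := by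
        by_contra h4
        rw [if_pos h3, if_neg h4] at e3
        simp at e3
      exact (mul_pos_of_neg_of_neg h3 h4).le
    · have h4 : ¬ a' * b' < 0 := by
        intro h4
        rw [if_neg h3, if_pos h4] at e3
        simp at e3
      exact mul_nonneg (not_lt.mp h3) (not_lt.mp h4)
  rcases Int.natAbs_eq_natAbs_iff.mp e4 with e6 | e6
  · exact e6
  · rw [e6] at e5
    have e7 : (a' * b) * (a' * b) ≤ 0 := by linarith [e5]
    have e8 : a' * b = 0 := by
      have := mul_self_nonneg (a' * b)
      exact mul_self_eq_zero.mp (le_antisymm e7 this)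
    rw [e6, e8, neg_zero]

/-- scalar product, in a form that reduces fast -/
def dot3 (m w : V) : Int :=
  match m with
  | (m1, m2, m3) => match w with
    | (w1, w2, w3) => Int.add (Int.add (Int.mul m1 w1) (Int.mul m2 w2)) (Int.mul m3 w3)

theorem dot3_eq (m w : V) : dot3 m w = dt m w := rfl

/-- the counting loop for one line -/
def go (m n : V) : List V → ℕ → ℕ → ℕ
  | [], _, c => c
  | w :: l, mask, c =>
    let k := key (dot3 m w) (dot3 n w)
    cond (Nat.beq (Nat.land (Nat.shiftRight mask k) 1) 1) (go m n l mask c)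
      (go m n l (Nat.lor mask (Nat.shiftLeft 1 k)) (Nat.succ c))

theorem go_eq (m n : V) (l : List V) : ∀ mask c : ℕ,
    go m n l mask c = cnt (l.map fun w => key (dt m w) (dt n w)) mask c := by
  induction l with
  | nil => intro mask c; rfl
  | cons w l ih =>
    intro mask c
    simp only [go, List.map_cons, cnt, ih, dot3_eq]

/-- the test for one line: `m`, `n` span the orthogonal lattice of `u` -/
def chk (S : List V) (k : ℕ) (t : V × V × V) : Bool :=
  (decide (crs t.2.1 t.2.2 = t.1) || decide (crs t.2.1 t.2.2 = ngt t.1)) &&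
    (Nat.ble ((t.2.2.1.natAbs + t.2.2.2.1.natAbs + t.2.2.2.2.natAbs) * 17) 351 &&
      Nat.ble (go t.2.1 t.2.2 S 1 0) k)

theorem abs_dt_le {n w : V} (h1 : w.1.natAbs ≤ 17) (h2 : w.2.1.natAbs ≤ 17)
    (h3 : w.2.2.natAbs ≤ 17) :
    (dt n w).natAbs ≤ (n.1.natAbs + n.2.1.natAbs + n.2.2.natAbs) * 17 := by
  unfold dt
  calc (n.1 * w.1 + n.2.1 * w.2.1 + n.2.2 * w.2.2).natAbs
      ≤ (n.1 * w.1 + n.2.1 * w.2.1).natAbs + (n.2.2 * w.2.2).natAbs := Int.natAbs_add_le _ _
    _ ≤ (n.1 * w.1).natAbs + (n.2.1 * w.2.1).natAbs + (n.2.2 * w.2.2).natAbs := by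
        gcongr; exact Int.natAbs_add_le _ _
    _ = n.1.natAbs * w.1.natAbs + n.2.1.natAbs * w.2.1.natAbs + n.2.2.natAbs * w.2.2.natAbs := by
        rw [Int.natAbs_mul, Int.natAbs_mul, Int.natAbs_mul]
    _ ≤ n.1.natAbs * 17 + n.2.1.natAbs * 17 + n.2.2.natAbs * 17 := by gcongr
    _ = _ := by ring

theorem good_of_chk {S : List V} {P : V → Prop} {k : ℕ} {u m n : V}
    (hP : ∀ w, P w → w ∈ S ∨ ngt w ∈ S)
    (hB : ∀ w ∈ S, w.1.natAbs ≤ 17 ∧ w.2.1.natAbs ≤ 17 ∧ w.2.2.natAbs ≤ 17)
    (h : chk S k (u, m, n) = true) : Good P k u := by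
  simp only [chk, Bool.and_eq_true, Bool.or_eq_true, decide_eq_true_eq, Nat.ble_eq] at h
  obtain ⟨hc, hn, hk⟩ := h
  have hB' : ∀ w, P w → (dt n w).natAbs < 352 := by
    intro w hw
    have : w.1.natAbs ≤ 17 ∧ w.2.1.natAbs ≤ 17 ∧ w.2.2.natAbs ≤ 17 := by
      rcases hP w hw with h | h
      · exact hB w h
      · have := hB _ h
        simpa [ngt] using this
    have h1 := abs_dt_le (n := n) this.1 this.2.1 this.2.2
    omega
  -- proportionality
  have hz : ∀ w, dt m w = 0 → dt n w = 0 → crs u w = 0 := by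
    intro w h1 h2
    have key1 : ∀ m n w : V, crs (crs m n) w =
        (n.1 * dt m w - m.1 * dt n w, n.2.1 * dt m w - m.2.1 * dt n w,
          n.2.2 * dt m w - m.2.2 * dt n w) := by
      intro m n w
      simp only [crs, dt, Prod.mk.injEq]
      refine ⟨?_, ?_, ?_⟩ <;> ring
    have h3 := key1 m n w
    rw [h1, h2] at h3
    simp only [mul_zero, sub_self] at h3
    rcases hc with hc | hc
    · rw [hc] at h3; exact h3
    · rw [hc] at h3
      have h4 : crs (ngt u) w = ngt (crs u w) := by
        simp only [crs, ngt, Prod.mk.injEq]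
        refine ⟨?_, ?_, ?_⟩ <;> ring
      rw [h4] at h3
      exact ngt_eq_zero.mp h3
  have hdet : ∀ w w', dt m w * dt n w' = dt m w' * dt n w → det3 u w w' = 0 := by
    intro w w' h1
    have key2 : ∀ m n w w' : V,
        det3 (crs m n) w w' = dt m w * dt n w' - dt m w' * dt n w := by
      intro m n w w'
      simp only [det3, crs, dt]
      ring
    have h3 := key2 m n w w'
    rw [h1, sub_self] at h3
    rcases hc with hc | hc
    · rw [hc] at h3; exact h3
    · rw [hc] at h3
      have h4 : det3 (ngt u) w w' = -det3 u w w' := by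
        simp only [det3, crs, dt, ngt]; ring
      rw [h4] at h3
      simpa using h3
  refine ⟨fun w => key (dt m w) (dt n w),
    (S.map fun w => key (dt m w) (dt n w)).toFinset.filter (fun j => (1 : ℕ).testBit j = false),
    ?_, ?_, ?_⟩
  · have := cnt_eq (S.map fun w => key (dt m w) (dt n w)) 1 0
    rw [← go_eq] at this
    omega
  · intro w hw hne
    have hk0 : key (dt m w) (dt n w) ≠ 0 := by
      apply key_ne_zero
      by_contra hcon
      push Not at hcon
      exact hne (hz w hcon.1 hcon.2)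
    rw [Finset.mem_filter, List.mem_toFinset, List.mem_map]
    refine ⟨?_, ?_⟩
    · rcases hP w hw with h | h
      · exact ⟨w, h, rfl⟩
      · refine ⟨ngt w, h, ?_⟩
        have e : ∀ m : V, dt m (ngt w) = -dt m w := by
          intro m; simp only [dt, ngt]; ring
        rw [e, e, key_neg]
    · rw [← Nat.pow_zero 2, Nat.testBit_two_pow]
      simpa using fun h => hk0 h.symm
  · intro w w' hw hw' _ _ e
    exact hdet w w' (key_inj (hB' w hw) (hB' w' hw') e)

end Pool.Agent.DiracAdd
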