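import Pool.Agent.DiracAdd.Count

/-!
The 2329 integer triples: 133 orbits under permutations of the entries and changes of signs,
one triple of each pair of opposite triples.
-/

set_option autoImplicit false

namespace Pool.Agent.DiracAdd

/-- representatives (sorted absolute values) and orbits (modulo sign) -/
def orbs : List (V × List V) := [
  ((.ofNat 0, .ofNat 0, .ofNat 1), [
    (.ofNat 0, .ofNat 0, .ofNat 1), (.ofNat 0, .ofNat 1, .ofNat 0),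
    (.ofNat 1, .ofNat 0, .ofNat 0)]),
  ((.ofNat 0, .ofNat 1, .ofNat 1), [
    (.ofNat 0, .ofNat 1, .negSucc 0), (.ofNat 0, .ofNat 1, .ofNat 1),
    (.ofNat 1, .negSucc 0, .ofNat 0), (.ofNat 1, .ofNat 0, .negSucc 0),
    (.ofNat 1, .ofNat 0, .ofNat 1), (.ofNat 1, .ofNat 1, .ofNat 0)]),
  ((.ofNat 0, .ofNat 1, .ofNat 2), [
    (.ofNat 0, .ofNat 1, .negSucc 1), (.ofNat 0, .ofNat 1, .ofNat 2),
    (.ofNat 0, .ofNat 2, .negSucc 0), (.ofNat 0, .ofNat 2, .ofNat 1),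
    (.ofNat 1, .negSucc 1, .ofNat 0), (.ofNat 1, .ofNat 0, .negSucc 1),
    (.ofNat 1, .ofNat 0, .ofNat 2), (.ofNat 1, .ofNat 2, .ofNat 0),
    (.ofNat 2, .negSucc 0, .ofNat 0), (.ofNat 2, .ofNat 0, .negSucc 0),
    (.ofNat 2, .ofNat 0, .ofNat 1), (.ofNat 2, .ofNat 1, .ofNat 0)]),
  ((.ofNat 0, .ofNat 1, .ofNat 3), [
    (.ofNat 0, .ofNat 1, .negSucc 2), (.ofNat 0, .ofNat 1, .ofNat 3),
    (.ofNat 0, .ofNat 3, .negSucc 0), (.ofNat 0, .ofNat 3, .ofNat 1),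
    (.ofNat 1, .negSucc 2, .ofNat 0), (.ofNat 1, .ofNat 0, .negSucc 2),
    (.ofNat 1, .ofNat 0, .ofNat 3), (.ofNat 1, .ofNat 3, .ofNat 0),
    (.ofNat 3, .negSucc 0, .ofNat 0), (.ofNat 3, .ofNat 0, .negSucc 0),
    (.ofNat 3, .ofNat 0, .ofNat 1), (.ofNat 3, .ofNat 1, .ofNat 0)]),
  ((.ofNat 0, .ofNat 1, .ofNat 4), [
    (.ofNat 0, .ofNat 1, .negSucc 3), (.ofNat 0, .ofNat 1, .ofNat 4),
    (.ofNat 0, .ofNat 4, .negSucc 0), (.ofNat 0, .ofNat 4, .ofNat 1),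
    (.ofNat 1, .negSucc 3, .ofNat 0), (.ofNat 1, .ofNat 0, .negSucc 3),
    (.ofNat 1, .ofNat 0, .ofNat 4), (.ofNat 1, .ofNat 4, .ofNat 0),
    (.ofNat 4, .negSucc 0, .ofNat 0), (.ofNat 4, .ofNat 0, .negSucc 0),
    (.ofNat 4, .ofNat 0, .ofNat 1), (.ofNat 4, .ofNat 1, .ofNat 0)]),
  ((.ofNat 0, .ofNat 1, .ofNat 5), [
    (.ofNat 0, .ofNat 1, .negSucc 4), (.ofNat 0, .ofNat 1, .ofNat 5),
    (.ofNat 0, .ofNat 5, .negSucc 0), (.ofNat 0, .ofNat 5, .ofNat 1),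
    (.ofNat 1, .negSucc 4, .ofNat 0), (.ofNat 1, .ofNat 0, .negSucc 4),
    (.ofNat 1, .ofNat 0, .ofNat 5), (.ofNat 1, .ofNat 5, .ofNat 0),
    (.ofNat 5, .negSucc 0, .ofNat 0), (.ofNat 5, .ofNat 0, .negSucc 0),
    (.ofNat 5, .ofNat 0, .ofNat 1), (.ofNat 5, .ofNat 1, .ofNat 0)]),
  ((.ofNat 0, .ofNat 1, .ofNat 6), [
    (.ofNat 0, .ofNat 1, .negSucc 5), (.ofNat 0, .ofNat 1, .ofNat 6),
    (.ofNat 0, .ofNat 6, .negSucc 0), (.ofNat 0, .ofNat 6, .ofNat 1),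
    (.ofNat 1, .negSucc 5, .ofNat 0), (.ofNat 1, .ofNat 0, .negSucc 5),
    (.ofNat 1, .ofNat 0, .ofNat 6), (.ofNat 1, .ofNat 6, .ofNat 0),
    (.ofNat 6, .negSucc 0, .ofNat 0), (.ofNat 6, .ofNat 0, .negSucc 0),
    (.ofNat 6, .ofNat 0, .ofNat 1), (.ofNat 6, .ofNat 1, .ofNat 0)]),
  ((.ofNat 0, .ofNat 1, .ofNat 7), [
    (.ofNat 0, .ofNat 1, .negSucc 6), (.ofNat 0, .ofNat 1, .ofNat 7),
    (.ofNat 0, .ofNat 7, .negSucc 0), (.ofNat 0, .ofNat 7, .ofNat 1),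
    (.ofNat 1, .negSucc 6, .ofNat 0), (.ofNat 1, .ofNat 0, .negSucc 6),
    (.ofNat 1, .ofNat 0, .ofNat 7), (.ofNat 1, .ofNat 7, .ofNat 0),
    (.ofNat 7, .negSucc 0, .ofNat 0), (.ofNat 7, .ofNat 0, .negSucc 0),
    (.ofNat 7, .ofNat 0, .ofNat 1), (.ofNat 7, .ofNat 1, .ofNat 0)]),
  ((.ofNat 0, .ofNat 1, .ofNat 8), [
    (.ofNat 0, .ofNat 1, .negSucc 7), (.ofNat 0, .ofNat 1, .ofNat 8),
    (.ofNat 0, .ofNat 8, .negSucc 0), (.ofNat 0, .ofNat 8, .ofNat 1),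
    (.ofNat 1, .negSucc 7, .ofNat 0), (.ofNat 1, .ofNat 0, .negSucc 7),
    (.ofNat 1, .ofNat 0, .ofNat 8), (.ofNat 1, .ofNat 8, .ofNat 0),
    (.ofNat 8, .negSucc 0, .ofNat 0), (.ofNat 8, .ofNat 0, .negSucc 0),
    (.ofNat 8, .ofNat 0, .ofNat 1), (.ofNat 8, .ofNat 1, .ofNat 0)]),
  ((.ofNat 0, .ofNat 2, .ofNat 3), [
    (.ofNat 0, .ofNat 2, .negSucc 2), (.ofNat 0, .ofNat 2, .ofNat 3),
    (.ofNat 0, .ofNat 3, .negSucc 1), (.ofNat 0, .ofNat 3, .ofNat 2),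
    (.ofNat 2, .negSucc 2, .ofNat 0), (.ofNat 2, .ofNat 0, .negSucc 2),
    (.ofNat 2, .ofNat 0, .ofNat 3), (.ofNat 2, .ofNat 3, .ofNat 0),
    (.ofNat 3, .negSucc 1, .ofNat 0), (.ofNat 3, .ofNat 0, .negSucc 1),
    (.ofNat 3, .ofNat 0, .ofNat 2), (.ofNat 3, .ofNat 2, .ofNat 0)]),
  ((.ofNat 0, .ofNat 2, .ofNat 5), [
    (.ofNat 0, .ofNat 2, .negSucc 4), (.ofNat 0, .ofNat 2, .ofNat 5),
    (.ofNat 0, .ofNat 5, .negSucc 1), (.ofNat 0, .ofNat 5, .ofNat 2),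
    (.ofNat 2, .negSucc 4, .ofNat 0), (.ofNat 2, .ofNat 0, .negSucc 4),
    (.ofNat 2, .ofNat 0, .ofNat 5), (.ofNat 2, .ofNat 5, .ofNat 0),
    (.ofNat 5, .negSucc 1, .ofNat 0), (.ofNat 5, .ofNat 0, .negSucc 1),
    (.ofNat 5, .ofNat 0, .ofNat 2), (.ofNat 5, .ofNat 2, .ofNat 0)]),
  ((.ofNat 0, .ofNat 2, .ofNat 7), [
    (.ofNat 0, .ofNat 2, .negSucc 6), (.ofNat 0, .ofNat 2, .ofNat 7),
    (.ofNat 0, .ofNat 7, .negSucc 1), (.ofNat 0, .ofNat 7, .ofNat 2),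
    (.ofNat 2, .negSucc 6, .ofNat 0), (.ofNat 2, .ofNat 0, .negSucc 6),
    (.ofNat 2, .ofNat 0, .ofNat 7), (.ofNat 2, .ofNat 7, .ofNat 0),
    (.ofNat 7, .negSucc 1, .ofNat 0), (.ofNat 7, .ofNat 0, .negSucc 1),
    (.ofNat 7, .ofNat 0, .ofNat 2), (.ofNat 7, .ofNat 2, .ofNat 0)]),
  ((.ofNat 0, .ofNat 3, .ofNat 4), [
    (.ofNat 0, .ofNat 3, .negSucc 3), (.ofNat 0, .ofNat 3, .ofNat 4),
    (.ofNat 0, .ofNat 4, .negSucc 2), (.ofNat 0, .ofNat 4, .ofNat 3),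
    (.ofNat 3, .negSucc 3, .ofNat 0), (.ofNat 3, .ofNat 0, .negSucc 3),
    (.ofNat 3, .ofNat 0, .ofNat 4), (.ofNat 3, .ofNat 4, .ofNat 0),
    (.ofNat 4, .negSucc 2, .ofNat 0), (.ofNat 4, .ofNat 0, .negSucc 2),
    (.ofNat 4, .ofNat 0, .ofNat 3), (.ofNat 4, .ofNat 3, .ofNat 0)]),
  ((.ofNat 0, .ofNat 3, .ofNat 5), [
    (.ofNat 0, .ofNat 3, .negSucc 4), (.ofNat 0, .ofNat 3, .ofNat 5),
    (.ofNat 0, .ofNat 5, .negSucc 2), (.ofNat 0, .ofNat 5, .ofNat 3),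
    (.ofNat 3, .negSucc 4, .ofNat 0), (.ofNat 3, .ofNat 0, .negSucc 4),
    (.ofNat 3, .ofNat 0, .ofNat 5), (.ofNat 3, .ofNat 5, .ofNat 0),
    (.ofNat 5, .negSucc 2, .ofNat 0), (.ofNat 5, .ofNat 0, .negSucc 2),
    (.ofNat 5, .ofNat 0, .ofNat 3), (.ofNat 5, .ofNat 3, .ofNat 0)]),
  ((.ofNat 0, .ofNat 3, .ofNat 7), [
    (.ofNat 0, .ofNat 3, .negSucc 6), (.ofNat 0, .ofNat 3, .ofNat 7),
    (.ofNat 0, .ofNat 7, .negSucc 2), (.ofNat 0, .ofNat 7, .ofNat 3),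
    (.ofNat 3, .negSucc 6, .ofNat 0), (.ofNat 3, .ofNat 0, .negSucc 6),
    (.ofNat 3, .ofNat 0, .ofNat 7), (.ofNat 3, .ofNat 7, .ofNat 0),
    (.ofNat 7, .negSucc 2, .ofNat 0), (.ofNat 7, .ofNat 0, .negSucc 2),
    (.ofNat 7, .ofNat 0, .ofNat 3), (.ofNat 7, .ofNat 3, .ofNat 0)]),
  ((.ofNat 0, .ofNat 3, .ofNat 8), [
    (.ofNat 0, .ofNat 3, .negSucc 7), (.ofNat 0, .ofNat 3, .ofNat 8),
    (.ofNat 0, .ofNat 8, .negSucc 2), (.ofNat 0, .ofNat 8, .ofNat 3),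
    (.ofNat 3, .negSucc 7, .ofNat 0), (.ofNat 3, .ofNat 0, .negSucc 7),
    (.ofNat 3, .ofNat 0, .ofNat 8), (.ofNat 3, .ofNat 8, .ofNat 0),
    (.ofNat 8, .negSucc 2, .ofNat 0), (.ofNat 8, .ofNat 0, .negSucc 2),
    (.ofNat 8, .ofNat 0, .ofNat 3), (.ofNat 8, .ofNat 3, .ofNat 0)]),
  ((.ofNat 0, .ofNat 4, .ofNat 5), [
    (.ofNat 0, .ofNat 4, .negSucc 4), (.ofNat 0, .ofNat 4, .ofNat 5),
    (.ofNat 0, .ofNat 5, .negSucc 3), (.ofNat 0, .ofNat 5, .ofNat 4),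
    (.ofNat 4, .negSucc 4, .ofNat 0), (.ofNat 4, .ofNat 0, .negSucc 4),
    (.ofNat 4, .ofNat 0, .ofNat 5), (.ofNat 4, .ofNat 5, .ofNat 0),
    (.ofNat 5, .negSucc 3, .ofNat 0), (.ofNat 5, .ofNat 0, .negSucc 3),
    (.ofNat 5, .ofNat 0, .ofNat 4), (.ofNat 5, .ofNat 4, .ofNat 0)]),
  ((.ofNat 0, .ofNat 4, .ofNat 7), [
    (.ofNat 0, .ofNat 4, .negSucc 6), (.ofNat 0, .ofNat 4, .ofNat 7),
    (.ofNat 0, .ofNat 7, .negSucc 3), (.ofNat 0, .ofNat 7, .ofNat 4),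
    (.ofNat 4, .negSucc 6, .ofNat 0), (.ofNat 4, .ofNat 0, .negSucc 6),
    (.ofNat 4, .ofNat 0, .ofNat 7), (.ofNat 4, .ofNat 7, .ofNat 0),
    (.ofNat 7, .negSucc 3, .ofNat 0), (.ofNat 7, .ofNat 0, .negSucc 3),
    (.ofNat 7, .ofNat 0, .ofNat 4), (.ofNat 7, .ofNat 4, .ofNat 0)]),
  ((.ofNat 0, .ofNat 5, .ofNat 6), [
    (.ofNat 0, .ofNat 5, .negSucc 5), (.ofNat 0, .ofNat 5, .ofNat 6),
    (.ofNat 0, .ofNat 6, .negSucc 4), (.ofNat 0, .ofNat 6, .ofNat 5),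
    (.ofNat 5, .negSucc 5, .ofNat 0), (.ofNat 5, .ofNat 0, .negSucc 5),
    (.ofNat 5, .ofNat 0, .ofNat 6), (.ofNat 5, .ofNat 6, .ofNat 0),
    (.ofNat 6, .negSucc 4, .ofNat 0), (.ofNat 6, .ofNat 0, .negSucc 4),
    (.ofNat 6, .ofNat 0, .ofNat 5), (.ofNat 6, .ofNat 5, .ofNat 0)]),
  ((.ofNat 0, .ofNat 5, .ofNat 7), [
    (.ofNat 0, .ofNat 5, .negSucc 6), (.ofNat 0, .ofNat 5, .ofNat 7),
    (.ofNat 0, .ofNat 7, .negSucc 4), (.ofNat 0, .ofNat 7, .ofNat 5),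
    (.ofNat 5, .negSucc 6, .ofNat 0), (.ofNat 5, .ofNat 0, .negSucc 6),
    (.ofNat 5, .ofNat 0, .ofNat 7), (.ofNat 5, .ofNat 7, .ofNat 0),
    (.ofNat 7, .negSucc 4, .ofNat 0), (.ofNat 7, .ofNat 0, .negSucc 4),
    (.ofNat 7, .ofNat 0, .ofNat 5), (.ofNat 7, .ofNat 5, .ofNat 0)]),
  ((.ofNat 1, .ofNat 1, .ofNat 1), [
    (.ofNat 1, .negSucc 0, .negSucc 0), (.ofNat 1, .negSucc 0, .ofNat 1),
    (.ofNat 1, .ofNat 1, .negSucc 0), (.ofNat 1, .ofNat 1, .ofNat 1)]),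
  ((.ofNat 1, .ofNat 1, .ofNat 2), [
    (.ofNat 1, .negSucc 1, .negSucc 0), (.ofNat 1, .negSucc 1, .ofNat 1),
    (.ofNat 1, .negSucc 0, .negSucc 1), (.ofNat 1, .negSucc 0, .ofNat 2),
    (.ofNat 1, .ofNat 1, .negSucc 1), (.ofNat 1, .ofNat 1, .ofNat 2),
    (.ofNat 1, .ofNat 2, .negSucc 0), (.ofNat 1, .ofNat 2, .ofNat 1),
    (.ofNat 2, .negSucc 0, .negSucc 0), (.ofNat 2, .negSucc 0, .ofNat 1),
    (.ofNat 2, .ofNat 1, .negSucc 0), (.ofNat 2, .ofNat 1, .ofNat 1)]),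
  ((.ofNat 1, .ofNat 1, .ofNat 3), [
    (.ofNat 1, .negSucc 2, .negSucc 0), (.ofNat 1, .negSucc 2, .ofNat 1),
    (.ofNat 1, .negSucc 0, .negSucc 2), (.ofNat 1, .negSucc 0, .ofNat 3),
    (.ofNat 1, .ofNat 1, .negSucc 2), (.ofNat 1, .ofNat 1, .ofNat 3),
    (.ofNat 1, .ofNat 3, .negSucc 0), (.ofNat 1, .ofNat 3, .ofNat 1),
    (.ofNat 3, .negSucc 0, .negSucc 0), (.ofNat 3, .negSucc 0, .ofNat 1),
    (.ofNat 3, .ofNat 1, .negSucc 0), (.ofNat 3, .ofNat 1, .ofNat 1)]),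
  ((.ofNat 1, .ofNat 1, .ofNat 4), [
    (.ofNat 1, .negSucc 3, .negSucc 0), (.ofNat 1, .negSucc 3, .ofNat 1),
    (.ofNat 1, .negSucc 0, .negSucc 3), (.ofNat 1, .negSucc 0, .ofNat 4),
    (.ofNat 1, .ofNat 1, .negSucc 3), (.ofNat 1, .ofNat 1, .ofNat 4),
    (.ofNat 1, .ofNat 4, .negSucc 0), (.ofNat 1, .ofNat 4, .ofNat 1),
    (.ofNat 4, .negSucc 0, .negSucc 0), (.ofNat 4, .negSucc 0, .ofNat 1),
    (.ofNat 4, .ofNat 1, .negSucc 0), (.ofNat 4, .ofNat 1, .ofNat 1)]),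
  ((.ofNat 1, .ofNat 1, .ofNat 5), [
    (.ofNat 1, .negSucc 4, .negSucc 0), (.ofNat 1, .negSucc 4, .ofNat 1),
    (.ofNat 1, .negSucc 0, .negSucc 4), (.ofNat 1, .negSucc 0, .ofNat 5),
    (.ofNat 1, .ofNat 1, .negSucc 4), (.ofNat 1, .ofNat 1, .ofNat 5),
    (.ofNat 1, .ofNat 5, .negSucc 0), (.ofNat 1, .ofNat 5, .ofNat 1),
    (.ofNat 5, .negSucc 0, .negSucc 0), (.ofNat 5, .negSucc 0, .ofNat 1),
    (.ofNat 5, .ofNat 1, .negSucc 0), (.ofNat 5, .ofNat 1, .ofNat 1)]),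
  ((.ofNat 1, .ofNat 1, .ofNat 6), [
    (.ofNat 1, .negSucc 5, .negSucc 0), (.ofNat 1, .negSucc 5, .ofNat 1),
    (.ofNat 1, .negSucc 0, .negSucc 5), (.ofNat 1, .negSucc 0, .ofNat 6),
    (.ofNat 1, .ofNat 1, .negSucc 5), (.ofNat 1, .ofNat 1, .ofNat 6),
    (.ofNat 1, .ofNat 6, .negSucc 0), (.ofNat 1, .ofNat 6, .ofNat 1),
    (.ofNat 6, .negSucc 0, .negSucc 0), (.ofNat 6, .negSucc 0, .ofNat 1),
    (.ofNat 6, .ofNat 1, .negSucc 0), (.ofNat 6, .ofNat 1, .ofNat 1)]),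
  ((.ofNat 1, .ofNat 1, .ofNat 7), [
    (.ofNat 1, .negSucc 6, .negSucc 0), (.ofNat 1, .negSucc 6, .ofNat 1),
    (.ofNat 1, .negSucc 0, .negSucc 6), (.ofNat 1, .negSucc 0, .ofNat 7),
    (.ofNat 1, .ofNat 1, .negSucc 6), (.ofNat 1, .ofNat 1, .ofNat 7),
    (.ofNat 1, .ofNat 7, .negSucc 0), (.ofNat 1, .ofNat 7, .ofNat 1),
    (.ofNat 7, .negSucc 0, .negSucc 0), (.ofNat 7, .negSucc 0, .ofNat 1),
    (.ofNat 7, .ofNat 1, .negSucc 0), (.ofNat 7, .ofNat 1, .ofNat 1)]),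
  ((.ofNat 1, .ofNat 1, .ofNat 8), [
    (.ofNat 1, .negSucc 7, .negSucc 0), (.ofNat 1, .negSucc 7, .ofNat 1),
    (.ofNat 1, .negSucc 0, .negSucc 7), (.ofNat 1, .negSucc 0, .ofNat 8),
    (.ofNat 1, .ofNat 1, .negSucc 7), (.ofNat 1, .ofNat 1, .ofNat 8),
    (.ofNat 1, .ofNat 8, .negSucc 0), (.ofNat 1, .ofNat 8, .ofNat 1),
    (.ofNat 8, .negSucc 0, .negSucc 0), (.ofNat 8, .negSucc 0, .ofNat 1),
    (.ofNat 8, .ofNat 1, .negSucc 0), (.ofNat 8, .ofNat 1, .ofNat 1)]),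
  ((.ofNat 1, .ofNat 1, .ofNat 9), [
    (.ofNat 1, .negSucc 8, .negSucc 0), (.ofNat 1, .negSucc 8, .ofNat 1),
    (.ofNat 1, .negSucc 0, .negSucc 8), (.ofNat 1, .negSucc 0, .ofNat 9),
    (.ofNat 1, .ofNat 1, .negSucc 8), (.ofNat 1, .ofNat 1, .ofNat 9),
    (.ofNat 1, .ofNat 9, .negSucc 0), (.ofNat 1, .ofNat 9, .ofNat 1),
    (.ofNat 9, .negSucc 0, .negSucc 0), (.ofNat 9, .negSucc 0, .ofNat 1),
    (.ofNat 9, .ofNat 1, .negSucc 0), (.ofNat 9, .ofNat 1, .ofNat 1)]),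
  ((.ofNat 1, .ofNat 1, .ofNat 11), [
    (.ofNat 1, .negSucc 10, .negSucc 0), (.ofNat 1, .negSucc 10, .ofNat 1),
    (.ofNat 1, .negSucc 0, .negSucc 10), (.ofNat 1, .negSucc 0, .ofNat 11),
    (.ofNat 1, .ofNat 1, .negSucc 10), (.ofNat 1, .ofNat 1, .ofNat 11),
    (.ofNat 1, .ofNat 11, .negSucc 0), (.ofNat 1, .ofNat 11, .ofNat 1),
    (.ofNat 11, .negSucc 0, .negSucc 0), (.ofNat 11, .negSucc 0, .ofNat 1),
    (.ofNat 11, .ofNat 1, .negSucc 0), (.ofNat 11, .ofNat 1, .ofNat 1)]),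
  ((.ofNat 1, .ofNat 1, .ofNat 13), [
    (.ofNat 1, .negSucc 12, .negSucc 0), (.ofNat 1, .negSucc 12, .ofNat 1),
    (.ofNat 1, .negSucc 0, .negSucc 12), (.ofNat 1, .negSucc 0, .ofNat 13),
    (.ofNat 1, .ofNat 1, .negSucc 12), (.ofNat 1, .ofNat 1, .ofNat 13),
    (.ofNat 1, .ofNat 13, .negSucc 0), (.ofNat 1, .ofNat 13, .ofNat 1),
    (.ofNat 13, .negSucc 0, .negSucc 0), (.ofNat 13, .negSucc 0, .ofNat 1),
    (.ofNat 13, .ofNat 1, .negSucc 0), (.ofNat 13, .ofNat 1, .ofNat 1)]),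
  ((.ofNat 1, .ofNat 1, .ofNat 15), [
    (.ofNat 1, .negSucc 14, .negSucc 0), (.ofNat 1, .negSucc 14, .ofNat 1),
    (.ofNat 1, .negSucc 0, .negSucc 14), (.ofNat 1, .negSucc 0, .ofNat 15),
    (.ofNat 1, .ofNat 1, .negSucc 14), (.ofNat 1, .ofNat 1, .ofNat 15),
    (.ofNat 1, .ofNat 15, .negSucc 0), (.ofNat 1, .ofNat 15, .ofNat 1),
    (.ofNat 15, .negSucc 0, .negSucc 0), (.ofNat 15, .negSucc 0, .ofNat 1),
    (.ofNat 15, .ofNat 1, .negSucc 0), (.ofNat 15, .ofNat 1, .ofNat 1)]),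
  ((.ofNat 1, .ofNat 1, .ofNat 17), [
    (.ofNat 1, .negSucc 16, .negSucc 0), (.ofNat 1, .negSucc 16, .ofNat 1),
    (.ofNat 1, .negSucc 0, .negSucc 16), (.ofNat 1, .negSucc 0, .ofNat 17),
    (.ofNat 1, .ofNat 1, .negSucc 16), (.ofNat 1, .ofNat 1, .ofNat 17),
    (.ofNat 1, .ofNat 17, .negSucc 0), (.ofNat 1, .ofNat 17, .ofNat 1),
    (.ofNat 17, .negSucc 0, .negSucc 0), (.ofNat 17, .negSucc 0, .ofNat 1),
    (.ofNat 17, .ofNat 1, .negSucc 0), (.ofNat 17, .ofNat 1, .ofNat 1)]),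
  ((.ofNat 1, .ofNat 2, .ofNat 2), [
    (.ofNat 1, .negSucc 1, .negSucc 1), (.ofNat 1, .negSucc 1, .ofNat 2),
    (.ofNat 1, .ofNat 2, .negSucc 1), (.ofNat 1, .ofNat 2, .ofNat 2),
    (.ofNat 2, .negSucc 1, .negSucc 0), (.ofNat 2, .negSucc 1, .ofNat 1),
    (.ofNat 2, .negSucc 0, .negSucc 1), (.ofNat 2, .negSucc 0, .ofNat 2),
    (.ofNat 2, .ofNat 1, .negSucc 1), (.ofNat 2, .ofNat 1, .ofNat 2),
    (.ofNat 2, .ofNat 2, .negSucc 0), (.ofNat 2, .ofNat 2, .ofNat 1)]),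
  ((.ofNat 1, .ofNat 2, .ofNat 3), [
    (.ofNat 1, .negSucc 2, .negSucc 1), (.ofNat 1, .negSucc 2, .ofNat 2),
    (.ofNat 1, .negSucc 1, .negSucc 2), (.ofNat 1, .negSucc 1, .ofNat 3),
    (.ofNat 1, .ofNat 2, .negSucc 2), (.ofNat 1, .ofNat 2, .ofNat 3),
    (.ofNat 1, .ofNat 3, .negSucc 1), (.ofNat 1, .ofNat 3, .ofNat 2),
    (.ofNat 2, .negSucc 2, .negSucc 0), (.ofNat 2, .negSucc 2, .ofNat 1),
    (.ofNat 2, .negSucc 0, .negSucc 2), (.ofNat 2, .negSucc 0, .ofNat 3),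
    (.ofNat 2, .ofNat 1, .negSucc 2), (.ofNat 2, .ofNat 1, .ofNat 3),
    (.ofNat 2, .ofNat 3, .negSucc 0), (.ofNat 2, .ofNat 3, .ofNat 1),
    (.ofNat 3, .negSucc 1, .negSucc 0), (.ofNat 3, .negSucc 1, .ofNat 1),
    (.ofNat 3, .negSucc 0, .negSucc 1), (.ofNat 3, .negSucc 0, .ofNat 2),
    (.ofNat 3, .ofNat 1, .negSucc 1), (.ofNat 3, .ofNat 1, .ofNat 2),
    (.ofNat 3, .ofNat 2, .negSucc 0), (.ofNat 3, .ofNat 2, .ofNat 1)]),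
  ((.ofNat 1, .ofNat 2, .ofNat 4), [
    (.ofNat 1, .negSucc 3, .negSucc 1), (.ofNat 1, .negSucc 3, .ofNat 2),
    (.ofNat 1, .negSucc 1, .negSucc 3), (.ofNat 1, .negSucc 1, .ofNat 4),
    (.ofNat 1, .ofNat 2, .negSucc 3), (.ofNat 1, .ofNat 2, .ofNat 4),
    (.ofNat 1, .ofNat 4, .negSucc 1), (.ofNat 1, .ofNat 4, .ofNat 2),
    (.ofNat 2, .negSucc 3, .negSucc 0), (.ofNat 2, .negSucc 3, .ofNat 1),
    (.ofNat 2, .negSucc 0, .negSucc 3), (.ofNat 2, .negSucc 0, .ofNat 4),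
    (.ofNat 2, .ofNat 1, .negSucc 3), (.ofNat 2, .ofNat 1, .ofNat 4),
    (.ofNat 2, .ofNat 4, .negSucc 0), (.ofNat 2, .ofNat 4, .ofNat 1),
    (.ofNat 4, .negSucc 1, .negSucc 0), (.ofNat 4, .negSucc 1, .ofNat 1),
    (.ofNat 4, .negSucc 0, .negSucc 1), (.ofNat 4, .negSucc 0, .ofNat 2),
    (.ofNat 4, .ofNat 1, .negSucc 1), (.ofNat 4, .ofNat 1, .ofNat 2),
    (.ofNat 4, .ofNat 2, .negSucc 0), (.ofNat 4, .ofNat 2, .ofNat 1)]),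
  ((.ofNat 1, .ofNat 2, .ofNat 5), [
    (.ofNat 1, .negSucc 4, .negSucc 1), (.ofNat 1, .negSucc 4, .ofNat 2),
    (.ofNat 1, .negSucc 1, .negSucc 4), (.ofNat 1, .negSucc 1, .ofNat 5),
    (.ofNat 1, .ofNat 2, .negSucc 4), (.ofNat 1, .ofNat 2, .ofNat 5),
    (.ofNat 1, .ofNat 5, .negSucc 1), (.ofNat 1, .ofNat 5, .ofNat 2),
    (.ofNat 2, .negSucc 4, .negSucc 0), (.ofNat 2, .negSucc 4, .ofNat 1),
    (.ofNat 2, .negSucc 0, .negSucc 4), (.ofNat 2, .negSucc 0, .ofNat 5),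
    (.ofNat 2, .ofNat 1, .negSucc 4), (.ofNat 2, .ofNat 1, .ofNat 5),
    (.ofNat 2, .ofNat 5, .negSucc 0), (.ofNat 2, .ofNat 5, .ofNat 1),
    (.ofNat 5, .negSucc 1, .negSucc 0), (.ofNat 5, .negSucc 1, .ofNat 1),
    (.ofNat 5, .negSucc 0, .negSucc 1), (.ofNat 5, .negSucc 0, .ofNat 2),
    (.ofNat 5, .ofNat 1, .negSucc 1), (.ofNat 5, .ofNat 1, .ofNat 2),
    (.ofNat 5, .ofNat 2, .negSucc 0), (.ofNat 5, .ofNat 2, .ofNat 1)]),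
  ((.ofNat 1, .ofNat 2, .ofNat 6), [
    (.ofNat 1, .negSucc 5, .negSucc 1), (.ofNat 1, .negSucc 5, .ofNat 2),
    (.ofNat 1, .negSucc 1, .negSucc 5), (.ofNat 1, .negSucc 1, .ofNat 6),
    (.ofNat 1, .ofNat 2, .negSucc 5), (.ofNat 1, .ofNat 2, .ofNat 6),
    (.ofNat 1, .ofNat 6, .negSucc 1), (.ofNat 1, .ofNat 6, .ofNat 2),
    (.ofNat 2, .negSucc 5, .negSucc 0), (.ofNat 2, .negSucc 5, .ofNat 1),
    (.ofNat 2, .negSucc 0, .negSucc 5), (.ofNat 2, .negSucc 0, .ofNat 6),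
    (.ofNat 2, .ofNat 1, .negSucc 5), (.ofNat 2, .ofNat 1, .ofNat 6),
    (.ofNat 2, .ofNat 6, .negSucc 0), (.ofNat 2, .ofNat 6, .ofNat 1),
    (.ofNat 6, .negSucc 1, .negSucc 0), (.ofNat 6, .negSucc 1, .ofNat 1),
    (.ofNat 6, .negSucc 0, .negSucc 1), (.ofNat 6, .negSucc 0, .ofNat 2),
    (.ofNat 6, .ofNat 1, .negSucc 1), (.ofNat 6, .ofNat 1, .ofNat 2),
    (.ofNat 6, .ofNat 2, .negSucc 0), (.ofNat 6, .ofNat 2, .ofNat 1)]),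
  ((.ofNat 1, .ofNat 2, .ofNat 7), [
    (.ofNat 1, .negSucc 6, .negSucc 1), (.ofNat 1, .negSucc 6, .ofNat 2),
    (.ofNat 1, .negSucc 1, .negSucc 6), (.ofNat 1, .negSucc 1, .ofNat 7),
    (.ofNat 1, .ofNat 2, .negSucc 6), (.ofNat 1, .ofNat 2, .ofNat 7),
    (.ofNat 1, .ofNat 7, .negSucc 1), (.ofNat 1, .ofNat 7, .ofNat 2),
    (.ofNat 2, .negSucc 6, .negSucc 0), (.ofNat 2, .negSucc 6, .ofNat 1),
    (.ofNat 2, .negSucc 0, .negSucc 6), (.ofNat 2, .negSucc 0, .ofNat 7),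
    (.ofNat 2, .ofNat 1, .negSucc 6), (.ofNat 2, .ofNat 1, .ofNat 7),
    (.ofNat 2, .ofNat 7, .negSucc 0), (.ofNat 2, .ofNat 7, .ofNat 1),
    (.ofNat 7, .negSucc 1, .negSucc 0), (.ofNat 7, .negSucc 1, .ofNat 1),
    (.ofNat 7, .negSucc 0, .negSucc 1), (.ofNat 7, .negSucc 0, .ofNat 2),
    (.ofNat 7, .ofNat 1, .negSucc 1), (.ofNat 7, .ofNat 1, .ofNat 2),
    (.ofNat 7, .ofNat 2, .negSucc 0), (.ofNat 7, .ofNat 2, .ofNat 1)]),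
  ((.ofNat 1, .ofNat 2, .ofNat 8), [
    (.ofNat 1, .negSucc 7, .negSucc 1), (.ofNat 1, .negSucc 7, .ofNat 2),
    (.ofNat 1, .negSucc 1, .negSucc 7), (.ofNat 1, .negSucc 1, .ofNat 8),
    (.ofNat 1, .ofNat 2, .negSucc 7), (.ofNat 1, .ofNat 2, .ofNat 8),
    (.ofNat 1, .ofNat 8, .negSucc 1), (.ofNat 1, .ofNat 8, .ofNat 2),
    (.ofNat 2, .negSucc 7, .negSucc 0), (.ofNat 2, .negSucc 7, .ofNat 1),
    (.ofNat 2, .negSucc 0, .negSucc 7), (.ofNat 2, .negSucc 0, .ofNat 8),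
    (.ofNat 2, .ofNat 1, .negSucc 7), (.ofNat 2, .ofNat 1, .ofNat 8),
    (.ofNat 2, .ofNat 8, .negSucc 0), (.ofNat 2, .ofNat 8, .ofNat 1),
    (.ofNat 8, .negSucc 1, .negSucc 0), (.ofNat 8, .negSucc 1, .ofNat 1),
    (.ofNat 8, .negSucc 0, .negSucc 1), (.ofNat 8, .negSucc 0, .ofNat 2),
    (.ofNat 8, .ofNat 1, .negSucc 1), (.ofNat 8, .ofNat 1, .ofNat 2),
    (.ofNat 8, .ofNat 2, .negSucc 0), (.ofNat 8, .ofNat 2, .ofNat 1)]),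
  ((.ofNat 1, .ofNat 3, .ofNat 3), [
    (.ofNat 1, .negSucc 2, .negSucc 2), (.ofNat 1, .negSucc 2, .ofNat 3),
    (.ofNat 1, .ofNat 3, .negSucc 2), (.ofNat 1, .ofNat 3, .ofNat 3),
    (.ofNat 3, .negSucc 2, .negSucc 0), (.ofNat 3, .negSucc 2, .ofNat 1),
    (.ofNat 3, .negSucc 0, .negSucc 2), (.ofNat 3, .negSucc 0, .ofNat 3),
    (.ofNat 3, .ofNat 1, .negSucc 2), (.ofNat 3, .ofNat 1, .ofNat 3),
    (.ofNat 3, .ofNat 3, .negSucc 0), (.ofNat 3, .ofNat 3, .ofNat 1)]),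
  ((.ofNat 1, .ofNat 3, .ofNat 4), [
    (.ofNat 1, .negSucc 3, .negSucc 2), (.ofNat 1, .negSucc 3, .ofNat 3),
    (.ofNat 1, .negSucc 2, .negSucc 3), (.ofNat 1, .negSucc 2, .ofNat 4),
    (.ofNat 1, .ofNat 3, .negSucc 3), (.ofNat 1, .ofNat 3, .ofNat 4),
    (.ofNat 1, .ofNat 4, .negSucc 2), (.ofNat 1, .ofNat 4, .ofNat 3),
    (.ofNat 3, .negSucc 3, .negSucc 0), (.ofNat 3, .negSucc 3, .ofNat 1),
    (.ofNat 3, .negSucc 0, .negSucc 3), (.ofNat 3, .negSucc 0, .ofNat 4),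
    (.ofNat 3, .ofNat 1, .negSucc 3), (.ofNat 3, .ofNat 1, .ofNat 4),
    (.ofNat 3, .ofNat 4, .negSucc 0), (.ofNat 3, .ofNat 4, .ofNat 1),
    (.ofNat 4, .negSucc 2, .negSucc 0), (.ofNat 4, .negSucc 2, .ofNat 1),
    (.ofNat 4, .negSucc 0, .negSucc 2), (.ofNat 4, .negSucc 0, .ofNat 3),
    (.ofNat 4, .ofNat 1, .negSucc 2), (.ofNat 4, .ofNat 1, .ofNat 3),
    (.ofNat 4, .ofNat 3, .negSucc 0), (.ofNat 4, .ofNat 3, .ofNat 1)]),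
  ((.ofNat 1, .ofNat 3, .ofNat 5), [
    (.ofNat 1, .negSucc 4, .negSucc 2), (.ofNat 1, .negSucc 4, .ofNat 3),
    (.ofNat 1, .negSucc 2, .negSucc 4), (.ofNat 1, .negSucc 2, .ofNat 5),
    (.ofNat 1, .ofNat 3, .negSucc 4), (.ofNat 1, .ofNat 3, .ofNat 5),
    (.ofNat 1, .ofNat 5, .negSucc 2), (.ofNat 1, .ofNat 5, .ofNat 3),
    (.ofNat 3, .negSucc 4, .negSucc 0), (.ofNat 3, .negSucc 4, .ofNat 1),
    (.ofNat 3, .negSucc 0, .negSucc 4), (.ofNat 3, .negSucc 0, .ofNat 5),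
    (.ofNat 3, .ofNat 1, .negSucc 4), (.ofNat 3, .ofNat 1, .ofNat 5),
    (.ofNat 3, .ofNat 5, .negSucc 0), (.ofNat 3, .ofNat 5, .ofNat 1),
    (.ofNat 5, .negSucc 2, .negSucc 0), (.ofNat 5, .negSucc 2, .ofNat 1),
    (.ofNat 5, .negSucc 0, .negSucc 2), (.ofNat 5, .negSucc 0, .ofNat 3),
    (.ofNat 5, .ofNat 1, .negSucc 2), (.ofNat 5, .ofNat 1, .ofNat 3),
    (.ofNat 5, .ofNat 3, .negSucc 0), (.ofNat 5, .ofNat 3, .ofNat 1)]),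
  ((.ofNat 1, .ofNat 3, .ofNat 6), [
    (.ofNat 1, .negSucc 5, .negSucc 2), (.ofNat 1, .negSucc 5, .ofNat 3),
    (.ofNat 1, .negSucc 2, .negSucc 5), (.ofNat 1, .negSucc 2, .ofNat 6),
    (.ofNat 1, .ofNat 3, .negSucc 5), (.ofNat 1, .ofNat 3, .ofNat 6),
    (.ofNat 1, .ofNat 6, .negSucc 2), (.ofNat 1, .ofNat 6, .ofNat 3),
    (.ofNat 3, .negSucc 5, .negSucc 0), (.ofNat 3, .negSucc 5, .ofNat 1),
    (.ofNat 3, .negSucc 0, .negSucc 5), (.ofNat 3, .negSucc 0, .ofNat 6),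
    (.ofNat 3, .ofNat 1, .negSucc 5), (.ofNat 3, .ofNat 1, .ofNat 6),
    (.ofNat 3, .ofNat 6, .negSucc 0), (.ofNat 3, .ofNat 6, .ofNat 1),
    (.ofNat 6, .negSucc 2, .negSucc 0), (.ofNat 6, .negSucc 2, .ofNat 1),
    (.ofNat 6, .negSucc 0, .negSucc 2), (.ofNat 6, .negSucc 0, .ofNat 3),
    (.ofNat 6, .ofNat 1, .negSucc 2), (.ofNat 6, .ofNat 1, .ofNat 3),
    (.ofNat 6, .ofNat 3, .negSucc 0), (.ofNat 6, .ofNat 3, .ofNat 1)]),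
  ((.ofNat 1, .ofNat 3, .ofNat 7), [
    (.ofNat 1, .negSucc 6, .negSucc 2), (.ofNat 1, .negSucc 6, .ofNat 3),
    (.ofNat 1, .negSucc 2, .negSucc 6), (.ofNat 1, .negSucc 2, .ofNat 7),
    (.ofNat 1, .ofNat 3, .negSucc 6), (.ofNat 1, .ofNat 3, .ofNat 7),
    (.ofNat 1, .ofNat 7, .negSucc 2), (.ofNat 1, .ofNat 7, .ofNat 3),
    (.ofNat 3, .negSucc 6, .negSucc 0), (.ofNat 3, .negSucc 6, .ofNat 1),
    (.ofNat 3, .negSucc 0, .negSucc 6), (.ofNat 3, .negSucc 0, .ofNat 7),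
    (.ofNat 3, .ofNat 1, .negSucc 6), (.ofNat 3, .ofNat 1, .ofNat 7),
    (.ofNat 3, .ofNat 7, .negSucc 0), (.ofNat 3, .ofNat 7, .ofNat 1),
    (.ofNat 7, .negSucc 2, .negSucc 0), (.ofNat 7, .negSucc 2, .ofNat 1),
    (.ofNat 7, .negSucc 0, .negSucc 2), (.ofNat 7, .negSucc 0, .ofNat 3),
    (.ofNat 7, .ofNat 1, .negSucc 2), (.ofNat 7, .ofNat 1, .ofNat 3),
    (.ofNat 7, .ofNat 3, .negSucc 0), (.ofNat 7, .ofNat 3, .ofNat 1)]),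
  ((.ofNat 1, .ofNat 3, .ofNat 8), [
    (.ofNat 1, .negSucc 7, .negSucc 2), (.ofNat 1, .negSucc 7, .ofNat 3),
    (.ofNat 1, .negSucc 2, .negSucc 7), (.ofNat 1, .negSucc 2, .ofNat 8),
    (.ofNat 1, .ofNat 3, .negSucc 7), (.ofNat 1, .ofNat 3, .ofNat 8),
    (.ofNat 1, .ofNat 8, .negSucc 2), (.ofNat 1, .ofNat 8, .ofNat 3),
    (.ofNat 3, .negSucc 7, .negSucc 0), (.ofNat 3, .negSucc 7, .ofNat 1),
    (.ofNat 3, .negSucc 0, .negSucc 7), (.ofNat 3, .negSucc 0, .ofNat 8),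
    (.ofNat 3, .ofNat 1, .negSucc 7), (.ofNat 3, .ofNat 1, .ofNat 8),
    (.ofNat 3, .ofNat 8, .negSucc 0), (.ofNat 3, .ofNat 8, .ofNat 1),
    (.ofNat 8, .negSucc 2, .negSucc 0), (.ofNat 8, .negSucc 2, .ofNat 1),
    (.ofNat 8, .negSucc 0, .negSucc 2), (.ofNat 8, .negSucc 0, .ofNat 3),
    (.ofNat 8, .ofNat 1, .negSucc 2), (.ofNat 8, .ofNat 1, .ofNat 3),
    (.ofNat 8, .ofNat 3, .negSucc 0), (.ofNat 8, .ofNat 3, .ofNat 1)]),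
  ((.ofNat 1, .ofNat 3, .ofNat 9), [
    (.ofNat 1, .negSucc 8, .negSucc 2), (.ofNat 1, .negSucc 8, .ofNat 3),
    (.ofNat 1, .negSucc 2, .negSucc 8), (.ofNat 1, .negSucc 2, .ofNat 9),
    (.ofNat 1, .ofNat 3, .negSucc 8), (.ofNat 1, .ofNat 3, .ofNat 9),
    (.ofNat 1, .ofNat 9, .negSucc 2), (.ofNat 1, .ofNat 9, .ofNat 3),
    (.ofNat 3, .negSucc 8, .negSucc 0), (.ofNat 3, .negSucc 8, .ofNat 1),
    (.ofNat 3, .negSucc 0, .negSucc 8), (.ofNat 3, .negSucc 0, .ofNat 9),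
    (.ofNat 3, .ofNat 1, .negSucc 8), (.ofNat 3, .ofNat 1, .ofNat 9),
    (.ofNat 3, .ofNat 9, .negSucc 0), (.ofNat 3, .ofNat 9, .ofNat 1),
    (.ofNat 9, .negSucc 2, .negSucc 0), (.ofNat 9, .negSucc 2, .ofNat 1),
    (.ofNat 9, .negSucc 0, .negSucc 2), (.ofNat 9, .negSucc 0, .ofNat 3),
    (.ofNat 9, .ofNat 1, .negSucc 2), (.ofNat 9, .ofNat 1, .ofNat 3),
    (.ofNat 9, .ofNat 3, .negSucc 0), (.ofNat 9, .ofNat 3, .ofNat 1)]),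
  ((.ofNat 1, .ofNat 3, .ofNat 11), [
    (.ofNat 1, .negSucc 10, .negSucc 2), (.ofNat 1, .negSucc 10, .ofNat 3),
    (.ofNat 1, .negSucc 2, .negSucc 10), (.ofNat 1, .negSucc 2, .ofNat 11),
    (.ofNat 1, .ofNat 3, .negSucc 10), (.ofNat 1, .ofNat 3, .ofNat 11),
    (.ofNat 1, .ofNat 11, .negSucc 2), (.ofNat 1, .ofNat 11, .ofNat 3),
    (.ofNat 3, .negSucc 10, .negSucc 0), (.ofNat 3, .negSucc 10, .ofNat 1),
    (.ofNat 3, .negSucc 0, .negSucc 10), (.ofNat 3, .negSucc 0, .ofNat 11),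
    (.ofNat 3, .ofNat 1, .negSucc 10), (.ofNat 3, .ofNat 1, .ofNat 11),
    (.ofNat 3, .ofNat 11, .negSucc 0), (.ofNat 3, .ofNat 11, .ofNat 1),
    (.ofNat 11, .negSucc 2, .negSucc 0), (.ofNat 11, .negSucc 2, .ofNat 1),
    (.ofNat 11, .negSucc 0, .negSucc 2), (.ofNat 11, .negSucc 0, .ofNat 3),
    (.ofNat 11, .ofNat 1, .negSucc 2), (.ofNat 11, .ofNat 1, .ofNat 3),
    (.ofNat 11, .ofNat 3, .negSucc 0), (.ofNat 11, .ofNat 3, .ofNat 1)]),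
  ((.ofNat 1, .ofNat 3, .ofNat 13), [
    (.ofNat 1, .negSucc 12, .negSucc 2), (.ofNat 1, .negSucc 12, .ofNat 3),
    (.ofNat 1, .negSucc 2, .negSucc 12), (.ofNat 1, .negSucc 2, .ofNat 13),
    (.ofNat 1, .ofNat 3, .negSucc 12), (.ofNat 1, .ofNat 3, .ofNat 13),
    (.ofNat 1, .ofNat 13, .negSucc 2), (.ofNat 1, .ofNat 13, .ofNat 3),
    (.ofNat 3, .negSucc 12, .negSucc 0), (.ofNat 3, .negSucc 12, .ofNat 1),
    (.ofNat 3, .negSucc 0, .negSucc 12), (.ofNat 3, .negSucc 0, .ofNat 13),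
    (.ofNat 3, .ofNat 1, .negSucc 12), (.ofNat 3, .ofNat 1, .ofNat 13),
    (.ofNat 3, .ofNat 13, .negSucc 0), (.ofNat 3, .ofNat 13, .ofNat 1),
    (.ofNat 13, .negSucc 2, .negSucc 0), (.ofNat 13, .negSucc 2, .ofNat 1),
    (.ofNat 13, .negSucc 0, .negSucc 2), (.ofNat 13, .negSucc 0, .ofNat 3),
    (.ofNat 13, .ofNat 1, .negSucc 2), (.ofNat 13, .ofNat 1, .ofNat 3),
    (.ofNat 13, .ofNat 3, .negSucc 0), (.ofNat 13, .ofNat 3, .ofNat 1)]),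
  ((.ofNat 1, .ofNat 3, .ofNat 15), [
    (.ofNat 1, .negSucc 14, .negSucc 2), (.ofNat 1, .negSucc 14, .ofNat 3),
    (.ofNat 1, .negSucc 2, .negSucc 14), (.ofNat 1, .negSucc 2, .ofNat 15),
    (.ofNat 1, .ofNat 3, .negSucc 14), (.ofNat 1, .ofNat 3, .ofNat 15),
    (.ofNat 1, .ofNat 15, .negSucc 2), (.ofNat 1, .ofNat 15, .ofNat 3),
    (.ofNat 3, .negSucc 14, .negSucc 0), (.ofNat 3, .negSucc 14, .ofNat 1),
    (.ofNat 3, .negSucc 0, .negSucc 14), (.ofNat 3, .negSucc 0, .ofNat 15),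
    (.ofNat 3, .ofNat 1, .negSucc 14), (.ofNat 3, .ofNat 1, .ofNat 15),
    (.ofNat 3, .ofNat 15, .negSucc 0), (.ofNat 3, .ofNat 15, .ofNat 1),
    (.ofNat 15, .negSucc 2, .negSucc 0), (.ofNat 15, .negSucc 2, .ofNat 1),
    (.ofNat 15, .negSucc 0, .negSucc 2), (.ofNat 15, .negSucc 0, .ofNat 3),
    (.ofNat 15, .ofNat 1, .negSucc 2), (.ofNat 15, .ofNat 1, .ofNat 3),
    (.ofNat 15, .ofNat 3, .negSucc 0), (.ofNat 15, .ofNat 3, .ofNat 1)]),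
  ((.ofNat 1, .ofNat 3, .ofNat 17), [
    (.ofNat 1, .negSucc 16, .negSucc 2), (.ofNat 1, .negSucc 16, .ofNat 3),
    (.ofNat 1, .negSucc 2, .negSucc 16), (.ofNat 1, .negSucc 2, .ofNat 17),
    (.ofNat 1, .ofNat 3, .negSucc 16), (.ofNat 1, .ofNat 3, .ofNat 17),
    (.ofNat 1, .ofNat 17, .negSucc 2), (.ofNat 1, .ofNat 17, .ofNat 3),
    (.ofNat 3, .negSucc 16, .negSucc 0), (.ofNat 3, .negSucc 16, .ofNat 1),
    (.ofNat 3, .negSucc 0, .negSucc 16), (.ofNat 3, .negSucc 0, .ofNat 17),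
    (.ofNat 3, .ofNat 1, .negSucc 16), (.ofNat 3, .ofNat 1, .ofNat 17),
    (.ofNat 3, .ofNat 17, .negSucc 0), (.ofNat 3, .ofNat 17, .ofNat 1),
    (.ofNat 17, .negSucc 2, .negSucc 0), (.ofNat 17, .negSucc 2, .ofNat 1),
    (.ofNat 17, .negSucc 0, .negSucc 2), (.ofNat 17, .negSucc 0, .ofNat 3),
    (.ofNat 17, .ofNat 1, .negSucc 2), (.ofNat 17, .ofNat 1, .ofNat 3),
    (.ofNat 17, .ofNat 3, .negSucc 0), (.ofNat 17, .ofNat 3, .ofNat 1)]),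
  ((.ofNat 1, .ofNat 4, .ofNat 4), [
    (.ofNat 1, .negSucc 3, .negSucc 3), (.ofNat 1, .negSucc 3, .ofNat 4),
    (.ofNat 1, .ofNat 4, .negSucc 3), (.ofNat 1, .ofNat 4, .ofNat 4),
    (.ofNat 4, .negSucc 3, .negSucc 0), (.ofNat 4, .negSucc 3, .ofNat 1),
    (.ofNat 4, .negSucc 0, .negSucc 3), (.ofNat 4, .negSucc 0, .ofNat 4),
    (.ofNat 4, .ofNat 1, .negSucc 3), (.ofNat 4, .ofNat 1, .ofNat 4),
    (.ofNat 4, .ofNat 4, .negSucc 0), (.ofNat 4, .ofNat 4, .ofNat 1)]),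
  ((.ofNat 1, .ofNat 4, .ofNat 5), [
    (.ofNat 1, .negSucc 4, .negSucc 3), (.ofNat 1, .negSucc 4, .ofNat 4),
    (.ofNat 1, .negSucc 3, .negSucc 4), (.ofNat 1, .negSucc 3, .ofNat 5),
    (.ofNat 1, .ofNat 4, .negSucc 4), (.ofNat 1, .ofNat 4, .ofNat 5),
    (.ofNat 1, .ofNat 5, .negSucc 3), (.ofNat 1, .ofNat 5, .ofNat 4),
    (.ofNat 4, .negSucc 4, .negSucc 0), (.ofNat 4, .negSucc 4, .ofNat 1),
    (.ofNat 4, .negSucc 0, .negSucc 4), (.ofNat 4, .negSucc 0, .ofNat 5),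
    (.ofNat 4, .ofNat 1, .negSucc 4), (.ofNat 4, .ofNat 1, .ofNat 5),
    (.ofNat 4, .ofNat 5, .negSucc 0), (.ofNat 4, .ofNat 5, .ofNat 1),
    (.ofNat 5, .negSucc 3, .negSucc 0), (.ofNat 5, .negSucc 3, .ofNat 1),
    (.ofNat 5, .negSucc 0, .negSucc 3), (.ofNat 5, .negSucc 0, .ofNat 4),
    (.ofNat 5, .ofNat 1, .negSucc 3), (.ofNat 5, .ofNat 1, .ofNat 4),
    (.ofNat 5, .ofNat 4, .negSucc 0), (.ofNat 5, .ofNat 4, .ofNat 1)]),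
  ((.ofNat 1, .ofNat 4, .ofNat 6), [
    (.ofNat 1, .negSucc 5, .negSucc 3), (.ofNat 1, .negSucc 5, .ofNat 4),
    (.ofNat 1, .negSucc 3, .negSucc 5), (.ofNat 1, .negSucc 3, .ofNat 6),
    (.ofNat 1, .ofNat 4, .negSucc 5), (.ofNat 1, .ofNat 4, .ofNat 6),
    (.ofNat 1, .ofNat 6, .negSucc 3), (.ofNat 1, .ofNat 6, .ofNat 4),
    (.ofNat 4, .negSucc 5, .negSucc 0), (.ofNat 4, .negSucc 5, .ofNat 1),
    (.ofNat 4, .negSucc 0, .negSucc 5), (.ofNat 4, .negSucc 0, .ofNat 6),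
    (.ofNat 4, .ofNat 1, .negSucc 5), (.ofNat 4, .ofNat 1, .ofNat 6),
    (.ofNat 4, .ofNat 6, .negSucc 0), (.ofNat 4, .ofNat 6, .ofNat 1),
    (.ofNat 6, .negSucc 3, .negSucc 0), (.ofNat 6, .negSucc 3, .ofNat 1),
    (.ofNat 6, .negSucc 0, .negSucc 3), (.ofNat 6, .negSucc 0, .ofNat 4),
    (.ofNat 6, .ofNat 1, .negSucc 3), (.ofNat 6, .ofNat 1, .ofNat 4),
    (.ofNat 6, .ofNat 4, .negSucc 0), (.ofNat 6, .ofNat 4, .ofNat 1)]),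
  ((.ofNat 1, .ofNat 4, .ofNat 7), [
    (.ofNat 1, .negSucc 6, .negSucc 3), (.ofNat 1, .negSucc 6, .ofNat 4),
    (.ofNat 1, .negSucc 3, .negSucc 6), (.ofNat 1, .negSucc 3, .ofNat 7),
    (.ofNat 1, .ofNat 4, .negSucc 6), (.ofNat 1, .ofNat 4, .ofNat 7),
    (.ofNat 1, .ofNat 7, .negSucc 3), (.ofNat 1, .ofNat 7, .ofNat 4),
    (.ofNat 4, .negSucc 6, .negSucc 0), (.ofNat 4, .negSucc 6, .ofNat 1),
    (.ofNat 4, .negSucc 0, .negSucc 6), (.ofNat 4, .negSucc 0, .ofNat 7),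
    (.ofNat 4, .ofNat 1, .negSucc 6), (.ofNat 4, .ofNat 1, .ofNat 7),
    (.ofNat 4, .ofNat 7, .negSucc 0), (.ofNat 4, .ofNat 7, .ofNat 1),
    (.ofNat 7, .negSucc 3, .negSucc 0), (.ofNat 7, .negSucc 3, .ofNat 1),
    (.ofNat 7, .negSucc 0, .negSucc 3), (.ofNat 7, .negSucc 0, .ofNat 4),
    (.ofNat 7, .ofNat 1, .negSucc 3), (.ofNat 7, .ofNat 1, .ofNat 4),
    (.ofNat 7, .ofNat 4, .negSucc 0), (.ofNat 7, .ofNat 4, .ofNat 1)]),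
  ((.ofNat 1, .ofNat 5, .ofNat 5), [
    (.ofNat 1, .negSucc 4, .negSucc 4), (.ofNat 1, .negSucc 4, .ofNat 5),
    (.ofNat 1, .ofNat 5, .negSucc 4), (.ofNat 1, .ofNat 5, .ofNat 5),
    (.ofNat 5, .negSucc 4, .negSucc 0), (.ofNat 5, .negSucc 4, .ofNat 1),
    (.ofNat 5, .negSucc 0, .negSucc 4), (.ofNat 5, .negSucc 0, .ofNat 5),
    (.ofNat 5, .ofNat 1, .negSucc 4), (.ofNat 5, .ofNat 1, .ofNat 5),
    (.ofNat 5, .ofNat 5, .negSucc 0), (.ofNat 5, .ofNat 5, .ofNat 1)]),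
  ((.ofNat 1, .ofNat 5, .ofNat 6), [
    (.ofNat 1, .negSucc 5, .negSucc 4), (.ofNat 1, .negSucc 5, .ofNat 5),
    (.ofNat 1, .negSucc 4, .negSucc 5), (.ofNat 1, .negSucc 4, .ofNat 6),
    (.ofNat 1, .ofNat 5, .negSucc 5), (.ofNat 1, .ofNat 5, .ofNat 6),
    (.ofNat 1, .ofNat 6, .negSucc 4), (.ofNat 1, .ofNat 6, .ofNat 5),
    (.ofNat 5, .negSucc 5, .negSucc 0), (.ofNat 5, .negSucc 5, .ofNat 1),
    (.ofNat 5, .negSucc 0, .negSucc 5), (.ofNat 5, .negSucc 0, .ofNat 6),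
    (.ofNat 5, .ofNat 1, .negSucc 5), (.ofNat 5, .ofNat 1, .ofNat 6),
    (.ofNat 5, .ofNat 6, .negSucc 0), (.ofNat 5, .ofNat 6, .ofNat 1),
    (.ofNat 6, .negSucc 4, .negSucc 0), (.ofNat 6, .negSucc 4, .ofNat 1),
    (.ofNat 6, .negSucc 0, .negSucc 4), (.ofNat 6, .negSucc 0, .ofNat 5),
    (.ofNat 6, .ofNat 1, .negSucc 4), (.ofNat 6, .ofNat 1, .ofNat 5),
    (.ofNat 6, .ofNat 5, .negSucc 0), (.ofNat 6, .ofNat 5, .ofNat 1)]),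
  ((.ofNat 1, .ofNat 5, .ofNat 7), [
    (.ofNat 1, .negSucc 6, .negSucc 4), (.ofNat 1, .negSucc 6, .ofNat 5),
    (.ofNat 1, .negSucc 4, .negSucc 6), (.ofNat 1, .negSucc 4, .ofNat 7),
    (.ofNat 1, .ofNat 5, .negSucc 6), (.ofNat 1, .ofNat 5, .ofNat 7),
    (.ofNat 1, .ofNat 7, .negSucc 4), (.ofNat 1, .ofNat 7, .ofNat 5),
    (.ofNat 5, .negSucc 6, .negSucc 0), (.ofNat 5, .negSucc 6, .ofNat 1),
    (.ofNat 5, .negSucc 0, .negSucc 6), (.ofNat 5, .negSucc 0, .ofNat 7),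
    (.ofNat 5, .ofNat 1, .negSucc 6), (.ofNat 5, .ofNat 1, .ofNat 7),
    (.ofNat 5, .ofNat 7, .negSucc 0), (.ofNat 5, .ofNat 7, .ofNat 1),
    (.ofNat 7, .negSucc 4, .negSucc 0), (.ofNat 7, .negSucc 4, .ofNat 1),
    (.ofNat 7, .negSucc 0, .negSucc 4), (.ofNat 7, .negSucc 0, .ofNat 5),
    (.ofNat 7, .ofNat 1, .negSucc 4), (.ofNat 7, .ofNat 1, .ofNat 5),
    (.ofNat 7, .ofNat 5, .negSucc 0), (.ofNat 7, .ofNat 5, .ofNat 1)]),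
  ((.ofNat 1, .ofNat 5, .ofNat 9), [
    (.ofNat 1, .negSucc 8, .negSucc 4), (.ofNat 1, .negSucc 8, .ofNat 5),
    (.ofNat 1, .negSucc 4, .negSucc 8), (.ofNat 1, .negSucc 4, .ofNat 9),
    (.ofNat 1, .ofNat 5, .negSucc 8), (.ofNat 1, .ofNat 5, .ofNat 9),
    (.ofNat 1, .ofNat 9, .negSucc 4), (.ofNat 1, .ofNat 9, .ofNat 5),
    (.ofNat 5, .negSucc 8, .negSucc 0), (.ofNat 5, .negSucc 8, .ofNat 1),
    (.ofNat 5, .negSucc 0, .negSucc 8), (.ofNat 5, .negSucc 0, .ofNat 9),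
    (.ofNat 5, .ofNat 1, .negSucc 8), (.ofNat 5, .ofNat 1, .ofNat 9),
    (.ofNat 5, .ofNat 9, .negSucc 0), (.ofNat 5, .ofNat 9, .ofNat 1),
    (.ofNat 9, .negSucc 4, .negSucc 0), (.ofNat 9, .negSucc 4, .ofNat 1),
    (.ofNat 9, .negSucc 0, .negSucc 4), (.ofNat 9, .negSucc 0, .ofNat 5),
    (.ofNat 9, .ofNat 1, .negSucc 4), (.ofNat 9, .ofNat 1, .ofNat 5),
    (.ofNat 9, .ofNat 5, .negSucc 0), (.ofNat 9, .ofNat 5, .ofNat 1)]),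
  ((.ofNat 1, .ofNat 5, .ofNat 11), [
    (.ofNat 1, .negSucc 10, .negSucc 4), (.ofNat 1, .negSucc 10, .ofNat 5),
    (.ofNat 1, .negSucc 4, .negSucc 10), (.ofNat 1, .negSucc 4, .ofNat 11),
    (.ofNat 1, .ofNat 5, .negSucc 10), (.ofNat 1, .ofNat 5, .ofNat 11),
    (.ofNat 1, .ofNat 11, .negSucc 4), (.ofNat 1, .ofNat 11, .ofNat 5),
    (.ofNat 5, .negSucc 10, .negSucc 0), (.ofNat 5, .negSucc 10, .ofNat 1),
    (.ofNat 5, .negSucc 0, .negSucc 10), (.ofNat 5, .negSucc 0, .ofNat 11),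
    (.ofNat 5, .ofNat 1, .negSucc 10), (.ofNat 5, .ofNat 1, .ofNat 11),
    (.ofNat 5, .ofNat 11, .negSucc 0), (.ofNat 5, .ofNat 11, .ofNat 1),
    (.ofNat 11, .negSucc 4, .negSucc 0), (.ofNat 11, .negSucc 4, .ofNat 1),
    (.ofNat 11, .negSucc 0, .negSucc 4), (.ofNat 11, .negSucc 0, .ofNat 5),
    (.ofNat 11, .ofNat 1, .negSucc 4), (.ofNat 11, .ofNat 1, .ofNat 5),
    (.ofNat 11, .ofNat 5, .negSucc 0), (.ofNat 11, .ofNat 5, .ofNat 1)]),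
  ((.ofNat 1, .ofNat 5, .ofNat 13), [
    (.ofNat 1, .negSucc 12, .negSucc 4), (.ofNat 1, .negSucc 12, .ofNat 5),
    (.ofNat 1, .negSucc 4, .negSucc 12), (.ofNat 1, .negSucc 4, .ofNat 13),
    (.ofNat 1, .ofNat 5, .negSucc 12), (.ofNat 1, .ofNat 5, .ofNat 13),
    (.ofNat 1, .ofNat 13, .negSucc 4), (.ofNat 1, .ofNat 13, .ofNat 5),
    (.ofNat 5, .negSucc 12, .negSucc 0), (.ofNat 5, .negSucc 12, .ofNat 1),
    (.ofNat 5, .negSucc 0, .negSucc 12), (.ofNat 5, .negSucc 0, .ofNat 13),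
    (.ofNat 5, .ofNat 1, .negSucc 12), (.ofNat 5, .ofNat 1, .ofNat 13),
    (.ofNat 5, .ofNat 13, .negSucc 0), (.ofNat 5, .ofNat 13, .ofNat 1),
    (.ofNat 13, .negSucc 4, .negSucc 0), (.ofNat 13, .negSucc 4, .ofNat 1),
    (.ofNat 13, .negSucc 0, .negSucc 4), (.ofNat 13, .negSucc 0, .ofNat 5),
    (.ofNat 13, .ofNat 1, .negSucc 4), (.ofNat 13, .ofNat 1, .ofNat 5),
    (.ofNat 13, .ofNat 5, .negSucc 0), (.ofNat 13, .ofNat 5, .ofNat 1)]),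
  ((.ofNat 1, .ofNat 5, .ofNat 15), [
    (.ofNat 1, .negSucc 14, .negSucc 4), (.ofNat 1, .negSucc 14, .ofNat 5),
    (.ofNat 1, .negSucc 4, .negSucc 14), (.ofNat 1, .negSucc 4, .ofNat 15),
    (.ofNat 1, .ofNat 5, .negSucc 14), (.ofNat 1, .ofNat 5, .ofNat 15),
    (.ofNat 1, .ofNat 15, .negSucc 4), (.ofNat 1, .ofNat 15, .ofNat 5),
    (.ofNat 5, .negSucc 14, .negSucc 0), (.ofNat 5, .negSucc 14, .ofNat 1),
    (.ofNat 5, .negSucc 0, .negSucc 14), (.ofNat 5, .negSucc 0, .ofNat 15),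
    (.ofNat 5, .ofNat 1, .negSucc 14), (.ofNat 5, .ofNat 1, .ofNat 15),
    (.ofNat 5, .ofNat 15, .negSucc 0), (.ofNat 5, .ofNat 15, .ofNat 1),
    (.ofNat 15, .negSucc 4, .negSucc 0), (.ofNat 15, .negSucc 4, .ofNat 1),
    (.ofNat 15, .negSucc 0, .negSucc 4), (.ofNat 15, .negSucc 0, .ofNat 5),
    (.ofNat 15, .ofNat 1, .negSucc 4), (.ofNat 15, .ofNat 1, .ofNat 5),
    (.ofNat 15, .ofNat 5, .negSucc 0), (.ofNat 15, .ofNat 5, .ofNat 1)]),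
  ((.ofNat 1, .ofNat 6, .ofNat 6), [
    (.ofNat 1, .negSucc 5, .negSucc 5), (.ofNat 1, .negSucc 5, .ofNat 6),
    (.ofNat 1, .ofNat 6, .negSucc 5), (.ofNat 1, .ofNat 6, .ofNat 6),
    (.ofNat 6, .negSucc 5, .negSucc 0), (.ofNat 6, .negSucc 5, .ofNat 1),
    (.ofNat 6, .negSucc 0, .negSucc 5), (.ofNat 6, .negSucc 0, .ofNat 6),
    (.ofNat 6, .ofNat 1, .negSucc 5), (.ofNat 6, .ofNat 1, .ofNat 6),
    (.ofNat 6, .ofNat 6, .negSucc 0), (.ofNat 6, .ofNat 6, .ofNat 1)]),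
  ((.ofNat 1, .ofNat 7, .ofNat 7), [
    (.ofNat 1, .negSucc 6, .negSucc 6), (.ofNat 1, .negSucc 6, .ofNat 7),
    (.ofNat 1, .ofNat 7, .negSucc 6), (.ofNat 1, .ofNat 7, .ofNat 7),
    (.ofNat 7, .negSucc 6, .negSucc 0), (.ofNat 7, .negSucc 6, .ofNat 1),
    (.ofNat 7, .negSucc 0, .negSucc 6), (.ofNat 7, .negSucc 0, .ofNat 7),
    (.ofNat 7, .ofNat 1, .negSucc 6), (.ofNat 7, .ofNat 1, .ofNat 7),
    (.ofNat 7, .ofNat 7, .negSucc 0), (.ofNat 7, .ofNat 7, .ofNat 1)]),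
  ((.ofNat 1, .ofNat 7, .ofNat 9), [
    (.ofNat 1, .negSucc 8, .negSucc 6), (.ofNat 1, .negSucc 8, .ofNat 7),
    (.ofNat 1, .negSucc 6, .negSucc 8), (.ofNat 1, .negSucc 6, .ofNat 9),
    (.ofNat 1, .ofNat 7, .negSucc 8), (.ofNat 1, .ofNat 7, .ofNat 9),
    (.ofNat 1, .ofNat 9, .negSucc 6), (.ofNat 1, .ofNat 9, .ofNat 7),
    (.ofNat 7, .negSucc 8, .negSucc 0), (.ofNat 7, .negSucc 8, .ofNat 1),
    (.ofNat 7, .negSucc 0, .negSucc 8), (.ofNat 7, .negSucc 0, .ofNat 9),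
    (.ofNat 7, .ofNat 1, .negSucc 8), (.ofNat 7, .ofNat 1, .ofNat 9),
    (.ofNat 7, .ofNat 9, .negSucc 0), (.ofNat 7, .ofNat 9, .ofNat 1),
    (.ofNat 9, .negSucc 6, .negSucc 0), (.ofNat 9, .negSucc 6, .ofNat 1),
    (.ofNat 9, .negSucc 0, .negSucc 6), (.ofNat 9, .negSucc 0, .ofNat 7),
    (.ofNat 9, .ofNat 1, .negSucc 6), (.ofNat 9, .ofNat 1, .ofNat 7),
    (.ofNat 9, .ofNat 7, .negSucc 0), (.ofNat 9, .ofNat 7, .ofNat 1)]),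
  ((.ofNat 1, .ofNat 7, .ofNat 11), [
    (.ofNat 1, .negSucc 10, .negSucc 6), (.ofNat 1, .negSucc 10, .ofNat 7),
    (.ofNat 1, .negSucc 6, .negSucc 10), (.ofNat 1, .negSucc 6, .ofNat 11),
    (.ofNat 1, .ofNat 7, .negSucc 10), (.ofNat 1, .ofNat 7, .ofNat 11),
    (.ofNat 1, .ofNat 11, .negSucc 6), (.ofNat 1, .ofNat 11, .ofNat 7),
    (.ofNat 7, .negSucc 10, .negSucc 0), (.ofNat 7, .negSucc 10, .ofNat 1),
    (.ofNat 7, .negSucc 0, .negSucc 10), (.ofNat 7, .negSucc 0, .ofNat 11),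
    (.ofNat 7, .ofNat 1, .negSucc 10), (.ofNat 7, .ofNat 1, .ofNat 11),
    (.ofNat 7, .ofNat 11, .negSucc 0), (.ofNat 7, .ofNat 11, .ofNat 1),
    (.ofNat 11, .negSucc 6, .negSucc 0), (.ofNat 11, .negSucc 6, .ofNat 1),
    (.ofNat 11, .negSucc 0, .negSucc 6), (.ofNat 11, .negSucc 0, .ofNat 7),
    (.ofNat 11, .ofNat 1, .negSucc 6), (.ofNat 11, .ofNat 1, .ofNat 7),
    (.ofNat 11, .ofNat 7, .negSucc 0), (.ofNat 11, .ofNat 7, .ofNat 1)]),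
  ((.ofNat 1, .ofNat 7, .ofNat 13), [
    (.ofNat 1, .negSucc 12, .negSucc 6), (.ofNat 1, .negSucc 12, .ofNat 7),
    (.ofNat 1, .negSucc 6, .negSucc 12), (.ofNat 1, .negSucc 6, .ofNat 13),
    (.ofNat 1, .ofNat 7, .negSucc 12), (.ofNat 1, .ofNat 7, .ofNat 13),
    (.ofNat 1, .ofNat 13, .negSucc 6), (.ofNat 1, .ofNat 13, .ofNat 7),
    (.ofNat 7, .negSucc 12, .negSucc 0), (.ofNat 7, .negSucc 12, .ofNat 1),
    (.ofNat 7, .negSucc 0, .negSucc 12), (.ofNat 7, .negSucc 0, .ofNat 13),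
    (.ofNat 7, .ofNat 1, .negSucc 12), (.ofNat 7, .ofNat 1, .ofNat 13),
    (.ofNat 7, .ofNat 13, .negSucc 0), (.ofNat 7, .ofNat 13, .ofNat 1),
    (.ofNat 13, .negSucc 6, .negSucc 0), (.ofNat 13, .negSucc 6, .ofNat 1),
    (.ofNat 13, .negSucc 0, .negSucc 6), (.ofNat 13, .negSucc 0, .ofNat 7),
    (.ofNat 13, .ofNat 1, .negSucc 6), (.ofNat 13, .ofNat 1, .ofNat 7),
    (.ofNat 13, .ofNat 7, .negSucc 0), (.ofNat 13, .ofNat 7, .ofNat 1)]),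
  ((.ofNat 1, .ofNat 7, .ofNat 15), [
    (.ofNat 1, .negSucc 14, .negSucc 6), (.ofNat 1, .negSucc 14, .ofNat 7),
    (.ofNat 1, .negSucc 6, .negSucc 14), (.ofNat 1, .negSucc 6, .ofNat 15),
    (.ofNat 1, .ofNat 7, .negSucc 14), (.ofNat 1, .ofNat 7, .ofNat 15),
    (.ofNat 1, .ofNat 15, .negSucc 6), (.ofNat 1, .ofNat 15, .ofNat 7),
    (.ofNat 7, .negSucc 14, .negSucc 0), (.ofNat 7, .negSucc 14, .ofNat 1),
    (.ofNat 7, .negSucc 0, .negSucc 14), (.ofNat 7, .negSucc 0, .ofNat 15),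
    (.ofNat 7, .ofNat 1, .negSucc 14), (.ofNat 7, .ofNat 1, .ofNat 15),
    (.ofNat 7, .ofNat 15, .negSucc 0), (.ofNat 7, .ofNat 15, .ofNat 1),
    (.ofNat 15, .negSucc 6, .negSucc 0), (.ofNat 15, .negSucc 6, .ofNat 1),
    (.ofNat 15, .negSucc 0, .negSucc 6), (.ofNat 15, .negSucc 0, .ofNat 7),
    (.ofNat 15, .ofNat 1, .negSucc 6), (.ofNat 15, .ofNat 1, .ofNat 7),
    (.ofNat 15, .ofNat 7, .negSucc 0), (.ofNat 15, .ofNat 7, .ofNat 1)]),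
  ((.ofNat 1, .ofNat 9, .ofNat 9), [
    (.ofNat 1, .negSucc 8, .negSucc 8), (.ofNat 1, .negSucc 8, .ofNat 9),
    (.ofNat 1, .ofNat 9, .negSucc 8), (.ofNat 1, .ofNat 9, .ofNat 9),
    (.ofNat 9, .negSucc 8, .negSucc 0), (.ofNat 9, .negSucc 8, .ofNat 1),
    (.ofNat 9, .negSucc 0, .negSucc 8), (.ofNat 9, .negSucc 0, .ofNat 9),
    (.ofNat 9, .ofNat 1, .negSucc 8), (.ofNat 9, .ofNat 1, .ofNat 9),
    (.ofNat 9, .ofNat 9, .negSucc 0), (.ofNat 9, .ofNat 9, .ofNat 1)]),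
  ((.ofNat 1, .ofNat 9, .ofNat 11), [
    (.ofNat 1, .negSucc 10, .negSucc 8), (.ofNat 1, .negSucc 10, .ofNat 9),
    (.ofNat 1, .negSucc 8, .negSucc 10), (.ofNat 1, .negSucc 8, .ofNat 11),
    (.ofNat 1, .ofNat 9, .negSucc 10), (.ofNat 1, .ofNat 9, .ofNat 11),
    (.ofNat 1, .ofNat 11, .negSucc 8), (.ofNat 1, .ofNat 11, .ofNat 9),
    (.ofNat 9, .negSucc 10, .negSucc 0), (.ofNat 9, .negSucc 10, .ofNat 1),
    (.ofNat 9, .negSucc 0, .negSucc 10), (.ofNat 9, .negSucc 0, .ofNat 11),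
    (.ofNat 9, .ofNat 1, .negSucc 10), (.ofNat 9, .ofNat 1, .ofNat 11),
    (.ofNat 9, .ofNat 11, .negSucc 0), (.ofNat 9, .ofNat 11, .ofNat 1),
    (.ofNat 11, .negSucc 8, .negSucc 0), (.ofNat 11, .negSucc 8, .ofNat 1),
    (.ofNat 11, .negSucc 0, .negSucc 8), (.ofNat 11, .negSucc 0, .ofNat 9),
    (.ofNat 11, .ofNat 1, .negSucc 8), (.ofNat 11, .ofNat 1, .ofNat 9),
    (.ofNat 11, .ofNat 9, .negSucc 0), (.ofNat 11, .ofNat 9, .ofNat 1)]),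
  ((.ofNat 1, .ofNat 9, .ofNat 13), [
    (.ofNat 1, .negSucc 12, .negSucc 8), (.ofNat 1, .negSucc 12, .ofNat 9),
    (.ofNat 1, .negSucc 8, .negSucc 12), (.ofNat 1, .negSucc 8, .ofNat 13),
    (.ofNat 1, .ofNat 9, .negSucc 12), (.ofNat 1, .ofNat 9, .ofNat 13),
    (.ofNat 1, .ofNat 13, .negSucc 8), (.ofNat 1, .ofNat 13, .ofNat 9),
    (.ofNat 9, .negSucc 12, .negSucc 0), (.ofNat 9, .negSucc 12, .ofNat 1),
    (.ofNat 9, .negSucc 0, .negSucc 12), (.ofNat 9, .negSucc 0, .ofNat 13),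
    (.ofNat 9, .ofNat 1, .negSucc 12), (.ofNat 9, .ofNat 1, .ofNat 13),
    (.ofNat 9, .ofNat 13, .negSucc 0), (.ofNat 9, .ofNat 13, .ofNat 1),
    (.ofNat 13, .negSucc 8, .negSucc 0), (.ofNat 13, .negSucc 8, .ofNat 1),
    (.ofNat 13, .negSucc 0, .negSucc 8), (.ofNat 13, .negSucc 0, .ofNat 9),
    (.ofNat 13, .ofNat 1, .negSucc 8), (.ofNat 13, .ofNat 1, .ofNat 9),
    (.ofNat 13, .ofNat 9, .negSucc 0), (.ofNat 13, .ofNat 9, .ofNat 1)]),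
  ((.ofNat 1, .ofNat 11, .ofNat 11), [
    (.ofNat 1, .negSucc 10, .negSucc 10), (.ofNat 1, .negSucc 10, .ofNat 11),
    (.ofNat 1, .ofNat 11, .negSucc 10), (.ofNat 1, .ofNat 11, .ofNat 11),
    (.ofNat 11, .negSucc 10, .negSucc 0), (.ofNat 11, .negSucc 10, .ofNat 1),
    (.ofNat 11, .negSucc 0, .negSucc 10), (.ofNat 11, .negSucc 0, .ofNat 11),
    (.ofNat 11, .ofNat 1, .negSucc 10), (.ofNat 11, .ofNat 1, .ofNat 11),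
    (.ofNat 11, .ofNat 11, .negSucc 0), (.ofNat 11, .ofNat 11, .ofNat 1)]),
  ((.ofNat 1, .ofNat 11, .ofNat 13), [
    (.ofNat 1, .negSucc 12, .negSucc 10), (.ofNat 1, .negSucc 12, .ofNat 11),
    (.ofNat 1, .negSucc 10, .negSucc 12), (.ofNat 1, .negSucc 10, .ofNat 13),
    (.ofNat 1, .ofNat 11, .negSucc 12), (.ofNat 1, .ofNat 11, .ofNat 13),
    (.ofNat 1, .ofNat 13, .negSucc 10), (.ofNat 1, .ofNat 13, .ofNat 11),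
    (.ofNat 11, .negSucc 12, .negSucc 0), (.ofNat 11, .negSucc 12, .ofNat 1),
    (.ofNat 11, .negSucc 0, .negSucc 12), (.ofNat 11, .negSucc 0, .ofNat 13),
    (.ofNat 11, .ofNat 1, .negSucc 12), (.ofNat 11, .ofNat 1, .ofNat 13),
    (.ofNat 11, .ofNat 13, .negSucc 0), (.ofNat 11, .ofNat 13, .ofNat 1),
    (.ofNat 13, .negSucc 10, .negSucc 0), (.ofNat 13, .negSucc 10, .ofNat 1),
    (.ofNat 13, .negSucc 0, .negSucc 10), (.ofNat 13, .negSucc 0, .ofNat 11),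
    (.ofNat 13, .ofNat 1, .negSucc 10), (.ofNat 13, .ofNat 1, .ofNat 11),
    (.ofNat 13, .ofNat 11, .negSucc 0), (.ofNat 13, .ofNat 11, .ofNat 1)]),
  ((.ofNat 2, .ofNat 2, .ofNat 3), [
    (.ofNat 2, .negSucc 2, .negSucc 1), (.ofNat 2, .negSucc 2, .ofNat 2),
    (.ofNat 2, .negSucc 1, .negSucc 2), (.ofNat 2, .negSucc 1, .ofNat 3),
    (.ofNat 2, .ofNat 2, .negSucc 2), (.ofNat 2, .ofNat 2, .ofNat 3),
    (.ofNat 2, .ofNat 3, .negSucc 1), (.ofNat 2, .ofNat 3, .ofNat 2),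
    (.ofNat 3, .negSucc 1, .negSucc 1), (.ofNat 3, .negSucc 1, .ofNat 2),
    (.ofNat 3, .ofNat 2, .negSucc 1), (.ofNat 3, .ofNat 2, .ofNat 2)]),
  ((.ofNat 2, .ofNat 2, .ofNat 5), [
    (.ofNat 2, .negSucc 4, .negSucc 1), (.ofNat 2, .negSucc 4, .ofNat 2),
    (.ofNat 2, .negSucc 1, .negSucc 4), (.ofNat 2, .negSucc 1, .ofNat 5),
    (.ofNat 2, .ofNat 2, .negSucc 4), (.ofNat 2, .ofNat 2, .ofNat 5),
    (.ofNat 2, .ofNat 5, .negSucc 1), (.ofNat 2, .ofNat 5, .ofNat 2),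
    (.ofNat 5, .negSucc 1, .negSucc 1), (.ofNat 5, .negSucc 1, .ofNat 2),
    (.ofNat 5, .ofNat 2, .negSucc 1), (.ofNat 5, .ofNat 2, .ofNat 2)]),
  ((.ofNat 2, .ofNat 2, .ofNat 7), [
    (.ofNat 2, .negSucc 6, .negSucc 1), (.ofNat 2, .negSucc 6, .ofNat 2),
    (.ofNat 2, .negSucc 1, .negSucc 6), (.ofNat 2, .negSucc 1, .ofNat 7),
    (.ofNat 2, .ofNat 2, .negSucc 6), (.ofNat 2, .ofNat 2, .ofNat 7),
    (.ofNat 2, .ofNat 7, .negSucc 1), (.ofNat 2, .ofNat 7, .ofNat 2),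
    (.ofNat 7, .negSucc 1, .negSucc 1), (.ofNat 7, .negSucc 1, .ofNat 2),
    (.ofNat 7, .ofNat 2, .negSucc 1), (.ofNat 7, .ofNat 2, .ofNat 2)]),
  ((.ofNat 2, .ofNat 3, .ofNat 3), [
    (.ofNat 2, .negSucc 2, .negSucc 2), (.ofNat 2, .negSucc 2, .ofNat 3),
    (.ofNat 2, .ofNat 3, .negSucc 2), (.ofNat 2, .ofNat 3, .ofNat 3),
    (.ofNat 3, .negSucc 2, .negSucc 1), (.ofNat 3, .negSucc 2, .ofNat 2),
    (.ofNat 3, .negSucc 1, .negSucc 2), (.ofNat 3, .negSucc 1, .ofNat 3),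
    (.ofNat 3, .ofNat 2, .negSucc 2), (.ofNat 3, .ofNat 2, .ofNat 3),
    (.ofNat 3, .ofNat 3, .negSucc 1), (.ofNat 3, .ofNat 3, .ofNat 2)]),
  ((.ofNat 2, .ofNat 3, .ofNat 4), [
    (.ofNat 2, .negSucc 3, .negSucc 2), (.ofNat 2, .negSucc 3, .ofNat 3),
    (.ofNat 2, .negSucc 2, .negSucc 3), (.ofNat 2, .negSucc 2, .ofNat 4),
    (.ofNat 2, .ofNat 3, .negSucc 3), (.ofNat 2, .ofNat 3, .ofNat 4),
    (.ofNat 2, .ofNat 4, .negSucc 2), (.ofNat 2, .ofNat 4, .ofNat 3),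
    (.ofNat 3, .negSucc 3, .negSucc 1), (.ofNat 3, .negSucc 3, .ofNat 2),
    (.ofNat 3, .negSucc 1, .negSucc 3), (.ofNat 3, .negSucc 1, .ofNat 4),
    (.ofNat 3, .ofNat 2, .negSucc 3), (.ofNat 3, .ofNat 2, .ofNat 4),
    (.ofNat 3, .ofNat 4, .negSucc 1), (.ofNat 3, .ofNat 4, .ofNat 2),
    (.ofNat 4, .negSucc 2, .negSucc 1), (.ofNat 4, .negSucc 2, .ofNat 2),
    (.ofNat 4, .negSucc 1, .negSucc 2), (.ofNat 4, .negSucc 1, .ofNat 3),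
    (.ofNat 4, .ofNat 2, .negSucc 2), (.ofNat 4, .ofNat 2, .ofNat 3),
    (.ofNat 4, .ofNat 3, .negSucc 1), (.ofNat 4, .ofNat 3, .ofNat 2)]),
  ((.ofNat 2, .ofNat 3, .ofNat 5), [
    (.ofNat 2, .negSucc 4, .negSucc 2), (.ofNat 2, .negSucc 4, .ofNat 3),
    (.ofNat 2, .negSucc 2, .negSucc 4), (.ofNat 2, .negSucc 2, .ofNat 5),
    (.ofNat 2, .ofNat 3, .negSucc 4), (.ofNat 2, .ofNat 3, .ofNat 5),
    (.ofNat 2, .ofNat 5, .negSucc 2), (.ofNat 2, .ofNat 5, .ofNat 3),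
    (.ofNat 3, .negSucc 4, .negSucc 1), (.ofNat 3, .negSucc 4, .ofNat 2),
    (.ofNat 3, .negSucc 1, .negSucc 4), (.ofNat 3, .negSucc 1, .ofNat 5),
    (.ofNat 3, .ofNat 2, .negSucc 4), (.ofNat 3, .ofNat 2, .ofNat 5),
    (.ofNat 3, .ofNat 5, .negSucc 1), (.ofNat 3, .ofNat 5, .ofNat 2),
    (.ofNat 5, .negSucc 2, .negSucc 1), (.ofNat 5, .negSucc 2, .ofNat 2),
    (.ofNat 5, .negSucc 1, .negSucc 2), (.ofNat 5, .negSucc 1, .ofNat 3),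
    (.ofNat 5, .ofNat 2, .negSucc 2), (.ofNat 5, .ofNat 2, .ofNat 3),
    (.ofNat 5, .ofNat 3, .negSucc 1), (.ofNat 5, .ofNat 3, .ofNat 2)]),
  ((.ofNat 2, .ofNat 3, .ofNat 6), [
    (.ofNat 2, .negSucc 5, .negSucc 2), (.ofNat 2, .negSucc 5, .ofNat 3),
    (.ofNat 2, .negSucc 2, .negSucc 5), (.ofNat 2, .negSucc 2, .ofNat 6),
    (.ofNat 2, .ofNat 3, .negSucc 5), (.ofNat 2, .ofNat 3, .ofNat 6),
    (.ofNat 2, .ofNat 6, .negSucc 2), (.ofNat 2, .ofNat 6, .ofNat 3),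
    (.ofNat 3, .negSucc 5, .negSucc 1), (.ofNat 3, .negSucc 5, .ofNat 2),
    (.ofNat 3, .negSucc 1, .negSucc 5), (.ofNat 3, .negSucc 1, .ofNat 6),
    (.ofNat 3, .ofNat 2, .negSucc 5), (.ofNat 3, .ofNat 2, .ofNat 6),
    (.ofNat 3, .ofNat 6, .negSucc 1), (.ofNat 3, .ofNat 6, .ofNat 2),
    (.ofNat 6, .negSucc 2, .negSucc 1), (.ofNat 6, .negSucc 2, .ofNat 2),
    (.ofNat 6, .negSucc 1, .negSucc 2), (.ofNat 6, .negSucc 1, .ofNat 3),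
    (.ofNat 6, .ofNat 2, .negSucc 2), (.ofNat 6, .ofNat 2, .ofNat 3),
    (.ofNat 6, .ofNat 3, .negSucc 1), (.ofNat 6, .ofNat 3, .ofNat 2)]),
  ((.ofNat 2, .ofNat 3, .ofNat 7), [
    (.ofNat 2, .negSucc 6, .negSucc 2), (.ofNat 2, .negSucc 6, .ofNat 3),
    (.ofNat 2, .negSucc 2, .negSucc 6), (.ofNat 2, .negSucc 2, .ofNat 7),
    (.ofNat 2, .ofNat 3, .negSucc 6), (.ofNat 2, .ofNat 3, .ofNat 7),
    (.ofNat 2, .ofNat 7, .negSucc 2), (.ofNat 2, .ofNat 7, .ofNat 3),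
    (.ofNat 3, .negSucc 6, .negSucc 1), (.ofNat 3, .negSucc 6, .ofNat 2),
    (.ofNat 3, .negSucc 1, .negSucc 6), (.ofNat 3, .negSucc 1, .ofNat 7),
    (.ofNat 3, .ofNat 2, .negSucc 6), (.ofNat 3, .ofNat 2, .ofNat 7),
    (.ofNat 3, .ofNat 7, .negSucc 1), (.ofNat 3, .ofNat 7, .ofNat 2),
    (.ofNat 7, .negSucc 2, .negSucc 1), (.ofNat 7, .negSucc 2, .ofNat 2),
    (.ofNat 7, .negSucc 1, .negSucc 2), (.ofNat 7, .negSucc 1, .ofNat 3),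
    (.ofNat 7, .ofNat 2, .negSucc 2), (.ofNat 7, .ofNat 2, .ofNat 3),
    (.ofNat 7, .ofNat 3, .negSucc 1), (.ofNat 7, .ofNat 3, .ofNat 2)]),
  ((.ofNat 2, .ofNat 4, .ofNat 5), [
    (.ofNat 2, .negSucc 4, .negSucc 3), (.ofNat 2, .negSucc 4, .ofNat 4),
    (.ofNat 2, .negSucc 3, .negSucc 4), (.ofNat 2, .negSucc 3, .ofNat 5),
    (.ofNat 2, .ofNat 4, .negSucc 4), (.ofNat 2, .ofNat 4, .ofNat 5),
    (.ofNat 2, .ofNat 5, .negSucc 3), (.ofNat 2, .ofNat 5, .ofNat 4),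
    (.ofNat 4, .negSucc 4, .negSucc 1), (.ofNat 4, .negSucc 4, .ofNat 2),
    (.ofNat 4, .negSucc 1, .negSucc 4), (.ofNat 4, .negSucc 1, .ofNat 5),
    (.ofNat 4, .ofNat 2, .negSucc 4), (.ofNat 4, .ofNat 2, .ofNat 5),
    (.ofNat 4, .ofNat 5, .negSucc 1), (.ofNat 4, .ofNat 5, .ofNat 2),
    (.ofNat 5, .negSucc 3, .negSucc 1), (.ofNat 5, .negSucc 3, .ofNat 2),
    (.ofNat 5, .negSucc 1, .negSucc 3), (.ofNat 5, .negSucc 1, .ofNat 4),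
    (.ofNat 5, .ofNat 2, .negSucc 3), (.ofNat 5, .ofNat 2, .ofNat 4),
    (.ofNat 5, .ofNat 4, .negSucc 1), (.ofNat 5, .ofNat 4, .ofNat 2)]),
  ((.ofNat 2, .ofNat 4, .ofNat 7), [
    (.ofNat 2, .negSucc 6, .negSucc 3), (.ofNat 2, .negSucc 6, .ofNat 4),
    (.ofNat 2, .negSucc 3, .negSucc 6), (.ofNat 2, .negSucc 3, .ofNat 7),
    (.ofNat 2, .ofNat 4, .negSucc 6), (.ofNat 2, .ofNat 4, .ofNat 7),
    (.ofNat 2, .ofNat 7, .negSucc 3), (.ofNat 2, .ofNat 7, .ofNat 4),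
    (.ofNat 4, .negSucc 6, .negSucc 1), (.ofNat 4, .negSucc 6, .ofNat 2),
    (.ofNat 4, .negSucc 1, .negSucc 6), (.ofNat 4, .negSucc 1, .ofNat 7),
    (.ofNat 4, .ofNat 2, .negSucc 6), (.ofNat 4, .ofNat 2, .ofNat 7),
    (.ofNat 4, .ofNat 7, .negSucc 1), (.ofNat 4, .ofNat 7, .ofNat 2),
    (.ofNat 7, .negSucc 3, .negSucc 1), (.ofNat 7, .negSucc 3, .ofNat 2),
    (.ofNat 7, .negSucc 1, .negSucc 3), (.ofNat 7, .negSucc 1, .ofNat 4),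
    (.ofNat 7, .ofNat 2, .negSucc 3), (.ofNat 7, .ofNat 2, .ofNat 4),
    (.ofNat 7, .ofNat 4, .negSucc 1), (.ofNat 7, .ofNat 4, .ofNat 2)]),
  ((.ofNat 2, .ofNat 5, .ofNat 5), [
    (.ofNat 2, .negSucc 4, .negSucc 4), (.ofNat 2, .negSucc 4, .ofNat 5),
    (.ofNat 2, .ofNat 5, .negSucc 4), (.ofNat 2, .ofNat 5, .ofNat 5),
    (.ofNat 5, .negSucc 4, .negSucc 1), (.ofNat 5, .negSucc 4, .ofNat 2),
    (.ofNat 5, .negSucc 1, .negSucc 4), (.ofNat 5, .negSucc 1, .ofNat 5),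
    (.ofNat 5, .ofNat 2, .negSucc 4), (.ofNat 5, .ofNat 2, .ofNat 5),
    (.ofNat 5, .ofNat 5, .negSucc 1), (.ofNat 5, .ofNat 5, .ofNat 2)]),
  ((.ofNat 2, .ofNat 5, .ofNat 6), [
    (.ofNat 2, .negSucc 5, .negSucc 4), (.ofNat 2, .negSucc 5, .ofNat 5),
    (.ofNat 2, .negSucc 4, .negSucc 5), (.ofNat 2, .negSucc 4, .ofNat 6),
    (.ofNat 2, .ofNat 5, .negSucc 5), (.ofNat 2, .ofNat 5, .ofNat 6),
    (.ofNat 2, .ofNat 6, .negSucc 4), (.ofNat 2, .ofNat 6, .ofNat 5),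
    (.ofNat 5, .negSucc 5, .negSucc 1), (.ofNat 5, .negSucc 5, .ofNat 2),
    (.ofNat 5, .negSucc 1, .negSucc 5), (.ofNat 5, .negSucc 1, .ofNat 6),
    (.ofNat 5, .ofNat 2, .negSucc 5), (.ofNat 5, .ofNat 2, .ofNat 6),
    (.ofNat 5, .ofNat 6, .negSucc 1), (.ofNat 5, .ofNat 6, .ofNat 2),
    (.ofNat 6, .negSucc 4, .negSucc 1), (.ofNat 6, .negSucc 4, .ofNat 2),
    (.ofNat 6, .negSucc 1, .negSucc 4), (.ofNat 6, .negSucc 1, .ofNat 5),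
    (.ofNat 6, .ofNat 2, .negSucc 4), (.ofNat 6, .ofNat 2, .ofNat 5),
    (.ofNat 6, .ofNat 5, .negSucc 1), (.ofNat 6, .ofNat 5, .ofNat 2)]),
  ((.ofNat 3, .ofNat 3, .ofNat 4), [
    (.ofNat 3, .negSucc 3, .negSucc 2), (.ofNat 3, .negSucc 3, .ofNat 3),
    (.ofNat 3, .negSucc 2, .negSucc 3), (.ofNat 3, .negSucc 2, .ofNat 4),
    (.ofNat 3, .ofNat 3, .negSucc 3), (.ofNat 3, .ofNat 3, .ofNat 4),
    (.ofNat 3, .ofNat 4, .negSucc 2), (.ofNat 3, .ofNat 4, .ofNat 3),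
    (.ofNat 4, .negSucc 2, .negSucc 2), (.ofNat 4, .negSucc 2, .ofNat 3),
    (.ofNat 4, .ofNat 3, .negSucc 2), (.ofNat 4, .ofNat 3, .ofNat 3)]),
  ((.ofNat 3, .ofNat 3, .ofNat 5), [
    (.ofNat 3, .negSucc 4, .negSucc 2), (.ofNat 3, .negSucc 4, .ofNat 3),
    (.ofNat 3, .negSucc 2, .negSucc 4), (.ofNat 3, .negSucc 2, .ofNat 5),
    (.ofNat 3, .ofNat 3, .negSucc 4), (.ofNat 3, .ofNat 3, .ofNat 5),
    (.ofNat 3, .ofNat 5, .negSucc 2), (.ofNat 3, .ofNat 5, .ofNat 3),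
    (.ofNat 5, .negSucc 2, .negSucc 2), (.ofNat 5, .negSucc 2, .ofNat 3),
    (.ofNat 5, .ofNat 3, .negSucc 2), (.ofNat 5, .ofNat 3, .ofNat 3)]),
  ((.ofNat 3, .ofNat 3, .ofNat 7), [
    (.ofNat 3, .negSucc 6, .negSucc 2), (.ofNat 3, .negSucc 6, .ofNat 3),
    (.ofNat 3, .negSucc 2, .negSucc 6), (.ofNat 3, .negSucc 2, .ofNat 7),
    (.ofNat 3, .ofNat 3, .negSucc 6), (.ofNat 3, .ofNat 3, .ofNat 7),
    (.ofNat 3, .ofNat 7, .negSucc 2), (.ofNat 3, .ofNat 7, .ofNat 3),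
    (.ofNat 7, .negSucc 2, .negSucc 2), (.ofNat 7, .negSucc 2, .ofNat 3),
    (.ofNat 7, .ofNat 3, .negSucc 2), (.ofNat 7, .ofNat 3, .ofNat 3)]),
  ((.ofNat 3, .ofNat 3, .ofNat 11), [
    (.ofNat 3, .negSucc 10, .negSucc 2), (.ofNat 3, .negSucc 10, .ofNat 3),
    (.ofNat 3, .negSucc 2, .negSucc 10), (.ofNat 3, .negSucc 2, .ofNat 11),
    (.ofNat 3, .ofNat 3, .negSucc 10), (.ofNat 3, .ofNat 3, .ofNat 11),
    (.ofNat 3, .ofNat 11, .negSucc 2), (.ofNat 3, .ofNat 11, .ofNat 3),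
    (.ofNat 11, .negSucc 2, .negSucc 2), (.ofNat 11, .negSucc 2, .ofNat 3),
    (.ofNat 11, .ofNat 3, .negSucc 2), (.ofNat 11, .ofNat 3, .ofNat 3)]),
  ((.ofNat 3, .ofNat 3, .ofNat 13), [
    (.ofNat 3, .negSucc 12, .negSucc 2), (.ofNat 3, .negSucc 12, .ofNat 3),
    (.ofNat 3, .negSucc 2, .negSucc 12), (.ofNat 3, .negSucc 2, .ofNat 13),
    (.ofNat 3, .ofNat 3, .negSucc 12), (.ofNat 3, .ofNat 3, .ofNat 13),
    (.ofNat 3, .ofNat 13, .negSucc 2), (.ofNat 3, .ofNat 13, .ofNat 3),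
    (.ofNat 13, .negSucc 2, .negSucc 2), (.ofNat 13, .negSucc 2, .ofNat 3),
    (.ofNat 13, .ofNat 3, .negSucc 2), (.ofNat 13, .ofNat 3, .ofNat 3)]),
  ((.ofNat 3, .ofNat 4, .ofNat 4), [
    (.ofNat 3, .negSucc 3, .negSucc 3), (.ofNat 3, .negSucc 3, .ofNat 4),
    (.ofNat 3, .ofNat 4, .negSucc 3), (.ofNat 3, .ofNat 4, .ofNat 4),
    (.ofNat 4, .negSucc 3, .negSucc 2), (.ofNat 4, .negSucc 3, .ofNat 3),
    (.ofNat 4, .negSucc 2, .negSucc 3), (.ofNat 4, .negSucc 2, .ofNat 4),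
    (.ofNat 4, .ofNat 3, .negSucc 3), (.ofNat 4, .ofNat 3, .ofNat 4),
    (.ofNat 4, .ofNat 4, .negSucc 2), (.ofNat 4, .ofNat 4, .ofNat 3)]),
  ((.ofNat 3, .ofNat 4, .ofNat 5), [
    (.ofNat 3, .negSucc 4, .negSucc 3), (.ofNat 3, .negSucc 4, .ofNat 4),
    (.ofNat 3, .negSucc 3, .negSucc 4), (.ofNat 3, .negSucc 3, .ofNat 5),
    (.ofNat 3, .ofNat 4, .negSucc 4), (.ofNat 3, .ofNat 4, .ofNat 5),
    (.ofNat 3, .ofNat 5, .negSucc 3), (.ofNat 3, .ofNat 5, .ofNat 4),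
    (.ofNat 4, .negSucc 4, .negSucc 2), (.ofNat 4, .negSucc 4, .ofNat 3),
    (.ofNat 4, .negSucc 2, .negSucc 4), (.ofNat 4, .negSucc 2, .ofNat 5),
    (.ofNat 4, .ofNat 3, .negSucc 4), (.ofNat 4, .ofNat 3, .ofNat 5),
    (.ofNat 4, .ofNat 5, .negSucc 2), (.ofNat 4, .ofNat 5, .ofNat 3),
    (.ofNat 5, .negSucc 3, .negSucc 2), (.ofNat 5, .negSucc 3, .ofNat 3),
    (.ofNat 5, .negSucc 2, .negSucc 3), (.ofNat 5, .negSucc 2, .ofNat 4),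
    (.ofNat 5, .ofNat 3, .negSucc 3), (.ofNat 5, .ofNat 3, .ofNat 4),
    (.ofNat 5, .ofNat 4, .negSucc 2), (.ofNat 5, .ofNat 4, .ofNat 3)]),
  ((.ofNat 3, .ofNat 4, .ofNat 6), [
    (.ofNat 3, .negSucc 5, .negSucc 3), (.ofNat 3, .negSucc 5, .ofNat 4),
    (.ofNat 3, .negSucc 3, .negSucc 5), (.ofNat 3, .negSucc 3, .ofNat 6),
    (.ofNat 3, .ofNat 4, .negSucc 5), (.ofNat 3, .ofNat 4, .ofNat 6),
    (.ofNat 3, .ofNat 6, .negSucc 3), (.ofNat 3, .ofNat 6, .ofNat 4),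
    (.ofNat 4, .negSucc 5, .negSucc 2), (.ofNat 4, .negSucc 5, .ofNat 3),
    (.ofNat 4, .negSucc 2, .negSucc 5), (.ofNat 4, .negSucc 2, .ofNat 6),
    (.ofNat 4, .ofNat 3, .negSucc 5), (.ofNat 4, .ofNat 3, .ofNat 6),
    (.ofNat 4, .ofNat 6, .negSucc 2), (.ofNat 4, .ofNat 6, .ofNat 3),
    (.ofNat 6, .negSucc 3, .negSucc 2), (.ofNat 6, .negSucc 3, .ofNat 3),
    (.ofNat 6, .negSucc 2, .negSucc 3), (.ofNat 6, .negSucc 2, .ofNat 4),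
    (.ofNat 6, .ofNat 3, .negSucc 3), (.ofNat 6, .ofNat 3, .ofNat 4),
    (.ofNat 6, .ofNat 4, .negSucc 2), (.ofNat 6, .ofNat 4, .ofNat 3)]),
  ((.ofNat 3, .ofNat 4, .ofNat 7), [
    (.ofNat 3, .negSucc 6, .negSucc 3), (.ofNat 3, .negSucc 6, .ofNat 4),
    (.ofNat 3, .negSucc 3, .negSucc 6), (.ofNat 3, .negSucc 3, .ofNat 7),
    (.ofNat 3, .ofNat 4, .negSucc 6), (.ofNat 3, .ofNat 4, .ofNat 7),
    (.ofNat 3, .ofNat 7, .negSucc 3), (.ofNat 3, .ofNat 7, .ofNat 4),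
    (.ofNat 4, .negSucc 6, .negSucc 2), (.ofNat 4, .negSucc 6, .ofNat 3),
    (.ofNat 4, .negSucc 2, .negSucc 6), (.ofNat 4, .negSucc 2, .ofNat 7),
    (.ofNat 4, .ofNat 3, .negSucc 6), (.ofNat 4, .ofNat 3, .ofNat 7),
    (.ofNat 4, .ofNat 7, .negSucc 2), (.ofNat 4, .ofNat 7, .ofNat 3),
    (.ofNat 7, .negSucc 3, .negSucc 2), (.ofNat 7, .negSucc 3, .ofNat 3),
    (.ofNat 7, .negSucc 2, .negSucc 3), (.ofNat 7, .negSucc 2, .ofNat 4),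
    (.ofNat 7, .ofNat 3, .negSucc 3), (.ofNat 7, .ofNat 3, .ofNat 4),
    (.ofNat 7, .ofNat 4, .negSucc 2), (.ofNat 7, .ofNat 4, .ofNat 3)]),
  ((.ofNat 3, .ofNat 5, .ofNat 5), [
    (.ofNat 3, .negSucc 4, .negSucc 4), (.ofNat 3, .negSucc 4, .ofNat 5),
    (.ofNat 3, .ofNat 5, .negSucc 4), (.ofNat 3, .ofNat 5, .ofNat 5),
    (.ofNat 5, .negSucc 4, .negSucc 2), (.ofNat 5, .negSucc 4, .ofNat 3),
    (.ofNat 5, .negSucc 2, .negSucc 4), (.ofNat 5, .negSucc 2, .ofNat 5),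
    (.ofNat 5, .ofNat 3, .negSucc 4), (.ofNat 5, .ofNat 3, .ofNat 5),
    (.ofNat 5, .ofNat 5, .negSucc 2), (.ofNat 5, .ofNat 5, .ofNat 3)]),
  ((.ofNat 3, .ofNat 5, .ofNat 6), [
    (.ofNat 3, .negSucc 5, .negSucc 4), (.ofNat 3, .negSucc 5, .ofNat 5),
    (.ofNat 3, .negSucc 4, .negSucc 5), (.ofNat 3, .negSucc 4, .ofNat 6),
    (.ofNat 3, .ofNat 5, .negSucc 5), (.ofNat 3, .ofNat 5, .ofNat 6),
    (.ofNat 3, .ofNat 6, .negSucc 4), (.ofNat 3, .ofNat 6, .ofNat 5),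
    (.ofNat 5, .negSucc 5, .negSucc 2), (.ofNat 5, .negSucc 5, .ofNat 3),
    (.ofNat 5, .negSucc 2, .negSucc 5), (.ofNat 5, .negSucc 2, .ofNat 6),
    (.ofNat 5, .ofNat 3, .negSucc 5), (.ofNat 5, .ofNat 3, .ofNat 6),
    (.ofNat 5, .ofNat 6, .negSucc 2), (.ofNat 5, .ofNat 6, .ofNat 3),
    (.ofNat 6, .negSucc 4, .negSucc 2), (.ofNat 6, .negSucc 4, .ofNat 3),
    (.ofNat 6, .negSucc 2, .negSucc 4), (.ofNat 6, .negSucc 2, .ofNat 5),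
    (.ofNat 6, .ofNat 3, .negSucc 4), (.ofNat 6, .ofNat 3, .ofNat 5),
    (.ofNat 6, .ofNat 5, .negSucc 2), (.ofNat 6, .ofNat 5, .ofNat 3)]),
  ((.ofNat 3, .ofNat 5, .ofNat 7), [
    (.ofNat 3, .negSucc 6, .negSucc 4), (.ofNat 3, .negSucc 6, .ofNat 5),
    (.ofNat 3, .negSucc 4, .negSucc 6), (.ofNat 3, .negSucc 4, .ofNat 7),
    (.ofNat 3, .ofNat 5, .negSucc 6), (.ofNat 3, .ofNat 5, .ofNat 7),
    (.ofNat 3, .ofNat 7, .negSucc 4), (.ofNat 3, .ofNat 7, .ofNat 5),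
    (.ofNat 5, .negSucc 6, .negSucc 2), (.ofNat 5, .negSucc 6, .ofNat 3),
    (.ofNat 5, .negSucc 2, .negSucc 6), (.ofNat 5, .negSucc 2, .ofNat 7),
    (.ofNat 5, .ofNat 3, .negSucc 6), (.ofNat 5, .ofNat 3, .ofNat 7),
    (.ofNat 5, .ofNat 7, .negSucc 2), (.ofNat 5, .ofNat 7, .ofNat 3),
    (.ofNat 7, .negSucc 4, .negSucc 2), (.ofNat 7, .negSucc 4, .ofNat 3),
    (.ofNat 7, .negSucc 2, .negSucc 4), (.ofNat 7, .negSucc 2, .ofNat 5),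
    (.ofNat 7, .ofNat 3, .negSucc 4), (.ofNat 7, .ofNat 3, .ofNat 5),
    (.ofNat 7, .ofNat 5, .negSucc 2), (.ofNat 7, .ofNat 5, .ofNat 3)]),
  ((.ofNat 3, .ofNat 5, .ofNat 9), [
    (.ofNat 3, .negSucc 8, .negSucc 4), (.ofNat 3, .negSucc 8, .ofNat 5),
    (.ofNat 3, .negSucc 4, .negSucc 8), (.ofNat 3, .negSucc 4, .ofNat 9),
    (.ofNat 3, .ofNat 5, .negSucc 8), (.ofNat 3, .ofNat 5, .ofNat 9),
    (.ofNat 3, .ofNat 9, .negSucc 4), (.ofNat 3, .ofNat 9, .ofNat 5),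
    (.ofNat 5, .negSucc 8, .negSucc 2), (.ofNat 5, .negSucc 8, .ofNat 3),
    (.ofNat 5, .negSucc 2, .negSucc 8), (.ofNat 5, .negSucc 2, .ofNat 9),
    (.ofNat 5, .ofNat 3, .negSucc 8), (.ofNat 5, .ofNat 3, .ofNat 9),
    (.ofNat 5, .ofNat 9, .negSucc 2), (.ofNat 5, .ofNat 9, .ofNat 3),
    (.ofNat 9, .negSucc 4, .negSucc 2), (.ofNat 9, .negSucc 4, .ofNat 3),
    (.ofNat 9, .negSucc 2, .negSucc 4), (.ofNat 9, .negSucc 2, .ofNat 5),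
    (.ofNat 9, .ofNat 3, .negSucc 4), (.ofNat 9, .ofNat 3, .ofNat 5),
    (.ofNat 9, .ofNat 5, .negSucc 2), (.ofNat 9, .ofNat 5, .ofNat 3)]),
  ((.ofNat 3, .ofNat 5, .ofNat 11), [
    (.ofNat 3, .negSucc 10, .negSucc 4), (.ofNat 3, .negSucc 10, .ofNat 5),
    (.ofNat 3, .negSucc 4, .negSucc 10), (.ofNat 3, .negSucc 4, .ofNat 11),
    (.ofNat 3, .ofNat 5, .negSucc 10), (.ofNat 3, .ofNat 5, .ofNat 11),
    (.ofNat 3, .ofNat 11, .negSucc 4), (.ofNat 3, .ofNat 11, .ofNat 5),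
    (.ofNat 5, .negSucc 10, .negSucc 2), (.ofNat 5, .negSucc 10, .ofNat 3),
    (.ofNat 5, .negSucc 2, .negSucc 10), (.ofNat 5, .negSucc 2, .ofNat 11),
    (.ofNat 5, .ofNat 3, .negSucc 10), (.ofNat 5, .ofNat 3, .ofNat 11),
    (.ofNat 5, .ofNat 11, .negSucc 2), (.ofNat 5, .ofNat 11, .ofNat 3),
    (.ofNat 11, .negSucc 4, .negSucc 2), (.ofNat 11, .negSucc 4, .ofNat 3),
    (.ofNat 11, .negSucc 2, .negSucc 4), (.ofNat 11, .negSucc 2, .ofNat 5),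
    (.ofNat 11, .ofNat 3, .negSucc 4), (.ofNat 11, .ofNat 3, .ofNat 5),
    (.ofNat 11, .ofNat 5, .negSucc 2), (.ofNat 11, .ofNat 5, .ofNat 3)]),
  ((.ofNat 3, .ofNat 5, .ofNat 13), [
    (.ofNat 3, .negSucc 12, .negSucc 4), (.ofNat 3, .negSucc 12, .ofNat 5),
    (.ofNat 3, .negSucc 4, .negSucc 12), (.ofNat 3, .negSucc 4, .ofNat 13),
    (.ofNat 3, .ofNat 5, .negSucc 12), (.ofNat 3, .ofNat 5, .ofNat 13),
    (.ofNat 3, .ofNat 13, .negSucc 4), (.ofNat 3, .ofNat 13, .ofNat 5),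
    (.ofNat 5, .negSucc 12, .negSucc 2), (.ofNat 5, .negSucc 12, .ofNat 3),
    (.ofNat 5, .negSucc 2, .negSucc 12), (.ofNat 5, .negSucc 2, .ofNat 13),
    (.ofNat 5, .ofNat 3, .negSucc 12), (.ofNat 5, .ofNat 3, .ofNat 13),
    (.ofNat 5, .ofNat 13, .negSucc 2), (.ofNat 5, .ofNat 13, .ofNat 3),
    (.ofNat 13, .negSucc 4, .negSucc 2), (.ofNat 13, .negSucc 4, .ofNat 3),
    (.ofNat 13, .negSucc 2, .negSucc 4), (.ofNat 13, .negSucc 2, .ofNat 5),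
    (.ofNat 13, .ofNat 3, .negSucc 4), (.ofNat 13, .ofNat 3, .ofNat 5),
    (.ofNat 13, .ofNat 5, .negSucc 2), (.ofNat 13, .ofNat 5, .ofNat 3)]),
  ((.ofNat 3, .ofNat 5, .ofNat 15), [
    (.ofNat 3, .negSucc 14, .negSucc 4), (.ofNat 3, .negSucc 14, .ofNat 5),
    (.ofNat 3, .negSucc 4, .negSucc 14), (.ofNat 3, .negSucc 4, .ofNat 15),
    (.ofNat 3, .ofNat 5, .negSucc 14), (.ofNat 3, .ofNat 5, .ofNat 15),
    (.ofNat 3, .ofNat 15, .negSucc 4), (.ofNat 3, .ofNat 15, .ofNat 5),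
    (.ofNat 5, .negSucc 14, .negSucc 2), (.ofNat 5, .negSucc 14, .ofNat 3),
    (.ofNat 5, .negSucc 2, .negSucc 14), (.ofNat 5, .negSucc 2, .ofNat 15),
    (.ofNat 5, .ofNat 3, .negSucc 14), (.ofNat 5, .ofNat 3, .ofNat 15),
    (.ofNat 5, .ofNat 15, .negSucc 2), (.ofNat 5, .ofNat 15, .ofNat 3),
    (.ofNat 15, .negSucc 4, .negSucc 2), (.ofNat 15, .negSucc 4, .ofNat 3),
    (.ofNat 15, .negSucc 2, .negSucc 4), (.ofNat 15, .negSucc 2, .ofNat 5),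
    (.ofNat 15, .ofNat 3, .negSucc 4), (.ofNat 15, .ofNat 3, .ofNat 5),
    (.ofNat 15, .ofNat 5, .negSucc 2), (.ofNat 15, .ofNat 5, .ofNat 3)]),
  ((.ofNat 3, .ofNat 7, .ofNat 7), [
    (.ofNat 3, .negSucc 6, .negSucc 6), (.ofNat 3, .negSucc 6, .ofNat 7),
    (.ofNat 3, .ofNat 7, .negSucc 6), (.ofNat 3, .ofNat 7, .ofNat 7),
    (.ofNat 7, .negSucc 6, .negSucc 2), (.ofNat 7, .negSucc 6, .ofNat 3),
    (.ofNat 7, .negSucc 2, .negSucc 6), (.ofNat 7, .negSucc 2, .ofNat 7),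
    (.ofNat 7, .ofNat 3, .negSucc 6), (.ofNat 7, .ofNat 3, .ofNat 7),
    (.ofNat 7, .ofNat 7, .negSucc 2), (.ofNat 7, .ofNat 7, .ofNat 3)]),
  ((.ofNat 3, .ofNat 7, .ofNat 9), [
    (.ofNat 3, .negSucc 8, .negSucc 6), (.ofNat 3, .negSucc 8, .ofNat 7),
    (.ofNat 3, .negSucc 6, .negSucc 8), (.ofNat 3, .negSucc 6, .ofNat 9),
    (.ofNat 3, .ofNat 7, .negSucc 8), (.ofNat 3, .ofNat 7, .ofNat 9),
    (.ofNat 3, .ofNat 9, .negSucc 6), (.ofNat 3, .ofNat 9, .ofNat 7),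
    (.ofNat 7, .negSucc 8, .negSucc 2), (.ofNat 7, .negSucc 8, .ofNat 3),
    (.ofNat 7, .negSucc 2, .negSucc 8), (.ofNat 7, .negSucc 2, .ofNat 9),
    (.ofNat 7, .ofNat 3, .negSucc 8), (.ofNat 7, .ofNat 3, .ofNat 9),
    (.ofNat 7, .ofNat 9, .negSucc 2), (.ofNat 7, .ofNat 9, .ofNat 3),
    (.ofNat 9, .negSucc 6, .negSucc 2), (.ofNat 9, .negSucc 6, .ofNat 3),
    (.ofNat 9, .negSucc 2, .negSucc 6), (.ofNat 9, .negSucc 2, .ofNat 7),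
    (.ofNat 9, .ofNat 3, .negSucc 6), (.ofNat 9, .ofNat 3, .ofNat 7),
    (.ofNat 9, .ofNat 7, .negSucc 2), (.ofNat 9, .ofNat 7, .ofNat 3)]),
  ((.ofNat 3, .ofNat 7, .ofNat 11), [
    (.ofNat 3, .negSucc 10, .negSucc 6), (.ofNat 3, .negSucc 10, .ofNat 7),
    (.ofNat 3, .negSucc 6, .negSucc 10), (.ofNat 3, .negSucc 6, .ofNat 11),
    (.ofNat 3, .ofNat 7, .negSucc 10), (.ofNat 3, .ofNat 7, .ofNat 11),
    (.ofNat 3, .ofNat 11, .negSucc 6), (.ofNat 3, .ofNat 11, .ofNat 7),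
    (.ofNat 7, .negSucc 10, .negSucc 2), (.ofNat 7, .negSucc 10, .ofNat 3),
    (.ofNat 7, .negSucc 2, .negSucc 10), (.ofNat 7, .negSucc 2, .ofNat 11),
    (.ofNat 7, .ofNat 3, .negSucc 10), (.ofNat 7, .ofNat 3, .ofNat 11),
    (.ofNat 7, .ofNat 11, .negSucc 2), (.ofNat 7, .ofNat 11, .ofNat 3),
    (.ofNat 11, .negSucc 6, .negSucc 2), (.ofNat 11, .negSucc 6, .ofNat 3),
    (.ofNat 11, .negSucc 2, .negSucc 6), (.ofNat 11, .negSucc 2, .ofNat 7),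
    (.ofNat 11, .ofNat 3, .negSucc 6), (.ofNat 11, .ofNat 3, .ofNat 7),
    (.ofNat 11, .ofNat 7, .negSucc 2), (.ofNat 11, .ofNat 7, .ofNat 3)]),
  ((.ofNat 3, .ofNat 7, .ofNat 13), [
    (.ofNat 3, .negSucc 12, .negSucc 6), (.ofNat 3, .negSucc 12, .ofNat 7),
    (.ofNat 3, .negSucc 6, .negSucc 12), (.ofNat 3, .negSucc 6, .ofNat 13),
    (.ofNat 3, .ofNat 7, .negSucc 12), (.ofNat 3, .ofNat 7, .ofNat 13),
    (.ofNat 3, .ofNat 13, .negSucc 6), (.ofNat 3, .ofNat 13, .ofNat 7),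
    (.ofNat 7, .negSucc 12, .negSucc 2), (.ofNat 7, .negSucc 12, .ofNat 3),
    (.ofNat 7, .negSucc 2, .negSucc 12), (.ofNat 7, .negSucc 2, .ofNat 13),
    (.ofNat 7, .ofNat 3, .negSucc 12), (.ofNat 7, .ofNat 3, .ofNat 13),
    (.ofNat 7, .ofNat 13, .negSucc 2), (.ofNat 7, .ofNat 13, .ofNat 3),
    (.ofNat 13, .negSucc 6, .negSucc 2), (.ofNat 13, .negSucc 6, .ofNat 3),
    (.ofNat 13, .negSucc 2, .negSucc 6), (.ofNat 13, .negSucc 2, .ofNat 7),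
    (.ofNat 13, .ofNat 3, .negSucc 6), (.ofNat 13, .ofNat 3, .ofNat 7),
    (.ofNat 13, .ofNat 7, .negSucc 2), (.ofNat 13, .ofNat 7, .ofNat 3)]),
  ((.ofNat 3, .ofNat 7, .ofNat 15), [
    (.ofNat 3, .negSucc 14, .negSucc 6), (.ofNat 3, .negSucc 14, .ofNat 7),
    (.ofNat 3, .negSucc 6, .negSucc 14), (.ofNat 3, .negSucc 6, .ofNat 15),
    (.ofNat 3, .ofNat 7, .negSucc 14), (.ofNat 3, .ofNat 7, .ofNat 15),
    (.ofNat 3, .ofNat 15, .negSucc 6), (.ofNat 3, .ofNat 15, .ofNat 7),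
    (.ofNat 7, .negSucc 14, .negSucc 2), (.ofNat 7, .negSucc 14, .ofNat 3),
    (.ofNat 7, .negSucc 2, .negSucc 14), (.ofNat 7, .negSucc 2, .ofNat 15),
    (.ofNat 7, .ofNat 3, .negSucc 14), (.ofNat 7, .ofNat 3, .ofNat 15),
    (.ofNat 7, .ofNat 15, .negSucc 2), (.ofNat 7, .ofNat 15, .ofNat 3),
    (.ofNat 15, .negSucc 6, .negSucc 2), (.ofNat 15, .negSucc 6, .ofNat 3),
    (.ofNat 15, .negSucc 2, .negSucc 6), (.ofNat 15, .negSucc 2, .ofNat 7),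
    (.ofNat 15, .ofNat 3, .negSucc 6), (.ofNat 15, .ofNat 3, .ofNat 7),
    (.ofNat 15, .ofNat 7, .negSucc 2), (.ofNat 15, .ofNat 7, .ofNat 3)]),
  ((.ofNat 3, .ofNat 9, .ofNat 11), [
    (.ofNat 3, .negSucc 10, .negSucc 8), (.ofNat 3, .negSucc 10, .ofNat 9),
    (.ofNat 3, .negSucc 8, .negSucc 10), (.ofNat 3, .negSucc 8, .ofNat 11),
    (.ofNat 3, .ofNat 9, .negSucc 10), (.ofNat 3, .ofNat 9, .ofNat 11),
    (.ofNat 3, .ofNat 11, .negSucc 8), (.ofNat 3, .ofNat 11, .ofNat 9),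
    (.ofNat 9, .negSucc 10, .negSucc 2), (.ofNat 9, .negSucc 10, .ofNat 3),
    (.ofNat 9, .negSucc 2, .negSucc 10), (.ofNat 9, .negSucc 2, .ofNat 11),
    (.ofNat 9, .ofNat 3, .negSucc 10), (.ofNat 9, .ofNat 3, .ofNat 11),
    (.ofNat 9, .ofNat 11, .negSucc 2), (.ofNat 9, .ofNat 11, .ofNat 3),
    (.ofNat 11, .negSucc 8, .negSucc 2), (.ofNat 11, .negSucc 8, .ofNat 3),
    (.ofNat 11, .negSucc 2, .negSucc 8), (.ofNat 11, .negSucc 2, .ofNat 9),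
    (.ofNat 11, .ofNat 3, .negSucc 8), (.ofNat 11, .ofNat 3, .ofNat 9),
    (.ofNat 11, .ofNat 9, .negSucc 2), (.ofNat 11, .ofNat 9, .ofNat 3)]),
  ((.ofNat 3, .ofNat 9, .ofNat 13), [
    (.ofNat 3, .negSucc 12, .negSucc 8), (.ofNat 3, .negSucc 12, .ofNat 9),
    (.ofNat 3, .negSucc 8, .negSucc 12), (.ofNat 3, .negSucc 8, .ofNat 13),
    (.ofNat 3, .ofNat 9, .negSucc 12), (.ofNat 3, .ofNat 9, .ofNat 13),
    (.ofNat 3, .ofNat 13, .negSucc 8), (.ofNat 3, .ofNat 13, .ofNat 9),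
    (.ofNat 9, .negSucc 12, .negSucc 2), (.ofNat 9, .negSucc 12, .ofNat 3),
    (.ofNat 9, .negSucc 2, .negSucc 12), (.ofNat 9, .negSucc 2, .ofNat 13),
    (.ofNat 9, .ofNat 3, .negSucc 12), (.ofNat 9, .ofNat 3, .ofNat 13),
    (.ofNat 9, .ofNat 13, .negSucc 2), (.ofNat 9, .ofNat 13, .ofNat 3),
    (.ofNat 13, .negSucc 8, .negSucc 2), (.ofNat 13, .negSucc 8, .ofNat 3),
    (.ofNat 13, .negSucc 2, .negSucc 8), (.ofNat 13, .negSucc 2, .ofNat 9),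
    (.ofNat 13, .ofNat 3, .negSucc 8), (.ofNat 13, .ofNat 3, .ofNat 9),
    (.ofNat 13, .ofNat 9, .negSucc 2), (.ofNat 13, .ofNat 9, .ofNat 3)]),
  ((.ofNat 3, .ofNat 11, .ofNat 11), [
    (.ofNat 3, .negSucc 10, .negSucc 10), (.ofNat 3, .negSucc 10, .ofNat 11),
    (.ofNat 3, .ofNat 11, .negSucc 10), (.ofNat 3, .ofNat 11, .ofNat 11),
    (.ofNat 11, .negSucc 10, .negSucc 2), (.ofNat 11, .negSucc 10, .ofNat 3),
    (.ofNat 11, .negSucc 2, .negSucc 10), (.ofNat 11, .negSucc 2, .ofNat 11),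
    (.ofNat 11, .ofNat 3, .negSucc 10), (.ofNat 11, .ofNat 3, .ofNat 11),
    (.ofNat 11, .ofNat 11, .negSucc 2), (.ofNat 11, .ofNat 11, .ofNat 3)]),
  ((.ofNat 3, .ofNat 11, .ofNat 13), [
    (.ofNat 3, .negSucc 12, .negSucc 10), (.ofNat 3, .negSucc 12, .ofNat 11),
    (.ofNat 3, .negSucc 10, .negSucc 12), (.ofNat 3, .negSucc 10, .ofNat 13),
    (.ofNat 3, .ofNat 11, .negSucc 12), (.ofNat 3, .ofNat 11, .ofNat 13),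
    (.ofNat 3, .ofNat 13, .negSucc 10), (.ofNat 3, .ofNat 13, .ofNat 11),
    (.ofNat 11, .negSucc 12, .negSucc 2), (.ofNat 11, .negSucc 12, .ofNat 3),
    (.ofNat 11, .negSucc 2, .negSucc 12), (.ofNat 11, .negSucc 2, .ofNat 13),
    (.ofNat 11, .ofNat 3, .negSucc 12), (.ofNat 11, .ofNat 3, .ofNat 13),
    (.ofNat 11, .ofNat 13, .negSucc 2), (.ofNat 11, .ofNat 13, .ofNat 3),
    (.ofNat 13, .negSucc 10, .negSucc 2), (.ofNat 13, .negSucc 10, .ofNat 3),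
    (.ofNat 13, .negSucc 2, .negSucc 10), (.ofNat 13, .negSucc 2, .ofNat 11),
    (.ofNat 13, .ofNat 3, .negSucc 10), (.ofNat 13, .ofNat 3, .ofNat 11),
    (.ofNat 13, .ofNat 11, .negSucc 2), (.ofNat 13, .ofNat 11, .ofNat 3)]),
  ((.ofNat 4, .ofNat 4, .ofNat 5), [
    (.ofNat 4, .negSucc 4, .negSucc 3), (.ofNat 4, .negSucc 4, .ofNat 4),
    (.ofNat 4, .negSucc 3, .negSucc 4), (.ofNat 4, .negSucc 3, .ofNat 5),
    (.ofNat 4, .ofNat 4, .negSucc 4), (.ofNat 4, .ofNat 4, .ofNat 5),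
    (.ofNat 4, .ofNat 5, .negSucc 3), (.ofNat 4, .ofNat 5, .ofNat 4),
    (.ofNat 5, .negSucc 3, .negSucc 3), (.ofNat 5, .negSucc 3, .ofNat 4),
    (.ofNat 5, .ofNat 4, .negSucc 3), (.ofNat 5, .ofNat 4, .ofNat 4)]),
  ((.ofNat 4, .ofNat 5, .ofNat 5), [
    (.ofNat 4, .negSucc 4, .negSucc 4), (.ofNat 4, .negSucc 4, .ofNat 5),
    (.ofNat 4, .ofNat 5, .negSucc 4), (.ofNat 4, .ofNat 5, .ofNat 5),
    (.ofNat 5, .negSucc 4, .negSucc 3), (.ofNat 5, .negSucc 4, .ofNat 4),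
    (.ofNat 5, .negSucc 3, .negSucc 4), (.ofNat 5, .negSucc 3, .ofNat 5),
    (.ofNat 5, .ofNat 4, .negSucc 4), (.ofNat 5, .ofNat 4, .ofNat 5),
    (.ofNat 5, .ofNat 5, .negSucc 3), (.ofNat 5, .ofNat 5, .ofNat 4)]),
  ((.ofNat 5, .ofNat 5, .ofNat 7), [
    (.ofNat 5, .negSucc 6, .negSucc 4), (.ofNat 5, .negSucc 6, .ofNat 5),
    (.ofNat 5, .negSucc 4, .negSucc 6), (.ofNat 5, .negSucc 4, .ofNat 7),
    (.ofNat 5, .ofNat 5, .negSucc 6), (.ofNat 5, .ofNat 5, .ofNat 7),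
    (.ofNat 5, .ofNat 7, .negSucc 4), (.ofNat 5, .ofNat 7, .ofNat 5),
    (.ofNat 7, .negSucc 4, .negSucc 4), (.ofNat 7, .negSucc 4, .ofNat 5),
    (.ofNat 7, .ofNat 5, .negSucc 4), (.ofNat 7, .ofNat 5, .ofNat 5)]),
  ((.ofNat 5, .ofNat 5, .ofNat 9), [
    (.ofNat 5, .negSucc 8, .negSucc 4), (.ofNat 5, .negSucc 8, .ofNat 5),
    (.ofNat 5, .negSucc 4, .negSucc 8), (.ofNat 5, .negSucc 4, .ofNat 9),
    (.ofNat 5, .ofNat 5, .negSucc 8), (.ofNat 5, .ofNat 5, .ofNat 9),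
    (.ofNat 5, .ofNat 9, .negSucc 4), (.ofNat 5, .ofNat 9, .ofNat 5),
    (.ofNat 9, .negSucc 4, .negSucc 4), (.ofNat 9, .negSucc 4, .ofNat 5),
    (.ofNat 9, .ofNat 5, .negSucc 4), (.ofNat 9, .ofNat 5, .ofNat 5)]),
  ((.ofNat 5, .ofNat 5, .ofNat 11), [
    (.ofNat 5, .negSucc 10, .negSucc 4), (.ofNat 5, .negSucc 10, .ofNat 5),
    (.ofNat 5, .negSucc 4, .negSucc 10), (.ofNat 5, .negSucc 4, .ofNat 11),
    (.ofNat 5, .ofNat 5, .negSucc 10), (.ofNat 5, .ofNat 5, .ofNat 11),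
    (.ofNat 5, .ofNat 11, .negSucc 4), (.ofNat 5, .ofNat 11, .ofNat 5),
    (.ofNat 11, .negSucc 4, .negSucc 4), (.ofNat 11, .negSucc 4, .ofNat 5),
    (.ofNat 11, .ofNat 5, .negSucc 4), (.ofNat 11, .ofNat 5, .ofNat 5)]),
  ((.ofNat 5, .ofNat 5, .ofNat 13), [
    (.ofNat 5, .negSucc 12, .negSucc 4), (.ofNat 5, .negSucc 12, .ofNat 5),
    (.ofNat 5, .negSucc 4, .negSucc 12), (.ofNat 5, .negSucc 4, .ofNat 13),
    (.ofNat 5, .ofNat 5, .negSucc 12), (.ofNat 5, .ofNat 5, .ofNat 13),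
    (.ofNat 5, .ofNat 13, .negSucc 4), (.ofNat 5, .ofNat 13, .ofNat 5),
    (.ofNat 13, .negSucc 4, .negSucc 4), (.ofNat 13, .negSucc 4, .ofNat 5),
    (.ofNat 13, .ofNat 5, .negSucc 4), (.ofNat 13, .ofNat 5, .ofNat 5)]),
  ((.ofNat 5, .ofNat 7, .ofNat 7), [
    (.ofNat 5, .negSucc 6, .negSucc 6), (.ofNat 5, .negSucc 6, .ofNat 7),
    (.ofNat 5, .ofNat 7, .negSucc 6), (.ofNat 5, .ofNat 7, .ofNat 7),
    (.ofNat 7, .negSucc 6, .negSucc 4), (.ofNat 7, .negSucc 6, .ofNat 5),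
    (.ofNat 7, .negSucc 4, .negSucc 6), (.ofNat 7, .negSucc 4, .ofNat 7),
    (.ofNat 7, .ofNat 5, .negSucc 6), (.ofNat 7, .ofNat 5, .ofNat 7),
    (.ofNat 7, .ofNat 7, .negSucc 4), (.ofNat 7, .ofNat 7, .ofNat 5)]),
  ((.ofNat 5, .ofNat 7, .ofNat 9), [
    (.ofNat 5, .negSucc 8, .negSucc 6), (.ofNat 5, .negSucc 8, .ofNat 7),
    (.ofNat 5, .negSucc 6, .negSucc 8), (.ofNat 5, .negSucc 6, .ofNat 9),
    (.ofNat 5, .ofNat 7, .negSucc 8), (.ofNat 5, .ofNat 7, .ofNat 9),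
    (.ofNat 5, .ofNat 9, .negSucc 6), (.ofNat 5, .ofNat 9, .ofNat 7),
    (.ofNat 7, .negSucc 8, .negSucc 4), (.ofNat 7, .negSucc 8, .ofNat 5),
    (.ofNat 7, .negSucc 4, .negSucc 8), (.ofNat 7, .negSucc 4, .ofNat 9),
    (.ofNat 7, .ofNat 5, .negSucc 8), (.ofNat 7, .ofNat 5, .ofNat 9),
    (.ofNat 7, .ofNat 9, .negSucc 4), (.ofNat 7, .ofNat 9, .ofNat 5),
    (.ofNat 9, .negSucc 6, .negSucc 4), (.ofNat 9, .negSucc 6, .ofNat 5),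
    (.ofNat 9, .negSucc 4, .negSucc 6), (.ofNat 9, .negSucc 4, .ofNat 7),
    (.ofNat 9, .ofNat 5, .negSucc 6), (.ofNat 9, .ofNat 5, .ofNat 7),
    (.ofNat 9, .ofNat 7, .negSucc 4), (.ofNat 9, .ofNat 7, .ofNat 5)]),
  ((.ofNat 5, .ofNat 7, .ofNat 11), [
    (.ofNat 5, .negSucc 10, .negSucc 6), (.ofNat 5, .negSucc 10, .ofNat 7),
    (.ofNat 5, .negSucc 6, .negSucc 10), (.ofNat 5, .negSucc 6, .ofNat 11),
    (.ofNat 5, .ofNat 7, .negSucc 10), (.ofNat 5, .ofNat 7, .ofNat 11),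
    (.ofNat 5, .ofNat 11, .negSucc 6), (.ofNat 5, .ofNat 11, .ofNat 7),
    (.ofNat 7, .negSucc 10, .negSucc 4), (.ofNat 7, .negSucc 10, .ofNat 5),
    (.ofNat 7, .negSucc 4, .negSucc 10), (.ofNat 7, .negSucc 4, .ofNat 11),
    (.ofNat 7, .ofNat 5, .negSucc 10), (.ofNat 7, .ofNat 5, .ofNat 11),
    (.ofNat 7, .ofNat 11, .negSucc 4), (.ofNat 7, .ofNat 11, .ofNat 5),
    (.ofNat 11, .negSucc 6, .negSucc 4), (.ofNat 11, .negSucc 6, .ofNat 5),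
    (.ofNat 11, .negSucc 4, .negSucc 6), (.ofNat 11, .negSucc 4, .ofNat 7),
    (.ofNat 11, .ofNat 5, .negSucc 6), (.ofNat 11, .ofNat 5, .ofNat 7),
    (.ofNat 11, .ofNat 7, .negSucc 4), (.ofNat 11, .ofNat 7, .ofNat 5)]),
  ((.ofNat 5, .ofNat 7, .ofNat 13), [
    (.ofNat 5, .negSucc 12, .negSucc 6), (.ofNat 5, .negSucc 12, .ofNat 7),
    (.ofNat 5, .negSucc 6, .negSucc 12), (.ofNat 5, .negSucc 6, .ofNat 13),
    (.ofNat 5, .ofNat 7, .negSucc 12), (.ofNat 5, .ofNat 7, .ofNat 13),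
    (.ofNat 5, .ofNat 13, .negSucc 6), (.ofNat 5, .ofNat 13, .ofNat 7),
    (.ofNat 7, .negSucc 12, .negSucc 4), (.ofNat 7, .negSucc 12, .ofNat 5),
    (.ofNat 7, .negSucc 4, .negSucc 12), (.ofNat 7, .negSucc 4, .ofNat 13),
    (.ofNat 7, .ofNat 5, .negSucc 12), (.ofNat 7, .ofNat 5, .ofNat 13),
    (.ofNat 7, .ofNat 13, .negSucc 4), (.ofNat 7, .ofNat 13, .ofNat 5),
    (.ofNat 13, .negSucc 6, .negSucc 4), (.ofNat 13, .negSucc 6, .ofNat 5),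
    (.ofNat 13, .negSucc 4, .negSucc 6), (.ofNat 13, .negSucc 4, .ofNat 7),
    (.ofNat 13, .ofNat 5, .negSucc 6), (.ofNat 13, .ofNat 5, .ofNat 7),
    (.ofNat 13, .ofNat 7, .negSucc 4), (.ofNat 13, .ofNat 7, .ofNat 5)]),
  ((.ofNat 5, .ofNat 7, .ofNat 15), [
    (.ofNat 5, .negSucc 14, .negSucc 6), (.ofNat 5, .negSucc 14, .ofNat 7),
    (.ofNat 5, .negSucc 6, .negSucc 14), (.ofNat 5, .negSucc 6, .ofNat 15),
    (.ofNat 5, .ofNat 7, .negSucc 14), (.ofNat 5, .ofNat 7, .ofNat 15),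
    (.ofNat 5, .ofNat 15, .negSucc 6), (.ofNat 5, .ofNat 15, .ofNat 7),
    (.ofNat 7, .negSucc 14, .negSucc 4), (.ofNat 7, .negSucc 14, .ofNat 5),
    (.ofNat 7, .negSucc 4, .negSucc 14), (.ofNat 7, .negSucc 4, .ofNat 15),
    (.ofNat 7, .ofNat 5, .negSucc 14), (.ofNat 7, .ofNat 5, .ofNat 15),
    (.ofNat 7, .ofNat 15, .negSucc 4), (.ofNat 7, .ofNat 15, .ofNat 5),
    (.ofNat 15, .negSucc 6, .negSucc 4), (.ofNat 15, .negSucc 6, .ofNat 5),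
    (.ofNat 15, .negSucc 4, .negSucc 6), (.ofNat 15, .negSucc 4, .ofNat 7),
    (.ofNat 15, .ofNat 5, .negSucc 6), (.ofNat 15, .ofNat 5, .ofNat 7),
    (.ofNat 15, .ofNat 7, .negSucc 4), (.ofNat 15, .ofNat 7, .ofNat 5)]),
  ((.ofNat 5, .ofNat 9, .ofNat 9), [
    (.ofNat 5, .negSucc 8, .negSucc 8), (.ofNat 5, .negSucc 8, .ofNat 9),
    (.ofNat 5, .ofNat 9, .negSucc 8), (.ofNat 5, .ofNat 9, .ofNat 9),
    (.ofNat 9, .negSucc 8, .negSucc 4), (.ofNat 9, .negSucc 8, .ofNat 5),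
    (.ofNat 9, .negSucc 4, .negSucc 8), (.ofNat 9, .negSucc 4, .ofNat 9),
    (.ofNat 9, .ofNat 5, .negSucc 8), (.ofNat 9, .ofNat 5, .ofNat 9),
    (.ofNat 9, .ofNat 9, .negSucc 4), (.ofNat 9, .ofNat 9, .ofNat 5)]),
  ((.ofNat 5, .ofNat 9, .ofNat 11), [
    (.ofNat 5, .negSucc 10, .negSucc 8), (.ofNat 5, .negSucc 10, .ofNat 9),
    (.ofNat 5, .negSucc 8, .negSucc 10), (.ofNat 5, .negSucc 8, .ofNat 11),
    (.ofNat 5, .ofNat 9, .negSucc 10), (.ofNat 5, .ofNat 9, .ofNat 11),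
    (.ofNat 5, .ofNat 11, .negSucc 8), (.ofNat 5, .ofNat 11, .ofNat 9),
    (.ofNat 9, .negSucc 10, .negSucc 4), (.ofNat 9, .negSucc 10, .ofNat 5),
    (.ofNat 9, .negSucc 4, .negSucc 10), (.ofNat 9, .negSucc 4, .ofNat 11),
    (.ofNat 9, .ofNat 5, .negSucc 10), (.ofNat 9, .ofNat 5, .ofNat 11),
    (.ofNat 9, .ofNat 11, .negSucc 4), (.ofNat 9, .ofNat 11, .ofNat 5),
    (.ofNat 11, .negSucc 8, .negSucc 4), (.ofNat 11, .negSucc 8, .ofNat 5),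
    (.ofNat 11, .negSucc 4, .negSucc 8), (.ofNat 11, .negSucc 4, .ofNat 9),
    (.ofNat 11, .ofNat 5, .negSucc 8), (.ofNat 11, .ofNat 5, .ofNat 9),
    (.ofNat 11, .ofNat 9, .negSucc 4), (.ofNat 11, .ofNat 9, .ofNat 5)]),
  ((.ofNat 5, .ofNat 9, .ofNat 13), [
    (.ofNat 5, .negSucc 12, .negSucc 8), (.ofNat 5, .negSucc 12, .ofNat 9),
    (.ofNat 5, .negSucc 8, .negSucc 12), (.ofNat 5, .negSucc 8, .ofNat 13),
    (.ofNat 5, .ofNat 9, .negSucc 12), (.ofNat 5, .ofNat 9, .ofNat 13),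
    (.ofNat 5, .ofNat 13, .negSucc 8), (.ofNat 5, .ofNat 13, .ofNat 9),
    (.ofNat 9, .negSucc 12, .negSucc 4), (.ofNat 9, .negSucc 12, .ofNat 5),
    (.ofNat 9, .negSucc 4, .negSucc 12), (.ofNat 9, .negSucc 4, .ofNat 13),
    (.ofNat 9, .ofNat 5, .negSucc 12), (.ofNat 9, .ofNat 5, .ofNat 13),
    (.ofNat 9, .ofNat 13, .negSucc 4), (.ofNat 9, .ofNat 13, .ofNat 5),
    (.ofNat 13, .negSucc 8, .negSucc 4), (.ofNat 13, .negSucc 8, .ofNat 5),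
    (.ofNat 13, .negSucc 4, .negSucc 8), (.ofNat 13, .negSucc 4, .ofNat 9),
    (.ofNat 13, .ofNat 5, .negSucc 8), (.ofNat 13, .ofNat 5, .ofNat 9),
    (.ofNat 13, .ofNat 9, .negSucc 4), (.ofNat 13, .ofNat 9, .ofNat 5)]),
  ((.ofNat 5, .ofNat 11, .ofNat 11), [
    (.ofNat 5, .negSucc 10, .negSucc 10), (.ofNat 5, .negSucc 10, .ofNat 11),
    (.ofNat 5, .ofNat 11, .negSucc 10), (.ofNat 5, .ofNat 11, .ofNat 11),
    (.ofNat 11, .negSucc 10, .negSucc 4), (.ofNat 11, .negSucc 10, .ofNat 5),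
    (.ofNat 11, .negSucc 4, .negSucc 10), (.ofNat 11, .negSucc 4, .ofNat 11),
    (.ofNat 11, .ofNat 5, .negSucc 10), (.ofNat 11, .ofNat 5, .ofNat 11),
    (.ofNat 11, .ofNat 11, .negSucc 4), (.ofNat 11, .ofNat 11, .ofNat 5)]),
  ((.ofNat 7, .ofNat 7, .ofNat 9), [
    (.ofNat 7, .negSucc 8, .negSucc 6), (.ofNat 7, .negSucc 8, .ofNat 7),
    (.ofNat 7, .negSucc 6, .negSucc 8), (.ofNat 7, .negSucc 6, .ofNat 9),
    (.ofNat 7, .ofNat 7, .negSucc 8), (.ofNat 7, .ofNat 7, .ofNat 9),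
    (.ofNat 7, .ofNat 9, .negSucc 6), (.ofNat 7, .ofNat 9, .ofNat 7),
    (.ofNat 9, .negSucc 6, .negSucc 6), (.ofNat 9, .negSucc 6, .ofNat 7),
    (.ofNat 9, .ofNat 7, .negSucc 6), (.ofNat 9, .ofNat 7, .ofNat 7)]),
  ((.ofNat 7, .ofNat 7, .ofNat 11), [
    (.ofNat 7, .negSucc 10, .negSucc 6), (.ofNat 7, .negSucc 10, .ofNat 7),
    (.ofNat 7, .negSucc 6, .negSucc 10), (.ofNat 7, .negSucc 6, .ofNat 11),
    (.ofNat 7, .ofNat 7, .negSucc 10), (.ofNat 7, .ofNat 7, .ofNat 11),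
    (.ofNat 7, .ofNat 11, .negSucc 6), (.ofNat 7, .ofNat 11, .ofNat 7),
    (.ofNat 11, .negSucc 6, .negSucc 6), (.ofNat 11, .negSucc 6, .ofNat 7),
    (.ofNat 11, .ofNat 7, .negSucc 6), (.ofNat 11, .ofNat 7, .ofNat 7)]),
  ((.ofNat 7, .ofNat 7, .ofNat 13), [
    (.ofNat 7, .negSucc 12, .negSucc 6), (.ofNat 7, .negSucc 12, .ofNat 7),
    (.ofNat 7, .negSucc 6, .negSucc 12), (.ofNat 7, .negSucc 6, .ofNat 13),
    (.ofNat 7, .ofNat 7, .negSucc 12), (.ofNat 7, .ofNat 7, .ofNat 13),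
    (.ofNat 7, .ofNat 13, .negSucc 6), (.ofNat 7, .ofNat 13, .ofNat 7),
    (.ofNat 13, .negSucc 6, .negSucc 6), (.ofNat 13, .negSucc 6, .ofNat 7),
    (.ofNat 13, .ofNat 7, .negSucc 6), (.ofNat 13, .ofNat 7, .ofNat 7)]),
  ((.ofNat 7, .ofNat 9, .ofNat 9), [
    (.ofNat 7, .negSucc 8, .negSucc 8), (.ofNat 7, .negSucc 8, .ofNat 9),
    (.ofNat 7, .ofNat 9, .negSucc 8), (.ofNat 7, .ofNat 9, .ofNat 9),
    (.ofNat 9, .negSucc 8, .negSucc 6), (.ofNat 9, .negSucc 8, .ofNat 7),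
    (.ofNat 9, .negSucc 6, .negSucc 8), (.ofNat 9, .negSucc 6, .ofNat 9),
    (.ofNat 9, .ofNat 7, .negSucc 8), (.ofNat 9, .ofNat 7, .ofNat 9),
    (.ofNat 9, .ofNat 9, .negSucc 6), (.ofNat 9, .ofNat 9, .ofNat 7)]),
  ((.ofNat 7, .ofNat 9, .ofNat 11), [
    (.ofNat 7, .negSucc 10, .negSucc 8), (.ofNat 7, .negSucc 10, .ofNat 9),
    (.ofNat 7, .negSucc 8, .negSucc 10), (.ofNat 7, .negSucc 8, .ofNat 11),
    (.ofNat 7, .ofNat 9, .negSucc 10), (.ofNat 7, .ofNat 9, .ofNat 11),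
    (.ofNat 7, .ofNat 11, .negSucc 8), (.ofNat 7, .ofNat 11, .ofNat 9),
    (.ofNat 9, .negSucc 10, .negSucc 6), (.ofNat 9, .negSucc 10, .ofNat 7),
    (.ofNat 9, .negSucc 6, .negSucc 10), (.ofNat 9, .negSucc 6, .ofNat 11),
    (.ofNat 9, .ofNat 7, .negSucc 10), (.ofNat 9, .ofNat 7, .ofNat 11),
    (.ofNat 9, .ofNat 11, .negSucc 6), (.ofNat 9, .ofNat 11, .ofNat 7),
    (.ofNat 11, .negSucc 8, .negSucc 6), (.ofNat 11, .negSucc 8, .ofNat 7),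
    (.ofNat 11, .negSucc 6, .negSucc 8), (.ofNat 11, .negSucc 6, .ofNat 9),
    (.ofNat 11, .ofNat 7, .negSucc 8), (.ofNat 11, .ofNat 7, .ofNat 9),
    (.ofNat 11, .ofNat 9, .negSucc 6), (.ofNat 11, .ofNat 9, .ofNat 7)]),
  ((.ofNat 7, .ofNat 9, .ofNat 13), [
    (.ofNat 7, .negSucc 12, .negSucc 8), (.ofNat 7, .negSucc 12, .ofNat 9),
    (.ofNat 7, .negSucc 8, .negSucc 12), (.ofNat 7, .negSucc 8, .ofNat 13),
    (.ofNat 7, .ofNat 9, .negSucc 12), (.ofNat 7, .ofNat 9, .ofNat 13),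
    (.ofNat 7, .ofNat 13, .negSucc 8), (.ofNat 7, .ofNat 13, .ofNat 9),
    (.ofNat 9, .negSucc 12, .negSucc 6), (.ofNat 9, .negSucc 12, .ofNat 7),
    (.ofNat 9, .negSucc 6, .negSucc 12), (.ofNat 9, .negSucc 6, .ofNat 13),
    (.ofNat 9, .ofNat 7, .negSucc 12), (.ofNat 9, .ofNat 7, .ofNat 13),
    (.ofNat 9, .ofNat 13, .negSucc 6), (.ofNat 9, .ofNat 13, .ofNat 7),
    (.ofNat 13, .negSucc 8, .negSucc 6), (.ofNat 13, .negSucc 8, .ofNat 7),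
    (.ofNat 13, .negSucc 6, .negSucc 8), (.ofNat 13, .negSucc 6, .ofNat 9),
    (.ofNat 13, .ofNat 7, .negSucc 8), (.ofNat 13, .ofNat 7, .ofNat 9),
    (.ofNat 13, .ofNat 9, .negSucc 6), (.ofNat 13, .ofNat 9, .ofNat 7)]),
  ((.ofNat 7, .ofNat 11, .ofNat 11), [
    (.ofNat 7, .negSucc 10, .negSucc 10), (.ofNat 7, .negSucc 10, .ofNat 11),
    (.ofNat 7, .ofNat 11, .negSucc 10), (.ofNat 7, .ofNat 11, .ofNat 11),
    (.ofNat 11, .negSucc 10, .negSucc 6), (.ofNat 11, .negSucc 10, .ofNat 7),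
    (.ofNat 11, .negSucc 6, .negSucc 10), (.ofNat 11, .negSucc 6, .ofNat 11),
    (.ofNat 11, .ofNat 7, .negSucc 10), (.ofNat 11, .ofNat 7, .ofNat 11),
    (.ofNat 11, .ofNat 11, .negSucc 6), (.ofNat 11, .ofNat 11, .ofNat 7)]),
  ((.ofNat 9, .ofNat 9, .ofNat 11), [
    (.ofNat 9, .negSucc 10, .negSucc 8), (.ofNat 9, .negSucc 10, .ofNat 9),
    (.ofNat 9, .negSucc 8, .negSucc 10), (.ofNat 9, .negSucc 8, .ofNat 11),
    (.ofNat 9, .ofNat 9, .negSucc 10), (.ofNat 9, .ofNat 9, .ofNat 11),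
    (.ofNat 9, .ofNat 11, .negSucc 8), (.ofNat 9, .ofNat 11, .ofNat 9),
    (.ofNat 11, .negSucc 8, .negSucc 8), (.ofNat 11, .negSucc 8, .ofNat 9),
    (.ofNat 11, .ofNat 9, .negSucc 8), (.ofNat 11, .ofNat 9, .ofNat 9)])]

/-- the 2329 triples -/
def Slit : List V := orbs.flatMap Prod.snd

/-- `w` or its opposite is in the list -/
def memb (w : V) (l : List V) : Bool :=
  l.any fun x => decide (x = w) || decide (x = ngt w)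

/-- closure of an orbit -/
def clos (o : V × List V) : Bool :=
  memb o.1 o.2 && o.2.all fun w => decide (srt w = o.1) &&
    (memb (sw1 w) o.2 && (memb (sw2 w) o.2 && memb (ng w) o.2))

set_option maxRecDepth 100000 in
theorem orbs_clos : orbs.all clos = true := by decide +kernel

/-- the first nonzero entry is positive -/
def posv (v : V) : Bool :=
  decide (0 < v.1) || (decide (v.1 = 0) &&
    (decide (0 < v.2.1) || (decide (v.2.1 = 0) && decide (0 < v.2.2))))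

/-- normalisation of the sign, primitivity and size -/
def nice (v : V) : Bool :=
  posv v && (Nat.beq (Nat.gcd (Nat.gcd v.1.natAbs v.2.1.natAbs) v.2.2.natAbs) 1 &&
    (Nat.ble v.1.natAbs 17 && (Nat.ble v.2.1.natAbs 17 && Nat.ble v.2.2.natAbs 17)))

set_option maxRecDepth 100000 in
theorem Slit_nice : Slit.all nice = true := by decide +kernel

/-- a number that determines a triple of absolute values at most 17 -/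
def code (v : V) : ℕ :=
  ((Int.toNat (v.1 + 17)) * 35 + Int.toNat (v.2.1 + 17)) * 35 + Int.toNat (v.2.2 + 17)

set_option maxRecDepth 100000 in
theorem Slit_codes : cnt (Slit.map code) 0 0 = 2329 := by decide +kernel

end Pool.Agent.DiracAdd
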